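import Mathlib

/-!
# A Varopoulos-Carne bound with a potential
-/

set_option autoImplicit false

namespace Pool.Agent.LT

open Finset Polynomial Polynomial.Chebyshev

/-- the Pell equation for the Chebyshev polynomials -/
lemma pell (k : ℕ) : T ℝ k ^ 2 + (1 - X ^ 2) * U ℝ ((k : ℤ) - 1) ^ 2 = 1 := by
  induction k with
  | zero => simp [U_neg_one]
  | succ k ih =>
    have h1 := T_eq_X_mul_T_sub_pol_U ℝ ((k : ℤ) - 1)
    have h2 := U_eq_X_mul_U_add_T ℝ ((k : ℤ) - 1)
    rw [show (k : ℤ) - 1 + 2 = ((k + 1 : ℕ) : ℤ) by push_cast; ring, show (k : ℤ) - 1 + 1 = (k : ℤ) by ring] at h1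
    rw [show (k : ℤ) - 1 + 1 = ((k + 1 : ℕ) : ℤ) - 1 by push_cast; ring,
      show ((k + 1 : ℕ) : ℤ) - 1 = (k : ℤ) by push_cast; ring] at h2
    rw [show ((k + 1 : ℕ) : ℤ) - 1 = (k : ℤ) by push_cast; ring, h1, h2]
    linear_combination ih

section vc
variable {α : Type*} [Fintype α] [DecidableEq α] {P : Matrix α α ℝ}

lemma aeval_symm (hs : P.transpose = P) (p : ℝ[X]) : (aeval P p).transpose = aeval P p := by
  induction p using Polynomial.induction_on' with
  | add p q hp hq => rw [map_add, Matrix.transpose_add, hp, hq]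
  | monomial k a =>
    rw [aeval_monomial, ← Algebra.smul_def, Matrix.transpose_smul, Matrix.transpose_pow, hs]

omit [DecidableEq α] in
/-- a symmetric stochastic matrix is a contraction of `l^2` -/
lemma contraction (hs : P.transpose = P) (h0 : ∀ x y, 0 ≤ P x y) (h1 : ∀ x, ∑ y, P x y = 1) (v : α → ℝ) :
    ∑ x, (∑ y, P x y * v y) ^ 2 ≤ ∑ y, v y ^ 2 := by
  have hj : ∀ x, (∑ y, P x y * v y) ^ 2 ≤ ∑ y, P x y * v y ^ 2 := by
    intro x
    have := sum_sq_le_sum_mul_sum_of_sq_le_mul (R := ℝ) univ (r := fun y => P x y * v y) (f := fun y => P x y)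
      (g := fun y => P x y * v y ^ 2) (fun y _ => h0 x y) (fun y _ => mul_nonneg (h0 x y) (sq_nonneg _))
      (fun y _ => le_of_eq (by ring))
    rwa [h1 x, one_mul] at this
  calc ∑ x, (∑ y, P x y * v y) ^ 2 ≤ ∑ x, ∑ y, P x y * v y ^ 2 := sum_le_sum fun x _ => hj x
    _ = ∑ y, ∑ x, P x y * v y ^ 2 := sum_comm
    _ = ∑ y, v y ^ 2 := by
      refine sum_congr rfl fun y _ => ?_
      rw [← sum_mul]
      have : ∑ x, P x y = 1 := by
        rw [← h1 y]
        refine sum_congr rfl fun x _ => ?_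
        conv_lhs => rw [← hs]
        rfl
      rw [this, one_mul]

/-- the Chebyshev polynomials of a symmetric stochastic matrix: the rows have norm at most `1` -/
lemma row_le (hs : P.transpose = P) (h0 : ∀ x y, 0 ≤ P x y) (h1 : ∀ x, ∑ y, P x y = 1) (k : ℤ) (x : α) :
    ∑ y, (aeval P (T ℝ k)) x y ^ 2 ≤ 1 := by
  rw [← T_natAbs]
  set m := k.natAbs
  set M := aeval P (T ℝ (m : ℤ)) with hM
  set N := aeval P (U ℝ ((m : ℤ) - 1)) with hN
  have hMs : M.transpose = M := aeval_symm hs _
  have hNs : N.transpose = N := aeval_symm hs _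
  have hp := congrArg (aeval P) (pell m)
  rw [map_add, map_mul, map_pow, map_pow, map_sub, map_one, map_pow, aeval_X, ← hM, ← hN] at hp
  have hcomm : P * N = N * P := by
    have := congrArg (aeval P) (mul_comm X (U ℝ ((m : ℤ) - 1)))
    rwa [map_mul, map_mul, aeval_X, ← hN] at this
  have e1 : (1 - P ^ 2) * N ^ 2 = N * N - (P * N).transpose * (P * N) := by
    rw [Matrix.transpose_mul, hNs, hs, sub_mul, one_mul, pow_two, pow_two]
    congr 1
    calc P * P * (N * N) = P * (P * N) * N := by simp only [mul_assoc]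
      _ = P * (N * P) * N := by rw [hcomm]
      _ = (P * N) * (P * N) := by simp only [mul_assoc]
      _ = (N * P) * (P * N) := by rw [hcomm]
  have e2 : (M * M) x x + ((N * N) x x - ((P * N).transpose * (P * N)) x x) = 1 := by
    have := congrFun (congrFun hp x) x
    rw [e1, pow_two, Matrix.add_apply, Matrix.sub_apply, Matrix.one_apply_eq] at this
    exact this
  have e3 : (M * M) x x = ∑ y, M x y ^ 2 := by
    rw [Matrix.mul_apply]
    refine sum_congr rfl fun y _ => ?_
    have : M y x = M x y := congrFun (congrFun hMs x) y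
    rw [this, pow_two]
  have e4 : (N * N) x x = ∑ y, N y x ^ 2 := by
    rw [Matrix.mul_apply]
    refine sum_congr rfl fun y _ => ?_
    have : N x y = N y x := congrFun (congrFun hNs y) x
    rw [this, pow_two]
  have e5 : ((P * N).transpose * (P * N)) x x = ∑ y, (∑ z, P y z * N z x) ^ 2 := by
    rw [Matrix.mul_apply]
    refine sum_congr rfl fun y _ => ?_
    rw [Matrix.transpose_apply, Matrix.mul_apply, pow_two]
  have e6 := contraction hs h0 h1 (fun z => N z x)
  rw [e3, e4, e5] at e2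
  linarith

/-- the support of the Chebyshev polynomials of `P` -/
lemma supp {Φ : α → ℝ} {R : ℝ} (hR : 0 ≤ R) (hP : ∀ x y, P x y ≠ 0 → |Φ x - Φ y| ≤ R) (k : ℕ) :
    ∀ x y : α, (aeval P (T ℝ (k : ℤ))) x y ≠ 0 → |Φ x - Φ y| ≤ R * k := by
  induction k using Nat.strong_induction_on with
  | _ k ih =>
    intro x y hxy
    rcases k with _ | _ | k
    · rw [Nat.cast_zero, T_zero, map_one] at hxy
      have : x = y := by
        by_contra h
        exact hxy (Matrix.one_apply_ne h)
      rw [this]; simp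
    · rw [Nat.zero_add, Nat.cast_one, T_one, aeval_X] at hxy
      simpa using hP x y hxy
    · have e : aeval P (T ℝ ((k + 1 + 1 : ℕ) : ℤ)) = (2 : ℝ) • (P * aeval P (T ℝ ((k + 1 : ℕ) : ℤ))) - aeval P (T ℝ (k : ℤ)) := by
        rw [show ((k + 1 + 1 : ℕ) : ℤ) = (k : ℤ) + 2 by push_cast; ring, T_add_two, map_sub, map_mul, map_mul, aeval_X,
          show ((k + 1 : ℕ) : ℤ) = (k : ℤ) + 1 by push_cast; ring]
        congr 1
        rw [map_ofNat, mul_assoc, two_smul, two_mul]
      rw [e, Matrix.sub_apply, Matrix.smul_apply] at hxy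
      by_cases h2 : (aeval P (T ℝ (k : ℤ))) x y = 0
      · rw [h2, sub_zero] at hxy
        have h3 : (P * aeval P (T ℝ ((k + 1 : ℕ) : ℤ))) x y ≠ 0 := by
          intro h; rw [h] at hxy; simp at hxy
        rw [Matrix.mul_apply] at h3
        obtain ⟨z, -, hz⟩ := exists_ne_zero_of_sum_ne_zero h3
        have h4 := hP x z (left_ne_zero_of_mul hz)
        have h5 := ih (k + 1) (by omega) z y (right_ne_zero_of_mul hz)
        calc |Φ x - Φ y| ≤ |Φ x - Φ z| + |Φ z - Φ y| := abs_sub_le _ _ _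
          _ ≤ R + R * ((k + 1 : ℕ) : ℝ) := add_le_add h4 h5
          _ = R * ((k + 1 + 1 : ℕ) : ℝ) := by push_cast; ring
      · have h5 := ih k (by omega) x y h2
        refine h5.trans (mul_le_mul_of_nonneg_left ?_ hR)
        exact_mod_cast (by omega : k ≤ k + 1 + 1)

/-- **Varopoulos-Carne with a potential** -/
theorem vc (hs : P.transpose = P) (h0 : ∀ x y, 0 ≤ P x y) (h1 : ∀ x, ∑ y, P x y = 1) {Φ : α → ℝ} {R D lam : ℝ}
    (hR : 0 < R) (hP : ∀ x y, P x y ≠ 0 → |Φ x - Φ y| ≤ R) (B : Finset α) (x : α)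
    (hB : ∀ y ∈ B, D ≤ |Φ x - Φ y|) (hlam : 0 ≤ lam) (t : ℕ) :
    ∑ y ∈ B, (P ^ t) x y ≤ 2 * Real.sqrt B.card * Real.exp (lam ^ 2 * t / 2 - lam * D / R) := by
  set A : ℝ := Real.sqrt B.card * Real.exp (-(lam * D / R)) with hA
  have hA0 : 0 ≤ A := by positivity
  have key : ∀ t : ℕ, ∀ k : ℤ, |∑ y ∈ B, (P ^ t * aeval P (T ℝ k)) x y| ≤
      A * (2 * Real.cosh (lam * k)) * Real.cosh lam ^ t := by
    intro t
    induction t with
    | zero =>
      intro k
      rw [pow_zero, one_mul, pow_zero, mul_one]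
      by_cases hk : R * |(k : ℝ)| < D
      · have : ∑ y ∈ B, (aeval P (T ℝ k)) x y = 0 := by
          refine sum_eq_zero fun y hy => ?_
          by_contra hne
          rw [← T_natAbs] at hne
          have h2 := supp hR.le hP k.natAbs x y hne
          have h3 := hB y hy
          rw [Nat.cast_natAbs, Int.cast_abs] at h2
          linarith
        rw [this, abs_zero]
        have := Real.cosh_pos (lam * k)
        positivity
      · push Not at hk
        have h2 : |∑ y ∈ B, (aeval P (T ℝ k)) x y| ≤ Real.sqrt B.card := by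
          apply Real.abs_le_sqrt
          have h3 := sum_mul_sq_le_sq_mul_sq B (fun _ => (1 : ℝ)) (fun y => (aeval P (T ℝ k)) x y)
          simp only [one_mul, one_pow, sum_const, nsmul_eq_mul, mul_one] at h3
          have h4 : ∑ y ∈ B, (aeval P (T ℝ k)) x y ^ 2 ≤ 1 :=
            (sum_le_sum_of_subset_of_nonneg (subset_univ B) fun _ _ _ => sq_nonneg _).trans (row_le hs h0 h1 k x)
          calc _ ≤ _ := h3
            _ ≤ (B.card : ℝ) * 1 := mul_le_mul_of_nonneg_left h4 (Nat.cast_nonneg _)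
            _ = B.card := mul_one _
        refine h2.trans ?_
        have h5 : (1 : ℝ) ≤ Real.exp (-(lam * D / R)) * (2 * Real.cosh (lam * k)) := by
          have h6 : Real.exp (lam * |(k : ℝ)|) ≤ 2 * Real.cosh (lam * k) := by
            rw [Real.cosh_eq]
            rcases abs_cases (k : ℝ) with h | h
            · rw [h.1]
              have := Real.exp_pos (-(lam * (k : ℝ)))
              linarith
            · rw [h.1]
              have := Real.exp_pos (lam * (k : ℝ))
              rw [mul_neg]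
              linarith
          have h7 : lam * D / R ≤ lam * |(k : ℝ)| := by
            rw [div_le_iff₀ hR]
            calc lam * D ≤ lam * (R * |(k : ℝ)|) := mul_le_mul_of_nonneg_left hk hlam
              _ = lam * |(k : ℝ)| * R := by ring
          calc (1 : ℝ) = Real.exp (-(lam * D / R)) * Real.exp (lam * D / R) := by rw [← Real.exp_add]; simp
            _ ≤ Real.exp (-(lam * D / R)) * Real.exp (lam * |(k : ℝ)|) :=
              mul_le_mul_of_nonneg_left (Real.exp_le_exp.2 h7) (Real.exp_pos _).le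
            _ ≤ _ := mul_le_mul_of_nonneg_left h6 (Real.exp_pos _).le
        calc Real.sqrt B.card = Real.sqrt B.card * 1 := (mul_one _).symm
          _ ≤ Real.sqrt B.card * (Real.exp (-(lam * D / R)) * (2 * Real.cosh (lam * k))) :=
            mul_le_mul_of_nonneg_left h5 (Real.sqrt_nonneg _)
          _ = A * (2 * Real.cosh (lam * k)) := by rw [hA]; ring
    | succ t ih =>
      intro k
      have e1 : P ^ (t + 1) * aeval P (T ℝ k) = (1 / 2 : ℝ) • (P ^ t * aeval P (T ℝ (k + 1)) + P ^ t * aeval P (T ℝ (k - 1))) := by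
        have h2 : aeval P (T ℝ (k + 1)) = (2 : ℝ) • (P * aeval P (T ℝ k)) - aeval P (T ℝ (k - 1)) := by
          rw [T_add_one, map_sub, map_mul, map_mul, aeval_X]
          congr 1
          rw [map_ofNat, mul_assoc, two_smul, two_mul]
        rw [h2, mul_sub, sub_add_cancel, Matrix.mul_smul, smul_smul]
        norm_num
        rw [pow_succ, mul_assoc]
      rw [e1]
      have e2 : ∑ y ∈ B, ((1 / 2 : ℝ) • (P ^ t * aeval P (T ℝ (k + 1)) + P ^ t * aeval P (T ℝ (k - 1)))) x y =
          1 / 2 * (∑ y ∈ B, (P ^ t * aeval P (T ℝ (k + 1))) x y + ∑ y ∈ B, (P ^ t * aeval P (T ℝ (k - 1))) x y) := by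
        rw [← sum_add_distrib, mul_sum]
        rfl
      rw [e2, abs_mul, abs_of_pos (show (0 : ℝ) < 1 / 2 by norm_num)]
      have e3 := ih (k + 1)
      have e4 := ih (k - 1)
      have e5 : Real.cosh (lam * ((k + 1 : ℤ) : ℝ)) + Real.cosh (lam * ((k - 1 : ℤ) : ℝ)) =
          2 * Real.cosh (lam * k) * Real.cosh lam := by
        push_cast
        rw [mul_add, mul_sub, mul_one, Real.cosh_add, Real.cosh_sub]
        ring
      calc 1 / 2 * |_ + _| ≤ 1 / 2 * (|_| + |_|) := mul_le_mul_of_nonneg_left (abs_add_le _ _) (by norm_num)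
        _ ≤ 1 / 2 * (A * (2 * Real.cosh (lam * ((k + 1 : ℤ) : ℝ))) * Real.cosh lam ^ t +
            A * (2 * Real.cosh (lam * ((k - 1 : ℤ) : ℝ))) * Real.cosh lam ^ t) :=
          mul_le_mul_of_nonneg_left (add_le_add e3 e4) (by norm_num)
        _ = A * Real.cosh lam ^ t * (Real.cosh (lam * ((k + 1 : ℤ) : ℝ)) + Real.cosh (lam * ((k - 1 : ℤ) : ℝ))) := by ring
        _ = _ := by rw [e5]; ring
  have h2 := key t 0
  rw [T_zero, map_one, mul_one, Int.cast_zero, mul_zero, Real.cosh_zero, mul_one] at h2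
  have h3 : Real.cosh lam ^ t ≤ Real.exp (lam ^ 2 * t / 2) := by
    calc Real.cosh lam ^ t ≤ Real.exp (lam ^ 2 / 2) ^ t :=
          pow_le_pow_left₀ (Real.cosh_pos _).le (Real.cosh_le_exp_half_sq lam) t
      _ = Real.exp (lam ^ 2 * t / 2) := by rw [← Real.exp_nat_mul]; congr 1; ring
  calc ∑ y ∈ B, (P ^ t) x y ≤ |∑ y ∈ B, (P ^ t) x y| := le_abs_self _
    _ ≤ A * 2 * Real.cosh lam ^ t := h2
    _ ≤ A * 2 * Real.exp (lam ^ 2 * t / 2) := mul_le_mul_of_nonneg_left h3 (by positivity)
    _ = 2 * Real.sqrt B.card * Real.exp (lam ^ 2 * t / 2 - lam * D / R) := by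
      rw [hA, sub_eq_add_neg, Real.exp_add]; ring

end vc

end Pool.Agent.LT
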