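import Pool.Agent.Helper21.LT.Count
import Pool.Agent.Helper21.LT.VC

/-!
# The chain is symmetric and stochastic; the potential
-/

set_option autoImplicit false

namespace Pool.Agent.LT

open Finset

variable {n : ℕ}

lemma step_eq_iff {T T' : Tri n} {e : Finset (ℤ × ℤ)} (hne : T ≠ T') : step T e = T' ↔ FlipAt T.1 e T'.1 := by
  unfold step
  split_ifs with h
  · have hs := h.choose_spec
    constructor
    · intro h1
      rwa [h1] at hs
    · intro h1
      exact Subtype.ext (hs.unique T.2 h.choose.2 T'.2 h1)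
  · constructor
    · intro h1
      exact absurd h1 hne
    · intro h1
      exact absurd ⟨T', h1⟩ h

/-- the flipped edge is determined -/
lemma FlipAt.edge_unique {T T' : Tri n} {e e' : Finset (ℤ × ℤ)} (h : FlipAt T.1 e T'.1) (h' : FlipAt T.1 e' T'.1) :
    e = e' := by
  obtain ⟨f, he, hef, h1⟩ := h.exists_insert T.2
  obtain ⟨f', he', hef', h1'⟩ := h'.exists_insert T.2
  have hnot : e' ∉ T'.1 := by
    rw [h1', mem_insert, mem_erase]
    rintro (h2 | h2)
    · exact hef' h2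
    · exact h2.1 rfl
  by_contra hne
  apply hnot
  rw [h1]
  exact mem_insert_of_mem (mem_erase.2 ⟨fun h => hne h.symm, he'⟩)

lemma FlipAt.ne {T T' : Tri n} {e : Finset (ℤ × ℤ)} (h : FlipAt T.1 e T'.1) : T ≠ T' := by
  obtain ⟨f, he, hef, h1⟩ := h.exists_insert T.2
  rintro rfl
  have : e ∈ insert f (T.1.erase e) := h1 ▸ he
  rw [mem_insert, mem_erase] at this
  rcases this with h2 | h2
  · exact hef h2
  · exact h2.1 rfl

lemma FlipAt.mem {T : Finset (Finset (ℤ × ℤ))} {T' : Finset (Finset (ℤ × ℤ))} {e : Finset (ℤ × ℤ)} (h : FlipAt T e T') :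
    e ∈ T := by
  obtain ⟨p, q, r, s, rfl, ⟨h1, -⟩, -⟩ := h
  exact h1

open Classical in
lemma count_eq {T T' : Tri n} (hne : T ≠ T') :
    (T.1.filter fun e => step T e = T').card = if ∃ e, FlipAt T.1 e T'.1 then 1 else 0 := by
  split_ifs with h
  · obtain ⟨e, he⟩ := h
    rw [card_eq_one]
    refine ⟨e, ?_⟩
    ext e'
    rw [mem_filter, mem_singleton, step_eq_iff hne]
    constructor
    · rintro ⟨-, h2⟩
      exact h2.edge_unique he
    · rintro rfl
      exact ⟨he.mem, he⟩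
  · rw [card_eq_zero, filter_eq_empty_iff]
    intro e he h2
    exact h ⟨e, (step_eq_iff hne).1 h2⟩

theorem kernel_symm (n : ℕ) : (kernel n).transpose = kernel n := by
  classical
  ext T T'
  rw [Matrix.transpose_apply]
  by_cases hne : T = T'
  · rw [hne]
  · unfold kernel
    rw [T.2.card, T'.2.card, count_eq hne, count_eq (Ne.symm hne)]
    have : (∃ e, FlipAt T'.1 e T.1) ↔ ∃ e, FlipAt T.1 e T'.1 := by
      constructor
      · rintro ⟨e, he⟩
        exact he.symm T'.2 T.2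
      · rintro ⟨e, he⟩
        exact he.symm T.2 T'.2
    simp only [this]

lemma kernel_nonneg (T T' : Tri n) : 0 ≤ kernel n T T' := by
  unfold kernel
  positivity

lemma HH_pos (hn : 1 ≤ n) : 0 < (HH n).card := by
  rw [card_HH]
  positivity

theorem kernel_sum (hn : 1 ≤ n) (T : Tri n) : ∑ T', kernel n T T' = 1 := by
  unfold kernel
  rw [← sum_div, ← Nat.cast_sum, ← card_eq_sum_card_fiberwise (t := univ) (fun e _ => mem_coe.2 (mem_univ (step T e)))]
  apply div_self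
  rw [T.2.card]
  exact_mod_cast (HH_pos hn).ne'

/-- the slope `a / b` of an edge with the direction `(a, b)`, `b` odd -/
noncomputable def sl (e : Finset (ℤ × ℤ)) : ℝ :=
  if (sm e).2 % 2 = 0 then 0 else
    ((∑ p ∈ e, ∑ q ∈ e, (p.1 - q.1) * (p.2 - q.2) : ℤ) : ℝ) / ((∑ p ∈ e, ∑ q ∈ e, (p.2 - q.2) ^ 2 : ℤ) : ℝ)

lemma sl_pair {a b : ℤ × ℤ} (hab : a ≠ b) (hodd : (a.2 + b.2) % 2 ≠ 0) :
    sl {a, b} = ((b.1 : ℝ) - a.1) / ((b.2 : ℝ) - a.2) := by
  unfold sl
  rw [sm_pair hab, if_neg (by simpa using hodd), sum_pair hab, sum_pair hab, sum_pair hab, sum_pair hab, sum_pair hab,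
    sum_pair hab]
  have hne : (b.2 : ℝ) - a.2 ≠ 0 := by
    have : b.2 - a.2 ≠ 0 := by omega
    exact_mod_cast this
  push_cast
  have e1 : ((a.1 : ℝ) - a.1) * (a.2 - a.2) + (a.1 - b.1) * (a.2 - b.2) + ((b.1 - a.1) * (b.2 - a.2) + (b.1 - b.1) * (b.2 - b.2)) =
      2 * (b.1 - a.1) * (b.2 - a.2) := by ring
  have e2 : ((a.2 : ℝ) - a.2) ^ 2 + (a.2 - b.2) ^ 2 + ((b.2 - a.2) ^ 2 + (b.2 - b.2) ^ 2) = 2 * (b.2 - a.2) ^ 2 := by ring
  rw [e1, e2]
  field_simp

lemma sl_even {a b : ℤ × ℤ} (hab : a ≠ b) (h : (a.2 + b.2) % 2 = 0) : sl {a, b} = 0 := by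
  unfold sl
  rw [sm_pair hab, if_pos (by simpa using h)]

/-- the potential -/
noncomputable def Phi (T : Tri n) : ℝ := ∑ e ∈ T.1, sl e

lemma Phi_flip {T T' : Tri n} {e : Finset (ℤ × ℤ)} (h : FlipAt T.1 e T'.1) : |Phi T - Phi T'| ≤ 2 := by
  obtain ⟨f, he, hef, h1⟩ := h.exists_insert T.2
  obtain ⟨hf, hsm, hdet⟩ := flip_one T.2 he hef (h1 ▸ T'.2)
  have e1 : Phi T - Phi T' = sl e - sl f := by
    unfold Phi
    rw [h1, sum_insert (fun h => hf (mem_of_mem_erase h)), sum_erase_eq_sub he]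
    ring
  rw [e1]
  have hfT' : f ∈ T'.1 := by rw [h1]; exact mem_insert_self _ _
  obtain ⟨a, a', ha, rfl⟩ := (T.2.edge _ he).exists_pair
  obtain ⟨b, b', hb, rfl⟩ := (T'.2.edge _ hfT').exists_pair
  have hd := hdet a a' b b' rfl rfl
  rw [sm_pair ha, sm_pair hb] at hsm
  have hs2 : b.2 + b'.2 = a.2 + a'.2 := congrArg Prod.snd hsm
  by_cases hpar : (a.2 + a'.2) % 2 = 0
  · rw [sl_even ha hpar, sl_even hb (by rw [hs2]; exact hpar)]
    simp
  · rw [sl_pair ha hpar, sl_pair hb (by rw [hs2]; exact hpar)]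
    have n1 : a'.2 - a.2 ≠ 0 := by omega
    have n2 : b'.2 - b.2 ≠ 0 := by omega
    have r1 : ((a'.2 : ℝ) - a.2) ≠ 0 := by exact_mod_cast n1
    have r2 : ((b'.2 : ℝ) - b.2) ≠ 0 := by exact_mod_cast n2
    have hdR : |((a'.1 : ℝ) - a.1) * (b'.2 - b.2) - (a'.2 - a.2) * (b'.1 - b.1)| = 2 := by exact_mod_cast hd
    have h3 : (1 : ℝ) ≤ |((a'.2 : ℝ) - a.2) * (b'.2 - b.2)| := by
      have : (1 : ℤ) ≤ |(a'.2 - a.2) * (b'.2 - b.2)| := Int.one_le_abs (mul_ne_zero n1 n2)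
      exact_mod_cast this
    rw [div_sub_div _ _ r1 r2, abs_div, hdR]
    rw [div_le_iff₀ (by linarith)]
    linarith

theorem Phi_step {T T' : Tri n} (h : kernel n T T' ≠ 0) : |Phi T - Phi T'| ≤ 2 := by
  by_cases hne : T = T'
  · rw [hne]; simp
  · have h1 : (T.1.filter fun e => step T e = T').card ≠ 0 := by
      intro h0
      apply h
      unfold kernel
      rw [h0]
      simp
    obtain ⟨e, he⟩ := card_ne_zero.1 h1
    rw [mem_filter, step_eq_iff hne] at he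
    exact Phi_flip he.2

end Pool.Agent.LT
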