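import Pool.Agent.Helper21.LT.Flip

/-!
# The number of lattice triangulations is at most `2 ^ (3 n ^ 2 + 2 n)` (Anclin)
-/

set_option autoImplicit false

namespace Pool.Agent.LT

open Finset

/-- functions on an ordered set such that given the values before a point there are at most two values at the point -/
theorem card_le_two_pow {ι κ β : Type*} [Fintype ι] [LinearOrder κ] (r : ι → κ) (S : Finset (ι → β))
    (h : ∀ i : ι, ∀ f ∈ S, ∀ g ∈ S, ∀ k ∈ S, (∀ j, r j < r i → f j = g j) → (∀ j, r j < r i → f j = k j) →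
      f i = g i ∨ f i = k i ∨ g i = k i) : S.card ≤ 2 ^ Fintype.card ι := by
  classical
  -- the class of a function at a point
  let C : (ι → β) → ι → Set (ι → β) := fun f i => {g | g ∈ S ∧ ∀ j, r j < r i → f j = g j}
  have hC : ∀ f i, f ∈ S → (C f i).Nonempty := fun f i hf => ⟨f, hf, fun _ _ => rfl⟩
  let ε : Set (ι → β) → (ι → β) → (ι → β) := fun A d => if h : A.Nonempty then h.some else d
  let code : (ι → β) → (ι → Prop) := fun f i => f i = ε (C f i) f i
  have hinj : Set.InjOn code S := by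
    intro f hf g hg hfg
    by_contra hne
    obtain ⟨i, hi, hmin⟩ := exists_min_image (univ.filter fun i => f i ≠ g i) r (by
      obtain ⟨i, hi⟩ := Function.ne_iff.1 hne
      exact ⟨i, by simpa using hi⟩)
    rw [mem_filter] at hi
    have hpre : ∀ j, r j < r i → f j = g j := by
      intro j hj
      by_contra h2
      exact absurd (hmin j (by simpa using h2)) (not_le.2 hj)
    have hCC : C f i = C g i := by
      ext k
      constructor
      · rintro ⟨k1, k2⟩
        exact ⟨k1, fun j hj => (hpre j hj).symm.trans (k2 j hj)⟩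
      · rintro ⟨k1, k2⟩
        exact ⟨k1, fun j hj => (hpre j hj).trans (k2 j hj)⟩
    have e1 : ε (C f i) f = (hC f i hf).some := dif_pos (hC f i hf)
    have e2 : ε (C g i) g = (hC g i hg).some := dif_pos (hC g i hg)
    have e3 : (hC f i hf).some = (hC g i hg).some := by congr 1
    set k := (hC f i hf).some with hk
    have hkm : k ∈ C f i := (hC f i hf).some_mem
    have e4 : (f i = k i) = (g i = k i) := by
      have := congrFun hfg i
      simp only [code, e1, e2, ← e3] at this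
      exact this
    rcases h i f hf g hg k hkm.1 hpre hkm.2 with h1 | h1 | h1
    · exact hi.2 h1
    · have h2 := e4.mp h1
      exact hi.2 (h1.trans h2.symm)
    · have h2 := e4.mpr h1
      exact hi.2 (h2.trans h1.symm)
  calc S.card ≤ (univ : Finset (ι → Prop)).card := card_le_card_of_injOn code (fun _ _ => mem_coe.2 (mem_univ _)) hinj
    _ = 2 ^ Fintype.card ι := by simp

variable {n : ℕ}

/-- the edge of `T` with the sum `M` -/
noncomputable def edgeAt (T : Tri n) (M : HH n) : Finset (ℤ × ℤ) := (T.2.surj M.2).choose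

lemma edgeAt_mem (T : Tri n) (M : HH n) : edgeAt T M ∈ T.1 := (T.2.surj M.2).choose_spec.1

lemma sm_edgeAt (T : Tri n) (M : HH n) : sm (edgeAt T M) = M := (T.2.surj M.2).choose_spec.2

lemma edgeAt_sm (T : Tri n) {e : Finset (ℤ × ℤ)} (he : e ∈ T.1) : edgeAt T ⟨sm e, (T.2.edge e he).sm_mem⟩ = e :=
  T.2.inj (edgeAt_mem _ _) he (sm_edgeAt _ _)

lemma edgeAt_injective : Function.Injective (edgeAt (n := n)) := by
  have : ∀ T T' : Tri n, edgeAt T = edgeAt T' → T.1 ⊆ T'.1 := by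
    intro T T' h e he
    rw [← edgeAt_sm T he, h]
    exact edgeAt_mem _ _
  intro T T' h
  exact Subtype.ext (Subset.antisymm (this _ _ h) (this _ _ h.symm))

/-- two triangulations with the same edges before `M` -/
lemma det_of_agree (T T' : Tri n) (M : HH n)
    (h : ∀ M' : HH n, toLex (M' : ℤ × ℤ) < toLex (M : ℤ × ℤ) → edgeAt T M' = edgeAt T' M')
    (hne : edgeAt T M ≠ edgeAt T' M) {a a' b b' : ℤ × ℤ} (h1 : edgeAt T M = {a, a'}) (h2 : edgeAt T' M = {b, b'}) :
    |(a'.1 - a.1) * (b'.2 - b.2) - (a'.2 - a.2) * (b'.1 - b.1)| = 2 := by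
  by_contra hdet
  have m1 := edgeAt_mem T M
  have m2 := edgeAt_mem T' M
  have s1 := sm_edgeAt T M
  have s2 := sm_edgeAt T' M
  rw [h1] at m1 s1
  rw [h2] at m2 s2
  rw [h1, h2] at hne
  rw [sm_pair (T.2.ne m1)] at s1
  rw [sm_pair (T'.2.ne m2)] at s2
  obtain ⟨k, hk0, hk1, hk2, hk⟩ := share T.2 T'.2 m1 m2 (s1.trans s2.symm) hne hdet
  rw [s1] at hk1 hk2 hk
  -- a point before `M`
  have hlt : toLex ((M : ℤ × ℤ) + k) < toLex (M : ℤ × ℤ) ∨ toLex ((M : ℤ × ℤ) - k) < toLex (M : ℤ × ℤ) := by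
    rw [Prod.Lex.toLex_lt_toLex, Prod.Lex.toLex_lt_toLex]
    have : ¬ (k.1 = 0 ∧ k.2 = 0) := fun h => hk0 (Prod.ext h.1 h.2)
    simp only [Prod.fst_add, Prod.snd_add, Prod.fst_sub, Prod.snd_sub]
    omega
  rcases hlt with hlt | hlt
  · have e := h ⟨_, hk1⟩ hlt
    have m3 := edgeAt_mem T ⟨_, hk1⟩
    have m4 := edgeAt_mem T' ⟨_, hk1⟩
    rw [← e] at m4
    exact (hk _ m3 m4).1 (sm_edgeAt _ _)
  · have e := h ⟨_, hk2⟩ hlt
    have m3 := edgeAt_mem T ⟨_, hk2⟩
    have m4 := edgeAt_mem T' ⟨_, hk2⟩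
    rw [← e] at m4
    exact (hk _ m3 m4).2 (sm_edgeAt _ _)

/-- **Anclin's bound** -/
theorem card_Tri_le : Fintype.card (Tri n) ≤ 2 ^ (HH n).card := by
  classical
  have h1 : Fintype.card (Tri n) = ((univ : Finset (Tri n)).image edgeAt).card := by
    rw [card_image_of_injective _ edgeAt_injective, card_univ]
  have h2 : Fintype.card (HH n) = (HH n).card := Fintype.card_coe _
  rw [h1, ← h2]
  refine card_le_two_pow (fun M : HH n => toLex (M : ℤ × ℤ)) _ ?_
  intro M f hf g hg k hk hfg hfk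
  obtain ⟨T, -, rfl⟩ := mem_image.1 hf
  obtain ⟨T', -, rfl⟩ := mem_image.1 hg
  obtain ⟨T'', -, rfl⟩ := mem_image.1 hk
  by_contra hcon
  push Not at hcon
  obtain ⟨n1, n2, n3⟩ := hcon
  obtain ⟨a, a', ha, ea⟩ := (T.2.edge _ (edgeAt_mem T M)).exists_pair
  obtain ⟨b, b', hb, eb⟩ := (T'.2.edge _ (edgeAt_mem T' M)).exists_pair
  obtain ⟨c, c', hc, ec⟩ := (T''.2.edge _ (edgeAt_mem T'' M)).exists_pair
  have s1 := sm_edgeAt T M
  have s2 := sm_edgeAt T' M
  have s3 := sm_edgeAt T'' M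
  rw [ea, sm_pair ha] at s1
  rw [eb, sm_pair hb] at s2
  rw [ec, sm_pair hc] at s3
  have h4 := three' (s1.trans s2.symm) (s1.trans s3.symm) (det_of_agree T T' M hfg n1 ea eb)
    (det_of_agree T T'' M hfk n2 ea ec)
    (det_of_agree T' T'' M (fun M' h => (hfg M' h).symm.trans (hfk M' h)) n3 eb ec)
  have h5 := M.2
  rw [s1] at h4
  rw [mem_HH] at h5
  exact h5.2 h4

/-- the number of the half lattice points -/
theorem card_HH : (HH n).card = 3 * n ^ 2 + 2 * n := by
  have h1 : (Icc ((0 : ℤ), (0 : ℤ)) (2 * (n : ℤ), 2 * (n : ℤ))).card = (2 * n + 1) ^ 2 := by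
    rw [show Icc ((0 : ℤ), (0 : ℤ)) (2 * (n : ℤ), 2 * (n : ℤ)) = Icc 0 (2 * (n : ℤ)) ×ˢ Icc 0 (2 * (n : ℤ)) from rfl,
      card_product, Int.card_Icc, pow_two]
    have : (2 * (n : ℤ) + 1 - 0).toNat = 2 * n + 1 := by omega
    rw [this]
  have h2 : ((Icc ((0 : ℤ), (0 : ℤ)) (2 * (n : ℤ), 2 * (n : ℤ))).filter fun M => M.1 % 2 = 0 ∧ M.2 % 2 = 0).card =
      (n + 1) ^ 2 := by
    have h3 : ((Icc ((0 : ℤ), (0 : ℤ)) (2 * (n : ℤ), 2 * (n : ℤ))).filter fun M => M.1 % 2 = 0 ∧ M.2 % 2 = 0) =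
        (Icc 0 (n : ℤ) ×ˢ Icc 0 (n : ℤ)).image fun M => (2 * M.1, 2 * M.2) := by
      ext M
      simp only [mem_filter, mem_Icc, mem_image, mem_product, Prod.le_def, Prod.exists]
      constructor
      · rintro ⟨⟨⟨q1, q2⟩, q3, q4⟩, q5, q6⟩
        refine ⟨M.1 / 2, M.2 / 2, ⟨⟨by omega, by omega⟩, by omega, by omega⟩, Prod.ext ?_ ?_⟩
        · simp only; omega
        · simp only; omega
      · rintro ⟨x, y, ⟨⟨q1, q2⟩, q3, q4⟩, rfl⟩
        simp only
        omega
    rw [h3, card_image_of_injective, card_product, Int.card_Icc, pow_two]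
    · have : ((n : ℤ) + 1 - 0).toNat = n + 1 := by omega
      rw [this]
    · intro x y h
      have e1 := congrArg Prod.fst h
      have e2 := congrArg Prod.snd h
      simp only at e1 e2
      exact Prod.ext (by omega) (by omega)
  have h3 := card_filter_add_card_filter_not (s := Icc ((0 : ℤ), (0 : ℤ)) (2 * (n : ℤ), 2 * (n : ℤ)))
    (fun M => M.1 % 2 = 0 ∧ M.2 % 2 = 0)
  rw [h1, h2] at h3
  have h4 : (n + 1) ^ 2 + (3 * n ^ 2 + 2 * n) = (2 * n + 1) ^ 2 := by ring
  have h5 : (HH n).card = (filter (fun M => ¬ (M.1 % 2 = 0 ∧ M.2 % 2 = 0))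
    (Icc ((0 : ℤ), (0 : ℤ)) (2 * (n : ℤ), 2 * (n : ℤ)))).card := rfl
  omega

end Pool.Agent.LT
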