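import Pool.Agent.Helper21.LT.Defs

/-!
# Crossing of primitive segments in terms of determinants
-/

set_option autoImplicit false

namespace Pool.Agent.LT

open Finset

/-- the signed area of the triangle `a b c`, times two -/
def D (a b c : ℤ × ℤ) : ℤ := (b.1 - a.1) * (c.2 - a.2) - (b.2 - a.2) * (c.1 - a.1)

/-- the segments `a b` and `c d` cross in interior points -/
def Cross (a b c d : ℤ × ℤ) : Prop := D a b c * D a b d < 0 ∧ D c d a * D c d b < 0

lemma Cross.symm {a b c d : ℤ × ℤ} (h : Cross a b c d) : Cross c d a b := ⟨h.2, h.1⟩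

lemma D_swap (a b c : ℤ × ℤ) : D b a c = - D a b c := by unfold D; ring

lemma D_rot (a b c : ℤ × ℤ) : D b c a = D a b c := by unfold D; ring

lemma Cross.swapl {a b c d : ℤ × ℤ} (h : Cross a b c d) : Cross b a c d := by
  refine ⟨?_, ?_⟩
  · rw [D_swap a b c, D_swap a b d, neg_mul_neg]; exact h.1
  · rw [mul_comm]; exact h.2

lemma Cross.swapr {a b c d : ℤ × ℤ} (h : Cross a b c d) : Cross a b d c := h.symm.swapl.symm

lemma seg_pair (a b : ℤ × ℤ) : seg {a, b} = segment ℝ (pt a) (pt b) := by
  unfold seg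
  rw [coe_pair, Set.image_pair, convexHull_pair]

lemma pt_inj {a b : ℤ × ℤ} (h : pt a = pt b) : a = b := by
  unfold pt at h
  simp only [Prod.mk.injEq, Int.cast_inj] at h
  exact Prod.ext h.1 h.2

/-- the point of the segment with parameter `t` -/
def par (a b : ℤ × ℤ) (t : ℝ) : ℝ × ℝ := (a.1 + t * (b.1 - a.1), a.2 + t * (b.2 - a.2))

lemma par_zero (a b : ℤ × ℤ) : par a b 0 = pt a := by unfold par pt; ext <;> simp
lemma par_one (a b : ℤ × ℤ) : par a b 1 = pt b := by unfold par pt; ext <;> simp

lemma mem_seg {a b : ℤ × ℤ} {x : ℝ × ℝ} : x ∈ seg {a, b} ↔ ∃ t : ℝ, 0 ≤ t ∧ t ≤ 1 ∧ x = par a b t := by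
  rw [seg_pair, segment_eq_image]
  constructor
  · rintro ⟨t, ⟨h0, h1⟩, rfl⟩
    refine ⟨t, h0, h1, ?_⟩
    unfold pt par
    ext <;> simp <;> ring
  · rintro ⟨t, h0, h1, rfl⟩
    refine ⟨t, ⟨h0, h1⟩, ?_⟩
    unfold pt par
    ext <;> simp <;> ring

lemma mem_grid {n : ℕ} {p : ℤ × ℤ} : p ∈ grid n ↔ (0 ≤ p.1 ∧ 0 ≤ p.2) ∧ p.1 ≤ n ∧ p.2 ≤ n := by
  unfold grid
  rw [mem_Icc, Prod.le_def, Prod.le_def]

/-- crossing segments cross -/
lemma Cross.not_NC {a b c d : ℤ × ℤ} (h : Cross a b c d) : ¬ NC {a, b} {c, d} := by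
  intro hn
  obtain ⟨h1, h2⟩ := h
  -- the determinant of the two directions
  set Δ : ℤ := (b.1 - a.1) * (d.2 - c.2) - (b.2 - a.2) * (d.1 - c.1) with hΔ
  have e1 : D c d a - D c d b = Δ := by rw [hΔ]; unfold D; ring
  have e2 : D a b d - D a b c = Δ := by rw [hΔ]; unfold D; ring
  have hΔ0 : Δ ≠ 0 := by
    intro h0
    rw [h0] at e1
    have : D c d a = D c d b := by linarith
    rw [this] at h2
    nlinarith [mul_self_nonneg (D c d b)]
  have hΔR : (Δ : ℝ) ≠ 0 := by exact_mod_cast hΔ0
  have key : ∀ u v w : ℤ, u * v < 0 → u - v = w → 0 ≤ (u : ℝ) / w ∧ (u : ℝ) / w ≤ 1 := by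
    intro u v w h1 h2
    have hw : (w : ℝ) = u - v := by rw [← h2]; push_cast; ring
    rcases lt_or_gt_of_ne (show u ≠ 0 by rintro rfl; simp at h1) with hu | hu
    · have hv : 0 < v := by nlinarith
      have hu' : (u : ℝ) < 0 := by exact_mod_cast hu
      have hv' : (0 : ℝ) < v := by exact_mod_cast hv
      rw [hw]
      constructor
      · exact div_nonneg_of_nonpos hu'.le (by linarith)
      · rw [div_le_one_of_neg (by linarith)]; linarith
    · have hv : v < 0 := by nlinarith
      have hu' : (0 : ℝ) < u := by exact_mod_cast hu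
      have hv' : (v : ℝ) < 0 := by exact_mod_cast hv
      rw [hw]
      constructor
      · exact div_nonneg hu'.le (by linarith)
      · rw [div_le_one (by linarith)]; linarith
  have k1 := key (D c d a) (D c d b) Δ h2 e1
  have k2 := key (D a b c) (D a b d) (-Δ) h1 (by linarith)
  obtain ⟨p, hp1, hp2, hp3⟩ := hn (par a b ((D c d a : ℝ) / Δ)) (mem_seg.2 ⟨_, k1.1, k1.2, rfl⟩)
    (mem_seg.2 ⟨_, k2.1, k2.2, by
      unfold par
      push_cast
      ext
      · show (a.1 : ℝ) + _ = c.1 + _
        field_simp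
        rw [hΔ]; unfold D; push_cast; ring
      · show (a.2 : ℝ) + _ = c.2 + _
        field_simp
        rw [hΔ]; unfold D; push_cast; ring⟩)
  have hc : D a b c ≠ 0 := by intro h0; rw [h0] at h1; simp at h1
  have hd : D a b d ≠ 0 := by intro h0; rw [h0] at h1; simp at h1
  rw [mem_insert, mem_singleton] at hp1 hp2
  rcases hp1 with rfl | rfl <;> rcases hp2 with rfl | rfl
  · apply hc; unfold D; ring
  · apply hd; unfold D; ring
  · apply hc; unfold D; ring
  · apply hd; unfold D; ring

/-- lattice segments which are primitive: some lattice vector completes the direction to a basis -/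
lemma exists_basis {n : ℕ} {a b : ℤ × ℤ} (h : IsEdge n {a, b}) :
    ∃ w : ℤ × ℤ, (b.1 - a.1) * w.2 - (b.2 - a.2) * w.1 = 1 := by
  have hab : a ≠ b := by
    rintro rfl
    have := h.card
    simp at this
  have ha : a ∈ grid n := h.sub (by simp)
  have hb : b ∈ grid n := h.sub (by simp)
  rw [mem_grid] at ha hb
  set g : ℕ := Int.gcd (b.1 - a.1) (b.2 - a.2) with hg
  have hg0 : g ≠ 0 := by
    intro h0
    rw [h0] at hg
    have := Int.gcd_eq_zero_iff.1 hg.symm
    apply hab
    ext <;> [have := this.1; have := this.2] <;> linarith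
  obtain ⟨x, hx⟩ : (g : ℤ) ∣ b.1 - a.1 := Int.gcd_dvd_left _ _
  obtain ⟨y, hy⟩ : (g : ℤ) ∣ b.2 - a.2 := Int.gcd_dvd_right _ _
  have hg1 : (1 : ℤ) ≤ g := by have := Nat.pos_of_ne_zero hg0; exact_mod_cast this
  have hgR : (0 : ℝ) < g := by exact_mod_cast Nat.pos_of_ne_zero hg0
  have hz : ∀ u v z : ℤ, 0 ≤ u → u ≤ n → 0 ≤ v → v ≤ n → v - u = g * z → 0 ≤ u + z ∧ u + z ≤ n := by
    intro u v z h1 h2 h3 h4 h5
    rcases le_total 0 z with h6 | h6
    · constructor
      · linarith
      · nlinarith
    · constructor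
      · nlinarith
      · linarith
  have hm : ((a.1 + x, a.2 + y) : ℤ × ℤ) ∈ grid n := by
    rw [mem_grid]
    have z1 := hz _ _ x ha.1.1 ha.2.1 hb.1.1 hb.2.1 hx
    have z2 := hz _ _ y ha.1.2 ha.2.2 hb.1.2 hb.2.2 hy
    exact ⟨⟨z1.1, z2.1⟩, z1.2, z2.2⟩
  have hs : pt (a.1 + x, a.2 + y) ∈ seg {a, b} := by
    rw [mem_seg]
    refine ⟨1 / g, by positivity, ?_, ?_⟩
    · rw [div_le_one hgR]
      exact_mod_cast hg1
    · have hx' : (b.1 : ℝ) - a.1 = g * x := by exact_mod_cast hx
      have hy' : (b.2 : ℝ) - a.2 = g * y := by exact_mod_cast hy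
      unfold pt par
      rw [hx', hy']
      push_cast
      ext <;> simp <;> field_simp
  have := h.prim _ hm hs
  rw [mem_insert, mem_singleton] at this
  have hg1' : g = 1 := by
    rcases this with h1 | h1
    · exfalso
      have e1 : a.1 + x = a.1 := congrArg Prod.fst h1
      have e2 : a.2 + y = a.2 := congrArg Prod.snd h1
      have e3 : x = 0 := by linarith
      have e4 : y = 0 := by linarith
      rw [e3] at hx
      rw [e4] at hy
      apply hab
      ext <;> linarith
    · have e1 : a.1 + x = b.1 := congrArg Prod.fst h1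
      have e2 : a.2 + y = b.2 := congrArg Prod.snd h1
      have e3 : x * (g - 1) = 0 := by linear_combination -hx - e1
      have e4 : y * (g - 1) = 0 := by linear_combination -hy - e2
      by_contra hne
      have hg2 : (g : ℤ) - 1 ≠ 0 := by
        intro h0
        apply hne
        have : (g : ℤ) = 1 := by linarith
        exact_mod_cast this
      have e5 : x = 0 := (mul_eq_zero.1 e3).resolve_right hg2
      have e6 : y = 0 := (mul_eq_zero.1 e4).resolve_right hg2
      rw [e5] at hx
      rw [e6] at hy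
      apply hab
      ext <;> linarith
  have hB := Int.gcd_eq_gcd_ab (b.1 - a.1) (b.2 - a.2)
  rw [← hg, hg1'] at hB
  refine ⟨(- Int.gcdB (b.1 - a.1) (b.2 - a.2), Int.gcdA (b.1 - a.1) (b.2 - a.2)), ?_⟩
  push_cast at hB
  linear_combination -hB

lemma D_eq_zero_of_mem {a b p : ℤ × ℤ} (hp : p = a ∨ p = b) : D a b p = 0 := by
  rcases hp with rfl | rfl <;> (unfold D; ring)

/-- **primitive segments which are not the same and cross in some point which is not a common endpoint
cross in the interior** -/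
theorem cross_of_not_NC {n : ℕ} {a b c d : ℤ × ℤ} (he : IsEdge n {a, b}) (hf : IsEdge n {c, d})
    (hne : ({a, b} : Finset (ℤ × ℤ)) ≠ {c, d}) (h : ¬ NC {a, b} {c, d}) : Cross a b c d := by
  unfold NC at h
  push Not at h
  obtain ⟨x, hx1, hx2, hx⟩ := h
  obtain ⟨t, t0, t1, ht⟩ := mem_seg.1 hx1
  obtain ⟨s, s0, s1, hs⟩ := mem_seg.1 hx2
  have ga : a ∈ grid n := he.sub (by simp)
  have gb : b ∈ grid n := he.sub (by simp)
  have gc : c ∈ grid n := hf.sub (by simp)
  have gd : d ∈ grid n := hf.sub (by simp)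
  -- interior points
  have ht0 : t ≠ 0 := by
    rintro rfl
    rw [par_zero] at ht
    exact hx a (by simp) (hf.prim a ga (ht ▸ hx2)) ht
  have ht1 : t ≠ 1 := by
    rintro rfl
    rw [par_one] at ht
    exact hx b (by simp) (hf.prim b gb (ht ▸ hx2)) ht
  have hs0 : s ≠ 0 := by
    rintro rfl
    rw [par_zero] at hs
    exact hx c (he.prim c gc (hs ▸ hx1)) (by simp) hs
  have hs1 : s ≠ 1 := by
    rintro rfl
    rw [par_one] at hs
    exact hx d (he.prim d gd (hs ▸ hx1)) (by simp) hs
  replace t0 : 0 < t := lt_of_le_of_ne t0 (Ne.symm ht0)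
  replace t1 : t < 1 := lt_of_le_of_ne t1 ht1
  replace s0 : 0 < s := lt_of_le_of_ne s0 (Ne.symm hs0)
  replace s1 : s < 1 := lt_of_le_of_ne s1 hs1
  have hpar : par a b t = par c d s := by rw [← ht, ← hs]
  have p1 : (a.1 : ℝ) + t * (b.1 - a.1) = c.1 + s * (d.1 - c.1) := congrArg Prod.fst hpar
  have p2 : (a.2 : ℝ) + t * (b.2 - a.2) = c.2 + s * (d.2 - c.2) := congrArg Prod.snd hpar
  have q1 : (1 - s) * (D a b c : ℝ) + s * D a b d = 0 := by
    unfold D
    push_cast
    linear_combination ((b.2 : ℝ) - a.2) * p1 - ((b.1 : ℝ) - a.1) * p2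
  have q2 : (1 - t) * (D c d a : ℝ) + t * D c d b = 0 := by
    unfold D
    push_cast
    linear_combination ((d.1 : ℝ) - c.1) * p2 - ((d.2 : ℝ) - c.2) * p1
  have key : ∀ (u v : ℤ) (r : ℝ), 0 < r → r < 1 → (1 - r) * (u : ℝ) + r * v = 0 → u = 0 ∧ v = 0 ∨ u * v < 0 := by
    intro u v r h0 h1 h2
    rcases lt_trichotomy u 0 with hu | hu | hu
    · right
      have hu' : (u : ℝ) < 0 := by exact_mod_cast hu
      have : 0 < r * (v : ℝ) := by nlinarith
      have hv : (0 : ℝ) < v := by
        by_contra hv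
        push Not at hv
        nlinarith
      have hv' : 0 < v := by exact_mod_cast hv
      exact mul_neg_of_neg_of_pos hu hv'
    · left
      refine ⟨hu, ?_⟩
      rw [hu] at h2
      have : r * (v : ℝ) = 0 := by simpa using h2
      rcases mul_eq_zero.1 this with h3 | h3
      · linarith
      · exact_mod_cast h3
    · right
      have hu' : (0 : ℝ) < u := by exact_mod_cast hu
      have : r * (v : ℝ) < 0 := by nlinarith
      have hv : (v : ℝ) < 0 := by
        by_contra hv
        push Not at hv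
        nlinarith
      have hv' : v < 0 := by exact_mod_cast hv
      exact mul_neg_of_pos_of_neg hu hv'
  -- the collinear case
  have coll : ¬ (D a b c = 0 ∧ D a b d = 0) := by
    rintro ⟨h1, h2⟩
    obtain ⟨w, hw⟩ := exists_basis he
    set k : ℤ := (c.1 - a.1) * w.2 - (c.2 - a.2) * w.1 with hk
    set l : ℤ := (d.1 - a.1) * w.2 - (d.2 - a.2) * w.1 with hl
    have c1 : c.1 - a.1 = k * (b.1 - a.1) := by
      unfold D at h1
      rw [hk]
      linear_combination (-(c.1 - a.1)) * hw + w.1 * h1
    have c2 : c.2 - a.2 = k * (b.2 - a.2) := by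
      unfold D at h1
      rw [hk]
      linear_combination (-(c.2 - a.2)) * hw + w.2 * h1
    have d1 : d.1 - a.1 = l * (b.1 - a.1) := by
      unfold D at h2
      rw [hl]
      linear_combination (-(d.1 - a.1)) * hw + w.1 * h2
    have d2 : d.2 - a.2 = l * (b.2 - a.2) := by
      unfold D at h2
      rw [hl]
      linear_combination (-(d.2 - a.2)) * hw + w.2 * h2
    have c1R : (c.1 : ℝ) - a.1 = k * (b.1 - a.1) := by exact_mod_cast c1
    have c2R : (c.2 : ℝ) - a.2 = k * (b.2 - a.2) := by exact_mod_cast c2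
    have d1R : (d.1 : ℝ) - a.1 = l * (b.1 - a.1) := by exact_mod_cast d1
    have d2R : (d.2 : ℝ) - a.2 = l * (b.2 - a.2) := by exact_mod_cast d2
    have hwR : ((b.1 : ℝ) - a.1) * w.2 - (b.2 - a.2) * w.1 = 1 := by exact_mod_cast hw
    have tt : t = k + s * (l - k) := by
      have e1 : t * ((b.1 : ℝ) - a.1) = (k + s * (l - k)) * (b.1 - a.1) := by
        linear_combination p1 + (1 - s) * c1R + s * d1R
      have e2 : t * ((b.2 : ℝ) - a.2) = (k + s * (l - k)) * (b.2 - a.2) := by
        linear_combination p2 + (1 - s) * c2R + s * d2R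
      linear_combination (-(t - (k + s * (l - k)))) * hwR + w.2 * e1 - w.1 * e2
    -- a lattice point of the line, with integer parameter between k and l
    have inside : ∀ r : ℤ, (k ≤ r ∧ r ≤ l ∨ l ≤ r ∧ r ≤ k) → ∀ z : ℤ × ℤ, z ∈ grid n → z.1 - a.1 = r * (b.1 - a.1) →
        z.2 - a.2 = r * (b.2 - a.2) → z ∈ ({c, d} : Finset (ℤ × ℤ)) := by
      intro r hr z hz z1 z2
      have z1R : (z.1 : ℝ) - a.1 = r * (b.1 - a.1) := by exact_mod_cast z1
      have z2R : (z.2 : ℝ) - a.2 = r * (b.2 - a.2) := by exact_mod_cast z2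
      apply hf.prim z hz
      rw [mem_seg]
      rcases eq_or_ne k l with hkl | hkl
      · refine ⟨0, le_rfl, zero_le_one, ?_⟩
        have hrk : r = k := by rcases hr with hr | hr <;> omega
        unfold pt par
        ext
        · show (z.1 : ℝ) = _
          rw [hrk] at z1R
          linear_combination z1R - c1R
        · show (z.2 : ℝ) = _
          rw [hrk] at z2R
          linear_combination z2R - c2R
      · have hlk : ((l : ℝ) - k) ≠ 0 := by
          intro h0
          apply hkl
          have : (l : ℝ) = k := by linarith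
          exact_mod_cast this.symm
        refine ⟨((r : ℝ) - k) / (l - k), ?_, ?_, ?_⟩
        · rcases hr with hr | hr
          · have h3 : (k : ℝ) ≤ r := by exact_mod_cast hr.1
            have h4 : (r : ℝ) ≤ l := by exact_mod_cast hr.2
            exact div_nonneg (by linarith) (by linarith)
          · have h3 : (l : ℝ) ≤ r := by exact_mod_cast hr.1
            have h4 : (r : ℝ) ≤ k := by exact_mod_cast hr.2
            exact div_nonneg_of_nonpos (by linarith) (by linarith)
        · rcases hr with hr | hr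
          · have h3 : (k : ℝ) ≤ r := by exact_mod_cast hr.1
            have h4 : (r : ℝ) ≤ l := by exact_mod_cast hr.2
            have h5 : (0 : ℝ) < l - k := lt_of_le_of_ne (by linarith) (Ne.symm hlk)
            rw [div_le_one h5]
            linarith
          · have h3 : (l : ℝ) ≤ r := by exact_mod_cast hr.1
            have h4 : (r : ℝ) ≤ k := by exact_mod_cast hr.2
            have h5 : (l : ℝ) - k < 0 := lt_of_le_of_ne (by linarith) hlk
            rw [div_le_one_of_neg h5]
            linarith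
        · unfold pt par
          ext
          · show (z.1 : ℝ) = c.1 + ((r : ℝ) - k) / (l - k) * (d.1 - c.1)
            have e : (d.1 : ℝ) - c.1 = (l - k) * (b.1 - a.1) := by linear_combination d1R - c1R
            rw [e]
            field_simp
            linear_combination z1R - c1R
          · show (z.2 : ℝ) = c.2 + ((r : ℝ) - k) / (l - k) * (d.2 - c.2)
            have e : (d.2 : ℝ) - c.2 = (l - k) * (b.2 - a.2) := by linear_combination d2R - c2R
            rw [e]
            field_simp
            linear_combination z2R - c2R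
    have hmain : k ≤ 0 ∧ 1 ≤ l ∨ l ≤ 0 ∧ 1 ≤ k := by
      by_contra hcon
      push Not at hcon
      obtain ⟨h3, h4⟩ := hcon
      rcases le_or_gt k 0 with h5 | h5
      · have h6 : l ≤ 0 := by have := h3 h5; omega
        have h5' : (k : ℝ) ≤ 0 := by exact_mod_cast h5
        have h6' : (l : ℝ) ≤ 0 := by exact_mod_cast h6
        nlinarith
      · have h6 : 1 ≤ l := by
          by_contra h6
          push Not at h6
          have := h4 (by omega)
          omega
        have h5' : (1 : ℝ) ≤ k := by exact_mod_cast h5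
        have h6' : (1 : ℝ) ≤ l := by exact_mod_cast h6
        nlinarith
    have hac : a ∈ ({c, d} : Finset (ℤ × ℤ)) := inside 0 (by omega) a ga (by ring) (by ring)
    have hbc : b ∈ ({c, d} : Finset (ℤ × ℤ)) := inside 1 (by omega) b gb (by ring) (by ring)
    apply hne
    apply eq_of_subset_of_card_le
    · intro z hz
      rw [mem_insert, mem_singleton] at hz
      rcases hz with rfl | rfl
      · exact hac
      · exact hbc
    · rw [he.card, hf.card]
  have coll2 : ¬ (D c d a = 0 ∧ D c d b = 0) := by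
    rintro ⟨h1, h2⟩
    apply coll
    obtain ⟨w, hw⟩ := exists_basis hf
    unfold D at h1 h2
    set k : ℤ := (a.1 - c.1) * w.2 - (a.2 - c.2) * w.1 with hk
    set l : ℤ := (b.1 - c.1) * w.2 - (b.2 - c.2) * w.1 with hl
    have A1 : a.1 - c.1 = k * (d.1 - c.1) := by
      rw [hk]; linear_combination (-(a.1 - c.1)) * hw + w.1 * h1
    have A2 : a.2 - c.2 = k * (d.2 - c.2) := by
      rw [hk]; linear_combination (-(a.2 - c.2)) * hw + w.2 * h1
    have B1 : b.1 - c.1 = l * (d.1 - c.1) := by
      rw [hl]; linear_combination (-(b.1 - c.1)) * hw + w.1 * h2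
    have B2 : b.2 - c.2 = l * (d.2 - c.2) := by
      rw [hl]; linear_combination (-(b.2 - c.2)) * hw + w.2 * h2
    have h3 : D a b c = 0 := by
      unfold D
      linear_combination (-(b.1 - c.1)) * A2 - k * (d.2 - c.2) * B1 + (b.2 - c.2) * A1 + k * (d.1 - c.1) * B2
    refine ⟨h3, ?_⟩
    have h4 : D a b d = D a b c - ((d.1 - c.1) * (b.2 - c.2) - (d.2 - c.2) * (b.1 - c.1)) +
        ((d.1 - c.1) * (a.2 - c.2) - (d.2 - c.2) * (a.1 - c.1)) := by unfold D; ring
    rw [h4, h1, h2, h3]; ring
  rcases key _ _ s s0 s1 q1 with h1 | h1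
  · exact absurd h1 coll
  · rcases key _ _ t t0 t1 q2 with h2 | h2
    · exact absurd h2 coll2
    · exact ⟨h1, h2⟩

end Pool.Agent.LT
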