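import Mathlib

/-!
# Lattice triangulations of the square and the edge-flip chain: definitions
-/

set_option autoImplicit false

namespace Pool.Agent.LT

open Finset

/-- a lattice point as a point of the plane -/
def pt (p : ℤ × ℤ) : ℝ × ℝ := (p.1, p.2)

/-- the straight segment whose set of endpoints is `e` -/
def seg (e : Finset (ℤ × ℤ)) : Set (ℝ × ℝ) := convexHull ℝ (pt '' (e : Set (ℤ × ℤ)))

/-- the lattice points `{0, ..., n} ^ 2` -/
noncomputable def grid (n : ℕ) : Finset (ℤ × ℤ) := Icc (0, 0) ((n : ℤ), (n : ℤ))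

/-- `e` is the set of the two endpoints of a straight segment with both endpoints in the grid which
contains no point of the grid other than its endpoints -/
structure IsEdge (n : ℕ) (e : Finset (ℤ × ℤ)) : Prop where
  card : e.card = 2
  sub : e ⊆ grid n
  prim : ∀ p ∈ grid n, pt p ∈ seg e → p ∈ e

/-- the segments `e` and `f` do not cross except at a common endpoint -/
def NC (e f : Finset (ℤ × ℤ)) : Prop := ∀ x ∈ seg e, x ∈ seg f → ∃ p ∈ e, p ∈ f ∧ x = pt p

/-- lattice triangulations of `[0, n] ^ 2`: maximal collections of segments, no two of which cross -/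
structure IsTri (n : ℕ) (T : Finset (Finset (ℤ × ℤ))) : Prop where
  edge : ∀ e ∈ T, IsEdge n e
  nc : ∀ e ∈ T, ∀ f ∈ T, e ≠ f → NC e f
  max : ∀ e, IsEdge n e → (∀ f ∈ T, e ≠ f → NC e f) → e ∈ T

/-- the set of all lattice triangulations of `[0, n] ^ 2` -/
def Tri (n : ℕ) : Type := {T : Finset (Finset (ℤ × ℤ)) // IsTri n T}

noncomputable instance (n : ℕ) : DecidableEq (Tri n) := Classical.decEq _

lemma IsTri.sub {n : ℕ} {T : Finset (Finset (ℤ × ℤ))} (h : IsTri n T) : T ∈ (grid n).powerset.powerset := by
  rw [mem_powerset]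
  intro e he
  rw [mem_powerset]
  exact (h.edge e he).sub

noncomputable instance (n : ℕ) : Fintype (Tri n) :=
  Fintype.ofInjective (β := {T // T ∈ (grid n).powerset.powerset}) (fun T => ⟨T.1, T.2.sub⟩)
    fun T T' h => Subtype.ext (by simpa using h)

/-- `p q r` is a triangle of `T`: its three sides are edges of `T` and it has the area `1 / 2` -/
def IsFace (T : Finset (Finset (ℤ × ℤ))) (p q r : ℤ × ℤ) : Prop :=
  {p, q} ∈ T ∧ {p, r} ∈ T ∧ {q, r} ∈ T ∧ |(q.1 - p.1) * (r.2 - p.2) - (q.2 - p.2) * (r.1 - p.1)| = 1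

/-- `T'` is obtained from `T` by the flip of the edge `e`: `e = {p, q}` is a diagonal of the convex
quadrilateral `p r q s` formed by two triangles `p q r` and `p q s` of `T`, and it is replaced by the
other diagonal `{r, s}` -/
def FlipAt (T : Finset (Finset (ℤ × ℤ))) (e : Finset (ℤ × ℤ)) (T' : Finset (Finset (ℤ × ℤ))) : Prop :=
  ∃ p q r s : ℤ × ℤ, e = {p, q} ∧ IsFace T p q r ∧ IsFace T p q s ∧ ¬ NC {p, q} {r, s} ∧
    T' = insert {r, s} (T.erase e)

open Classical in
/-- one step of the chain, if the edge `e` has been chosen: flip `e` if this is possible, otherwise stay -/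
noncomputable def step {n : ℕ} (T : Tri n) (e : Finset (ℤ × ℤ)) : Tri n :=
  if h : ∃ T' : Tri n, FlipAt T.1 e T'.1 then h.choose else T

/-- the transition matrix of the edge-flip chain: the edge `e` is chosen uniformly at random in `T` -/
noncomputable def kernel (n : ℕ) : Matrix (Tri n) (Tri n) ℝ :=
  fun T T' => ((T.1.filter fun e => step T e = T').card : ℝ) / T.1.card

/-- the total variation distance of two probability distributions on a finite set -/
noncomputable def tv {α : Type*} [Fintype α] (μ ν : α → ℝ) : ℝ := (∑ x, |μ x - ν x|) / 2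

/-- after `t` steps the chain is at distance at most `1 / 4` from the uniform distribution, for every
starting point -/
def Mixed (n t : ℕ) : Prop :=
  ∀ T : Tri n, tv ((kernel n ^ t) T) (fun _ => 1 / (Fintype.card (Tri n) : ℝ)) ≤ 1 / 4

end Pool.Agent.LT
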