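import Pool.Agent.Helper21.LT.Zero

/-!
# The mixing time is at least `n ^ 4 / 32`
-/

set_option autoImplicit false

namespace Pool.Agent.LT

open Finset

section tv
variable {α : Type*} [Fintype α] [DecidableEq α]

lemma pow_sum {P : Matrix α α ℝ} (h1 : ∀ x, ∑ y, P x y = 1) (t : ℕ) (x : α) : ∑ y, (P ^ t) x y = 1 := by
  induction t generalizing x with
  | zero => simp [Matrix.one_apply]
  | succ t ih =>
    rw [pow_succ']
    have : ∀ y, (P * P ^ t) x y = ∑ z, P x z * (P ^ t) z y := fun y => Matrix.mul_apply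
    simp only [this]
    rw [sum_comm]
    have h2 : ∀ z, ∑ y, P x z * (P ^ t) z y = P x z := by
      intro z
      rw [← mul_sum, ih, mul_one]
    simp only [h2, h1]

lemma sub_le_tv {μ ν : α → ℝ} (h : ∑ x, μ x = ∑ x, ν x) (B : Finset α) : ∑ x ∈ B, ν x - ∑ x ∈ B, μ x ≤ tv μ ν := by
  have h1 : ∑ x ∈ B, (ν x - μ x) + ∑ x ∈ Bᶜ, (ν x - μ x) = 0 := by
    rw [sum_add_sum_compl, sum_sub_distrib, h, sub_self]
  have h2 : ∑ x ∈ B, (ν x - μ x) ≤ ∑ x ∈ B, |μ x - ν x| := sum_le_sum fun x _ => by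
    rw [abs_sub_comm]; exact le_abs_self _
  have h3 : -∑ x ∈ Bᶜ, (ν x - μ x) ≤ ∑ x ∈ Bᶜ, |μ x - ν x| := by
    rw [← sum_neg_distrib]
    exact sum_le_sum fun x _ => by rw [neg_sub]; exact le_abs_self _
  have h4 : ∑ x ∈ B, |μ x - ν x| + ∑ x ∈ Bᶜ, |μ x - ν x| = ∑ x, |μ x - ν x| := sum_add_sum_compl _ _
  unfold tv
  rw [← sum_sub_distrib]
  linarith

end tv

lemma exp_bound {n : ℕ} (hn : 1 ≤ n) {b : ℕ} (hb : b ≤ 2 ^ (3 * n ^ 2 + 2 * n)) :
    2 * Real.sqrt b * Real.exp (-(4 * (n : ℝ) ^ 2)) < 1 / 4 := by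
  have h1 : (b : ℝ) ≤ (2 : ℝ) ^ (3 * n ^ 2 + 2 * n) := by exact_mod_cast hb
  have h2 : (64 : ℝ) * 2 ^ (3 * n ^ 2 + 2 * n) < Real.exp 8 ^ (n ^ 2) := by
    have e1 : (64 : ℝ) * 2 ^ (3 * n ^ 2 + 2 * n) ≤ ((2 : ℝ) ^ 11) ^ (n ^ 2) := by
      rw [show (64 : ℝ) = 2 ^ 6 by norm_num, ← pow_add, ← pow_mul]
      apply pow_le_pow_right₀ (by norm_num)
      nlinarith
    have e2 : ((2 : ℝ) ^ 11) < Real.exp 8 := by
      have h3 : Real.exp 8 = Real.exp 1 ^ 8 := by rw [← Real.exp_nat_mul]; norm_num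
      rw [h3]
      have h4 := Real.exp_one_gt_d9
      calc (2 : ℝ) ^ 11 < (2.7182818283 : ℝ) ^ 8 := by norm_num
        _ ≤ Real.exp 1 ^ 8 := pow_le_pow_left₀ (by norm_num) h4.le 8
    have e3 : ((2 : ℝ) ^ 11) ^ (n ^ 2) < Real.exp 8 ^ (n ^ 2) :=
      pow_lt_pow_left₀ e2 (by norm_num) (by positivity)
    linarith
  have h3 : Real.exp 8 ^ (n ^ 2) = Real.exp (4 * (n : ℝ) ^ 2) ^ 2 := by
    rw [← Real.exp_nat_mul, ← Real.exp_nat_mul]
    congr 1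
    push_cast
    ring
  have h4 : Real.sqrt b < Real.exp (4 * (n : ℝ) ^ 2) / 8 := by
    rw [Real.sqrt_lt' (by positivity), div_pow]
    rw [h3] at h2
    linarith
  have h5 : Real.exp (4 * (n : ℝ) ^ 2) * Real.exp (-(4 * (n : ℝ) ^ 2)) = 1 := by rw [← Real.exp_add]; simp
  have h6 : Real.sqrt b * Real.exp (-(4 * (n : ℝ) ^ 2)) < 1 / 8 := by
    calc Real.sqrt b * Real.exp (-(4 * (n : ℝ) ^ 2)) < Real.exp (4 * (n : ℝ) ^ 2) / 8 * Real.exp (-(4 * (n : ℝ) ^ 2)) :=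
          mul_lt_mul_of_pos_right h4 (Real.exp_pos _)
      _ = Real.exp (4 * (n : ℝ) ^ 2) * Real.exp (-(4 * (n : ℝ) ^ 2)) / 8 := by ring
      _ = 1 / 8 := by rw [h5]
  linarith

theorem mixing_lower {n : ℕ} (hn : 1 ≤ n) {t : ℕ} (h : Mixed n t) : (n : ℝ) ^ 4 / 32 ≤ t := by
  classical
  by_contra ht
  push Not at ht
  set B : Finset (Tri n) := (univ : Finset (Tri n)).filter fun T => Phi T ≤ 0 with hB
  have hn0 : (0 : ℝ) < n := by exact_mod_cast hn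
  -- the bound for the probability
  have h1 := vc (P := kernel n) (kernel_symm n) kernel_nonneg (kernel_sum hn) (Φ := Phi) (R := 2) (D := (n : ℝ) ^ 3)
    (lam := 16 / n) (by norm_num) (fun x y => Phi_step) B (tz n) (by
      intro T hT
      rw [hB, mem_filter] at hT
      rw [Phi_tz]
      have : (n : ℝ) ^ 3 - Phi T ≤ |(n : ℝ) ^ 3 - Phi T| := le_abs_self _
      linarith [hT.2]) (by positivity) t
  have h2 : (16 / (n : ℝ)) ^ 2 * t / 2 - 16 / n * n ^ 3 / 2 ≤ -(4 * (n : ℝ) ^ 2) := by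
    have e1 : (16 / (n : ℝ)) ^ 2 * t / 2 ≤ (16 / (n : ℝ)) ^ 2 * (n ^ 4 / 32) / 2 := by
      have := mul_le_mul_of_nonneg_left ht.le (sq_nonneg (16 / (n : ℝ)))
      linarith
    have e2 : (16 / (n : ℝ)) ^ 2 * (n ^ 4 / 32) / 2 = 4 * (n : ℝ) ^ 2 := by field_simp; ring
    have e3 : 16 / (n : ℝ) * n ^ 3 / 2 = 8 * (n : ℝ) ^ 2 := by field_simp; ring
    linarith
  have hcard : B.card ≤ 2 ^ (3 * n ^ 2 + 2 * n) := by
    calc B.card ≤ (univ : Finset (Tri n)).card := card_filter_le _ _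
      _ = Fintype.card (Tri n) := card_univ
      _ ≤ 2 ^ (HH n).card := card_Tri_le
      _ = _ := by rw [card_HH]
  have h3 : ∑ y ∈ B, (kernel n ^ t) (tz n) y < 1 / 4 := by
    refine lt_of_le_of_lt h1 (lt_of_le_of_lt ?_ (exp_bound hn hcard))
    exact mul_le_mul_of_nonneg_left (Real.exp_le_exp.2 h2) (by positivity)
  -- the uniform distribution
  have hpos : 0 < Fintype.card (Tri n) := Fintype.card_pos_iff.2 ⟨tz n⟩
  have hposR : (0 : ℝ) < Fintype.card (Tri n) := by exact_mod_cast hpos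
  have h4 : ∑ y, (kernel n ^ t) (tz n) y = ∑ _y : Tri n, 1 / (Fintype.card (Tri n) : ℝ) := by
    rw [pow_sum (kernel_sum hn), sum_const, card_univ, nsmul_eq_mul, mul_one_div_cancel hposR.ne']
  have h5 := sub_le_tv h4 B
  have h6 : (1 : ℝ) / 2 ≤ ∑ _y ∈ B, 1 / (Fintype.card (Tri n) : ℝ) := by
    rw [sum_const, nsmul_eq_mul, mul_one_div, le_div_iff₀ hposR]
    have := half n
    have h7 : (Fintype.card (Tri n) : ℝ) ≤ 2 * B.card := by exact_mod_cast this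
    linarith
  have h7 := h (tz n)
  linarith

end Pool.Agent.LT
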