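import Pool.Agent.Helper21.LT.Mid2

/-!
# Two edges with the same midpoint are the diagonals of a unimodular parallelogram, or they exclude any
common edge at some other midpoint
-/

set_option autoImplicit false

namespace Pool.Agent.LT

open Finset

/-- the key inequality in coordinates -/
lemma core {g B α β : ℤ} (hg : 0 ≤ g) (hB : 2 * g + 1 < B) :
    Cross (0, 0) (-1, 0) (α, β) (-1 - α, -1 - β) ∨ Cross (g, B) (-g - 1, -B) (α, β) (-1 - α, -1 - β) := by
  have main : ∀ α β : ℤ, 0 ≤ β →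
      Cross (0, 0) (-1, 0) (α, β) (-1 - α, -1 - β) ∨ Cross (g, B) (-g - 1, -B) (α, β) (-1 - α, -1 - β) := by
    intro α β hβ
    by_cases h1 : -β - 1 < α ∧ α < β
    · left
      obtain ⟨h1, h2⟩ := h1
      refine ⟨?_, ?_⟩
      · have e1 : D (0, 0) (-1, 0) (α, β) = -β := by unfold D; ring
        have e2 : D (0, 0) (-1, 0) (-1 - α, -1 - β) = 1 + β := by unfold D; ring
        rw [e1, e2]
        nlinarith
      · have e1 : D (α, β) (-1 - α, -1 - β) (0, 0) = β - α := by unfold D; ring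
        have e2 : D (α, β) (-1 - α, -1 - β) (-1, 0) = -(1 + α + β) := by unfold D; ring
        rw [e1, e2]
        nlinarith
    · right
      set q : ℤ := B * (2 * α + 1) - (2 * g + 1) * β with hq
      have e1 : D (g, B) (-g - 1, -B) (α, β) = q := by unfold D; rw [hq]; ring
      have e2 : D (g, B) (-g - 1, -B) (-1 - α, -1 - β) = 2 * g + 1 - q := by unfold D; rw [hq]; ring
      have e3 : D (α, β) (-1 - α, -1 - β) (g, B) = -(q - g + α) := by unfold D; rw [hq]; ring
      have e4 : D (α, β) (-1 - α, -1 - β) (-g - 1, -B) = q - g - 1 - α := by unfold D; rw [hq]; ring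
      have h2 : β ≤ α ∨ α ≤ -β - 1 := by
        by_contra h3
        push Not at h3
        apply h1
        omega
      unfold Cross
      rw [e1, e2, e3, e4]
      rcases h2 with h2 | h2
      · have k1 : B + α ≤ q := by
          rw [hq]
          have : (2 * g + 1) * β ≤ (2 * g + 1) * α := mul_le_mul_of_nonneg_left h2 (by omega)
          have h3 : 0 ≤ α := by omega
          have h4 : (2 * g + 1) * α ≤ (B - 1) * α := mul_le_mul_of_nonneg_right (by omega) h3
          have h5 : 0 ≤ (B - 1) * α := mul_nonneg (by omega) h3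
          nlinarith
        have h3 : 0 ≤ α := by omega
        constructor
        · apply mul_neg_of_pos_of_neg <;> linarith
        · apply mul_neg_of_neg_of_pos <;> linarith
      · have h3 : α ≤ -1 := by omega
        have h4 : 0 ≤ (2 * g + 1) * β := mul_nonneg (by omega) hβ
        have h5 : B * α ≤ -B := by nlinarith
        have h6 : (B - 1) * α ≤ -(B - 1) := by nlinarith
        have k1 : q ≤ -B := by rw [hq]; nlinarith
        have k2 : q - α ≤ 1 - B := by rw [hq]; nlinarith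
        constructor
        · apply mul_neg_of_neg_of_pos <;> linarith
        · have k3 : 0 < -(q - g + α) := by linarith
          have k4 : q - g - 1 - α < 0 := by linarith
          exact mul_neg_of_pos_of_neg k3 k4
  rcases le_or_gt 0 β with hβ | hβ
  · exact main α β hβ
  · have h := main (-1 - α) (-1 - β) (by omega)
    rw [show (-1 : ℤ) - (-1 - α) = α by ring, show (-1 : ℤ) - (-1 - β) = β by ring] at h
    rcases h with h | h
    · exact Or.inl h.swapr
    · exact Or.inr h.swapr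

lemma D_af' (p v w : ℤ × ℤ) (a b c : ℤ × ℤ) :
    D (af p v w a) (af p v w b) (af p v w c) = (v.1 * w.2 - v.2 * w.1) * D a b c := by
  unfold D af
  ring

lemma cross_af' {p v w : ℤ × ℤ} (h : v.1 * w.2 - v.2 * w.1 ≠ 0) {a b c d : ℤ × ℤ} (hc : Cross a b c d) :
    Cross (af p v w a) (af p v w b) (af p v w c) (af p v w d) := by
  unfold Cross
  rw [D_af', D_af', D_af', D_af']
  set s := v.1 * w.2 - v.2 * w.1
  have hs : 0 < s * s := mul_self_pos.2 h
  constructor
  · have := hc.1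
    have h2 := mul_pos_iff_of_pos_left (b := -(D a b c * D a b d)) hs
    have : 0 < s * s * -(D a b c * D a b d) := h2.2 (by linarith)
    linarith
  · have := hc.2
    have h2 := mul_pos_iff_of_pos_left (b := -(D c d a * D c d b)) hs
    have : 0 < s * s * -(D c d a * D c d b) := h2.2 (by linarith)
    linarith

/-- the exclusion lemma: `a a'` and `b b'` have the same midpoint, `b - b' = δ (a - a') + 2 B k` with
`0 < δ < B` and `det (a - a', k) = ± 1`: every lattice segment with the midpoint shifted by `-k / 2` crosses one of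
them -/
lemma excl {a a' b b' k c d : ℤ × ℤ} {δ B : ℤ} (hδ : 0 < δ) (hB : δ < B)
    (hk : (a.1 - a'.1) * k.2 - (a.2 - a'.2) * k.1 = 1 ∨ (a.1 - a'.1) * k.2 - (a.2 - a'.2) * k.1 = -1)
    (h1 : a.1 + a'.1 = b.1 + b'.1) (h2 : a.2 + a'.2 = b.2 + b'.2)
    (h3 : b.1 - b'.1 = δ * (a.1 - a'.1) + 2 * B * k.1) (h4 : b.2 - b'.2 = δ * (a.2 - a'.2) + 2 * B * k.2)
    (h5 : c.1 + d.1 = a.1 + a'.1 - k.1) (h6 : c.2 + d.2 = a.2 + a'.2 - k.2) :
    Cross a a' c d ∨ Cross b b' c d := by
  set v : ℤ × ℤ := (a.1 - a'.1, a.2 - a'.2) with hv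
  -- δ is odd
  have hodd : δ % 2 = 1 := by
    by_contra hne
    have hev : δ % 2 = 0 := by omega
    obtain ⟨δ', hδ'⟩ : ∃ δ' : ℤ, δ = 2 * δ' := ⟨δ / 2, by omega⟩
    -- then `a - a'` is even
    have f1 : (a.1 - a'.1) = 2 * (b.1 - a'.1 - δ' * (a.1 - a'.1) - B * k.1) := by
      have : 2 * (a.1 - a'.1) = 2 * (2 * (b.1 - a'.1 - δ' * (a.1 - a'.1) - B * k.1)) := by
        rw [hδ'] at h3
        linarith
      linarith
    have f2 : (a.2 - a'.2) = 2 * (b.2 - a'.2 - δ' * (a.2 - a'.2) - B * k.2) := by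
      have : 2 * (a.2 - a'.2) = 2 * (2 * (b.2 - a'.2 - δ' * (a.2 - a'.2) - B * k.2)) := by
        rw [hδ'] at h4
        linarith
      linarith
    set X := b.1 - a'.1 - δ' * (a.1 - a'.1) - B * k.1
    set Y := b.2 - a'.2 - δ' * (a.2 - a'.2) - B * k.2
    rw [f1, f2] at hk
    have : 2 * X * k.2 - 2 * Y * k.1 = 2 * (X * k.2 - Y * k.1) := by ring
    rw [this] at hk
    omega
  obtain ⟨g, hg⟩ : ∃ g : ℤ, δ = 2 * g + 1 := ⟨δ / 2, by omega⟩
  have hg0 : 0 ≤ g := by omega
  -- coordinates of `c`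
  obtain ⟨α, β, hc1, hc2⟩ : ∃ α β : ℤ, c.1 = a.1 + α * v.1 + β * k.1 ∧ c.2 = a.2 + α * v.2 + β * k.2 := by
    rcases hk with hk | hk
    · refine ⟨(c.1 - a.1) * k.2 - (c.2 - a.2) * k.1, v.1 * (c.2 - a.2) - v.2 * (c.1 - a.1), ?_, ?_⟩
      · simp only [hv]; linear_combination (-(c.1 - a.1)) * hk
      · simp only [hv]; linear_combination (-(c.2 - a.2)) * hk
    · refine ⟨-((c.1 - a.1) * k.2 - (c.2 - a.2) * k.1), -(v.1 * (c.2 - a.2) - v.2 * (c.1 - a.1)), ?_, ?_⟩
      · simp only [hv]; linear_combination (c.1 - a.1) * hk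
      · simp only [hv]; linear_combination (c.2 - a.2) * hk
  have hdet : v.1 * k.2 - v.2 * k.1 ≠ 0 := by
    simp only [hv]
    rcases hk with hk | hk <;> rw [hk] <;> norm_num
  have eA : af a v k (0, 0) = a := by unfold af; ext <;> simp
  have eA' : af a v k (-1, 0) = a' := by
    unfold af
    refine Prod.ext ?_ ?_
    · simp only [hv]; ring
    · simp only [hv]; ring
  have eB : af a v k (g, B) = b := by
    unfold af
    refine Prod.ext ?_ ?_
    · simp only [hv]
      have : 2 * (a.1 + g * (a.1 - a'.1) + B * k.1) = 2 * b.1 := by rw [hg] at h3; linarith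
      linarith
    · simp only [hv]
      have : 2 * (a.2 + g * (a.2 - a'.2) + B * k.2) = 2 * b.2 := by rw [hg] at h4; linarith
      linarith
  have eB' : af a v k (-g - 1, -B) = b' := by
    unfold af
    refine Prod.ext ?_ ?_
    · simp only [hv]
      have : 2 * (a.1 + (-g - 1) * (a.1 - a'.1) + -B * k.1) = 2 * b'.1 := by rw [hg] at h3; linarith
      linarith
    · simp only [hv]
      have : 2 * (a.2 + (-g - 1) * (a.2 - a'.2) + -B * k.2) = 2 * b'.2 := by rw [hg] at h4; linarith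
      linarith
  have eC : af a v k (α, β) = c := by
    unfold af
    refine Prod.ext ?_ ?_
    · simp only; linarith
    · simp only; linarith
  have eD : af a v k (-1 - α, -1 - β) = d := by
    unfold af
    refine Prod.ext ?_ ?_
    · simp only [hv] at hc1 ⊢; linarith
    · simp only [hv] at hc2 ⊢; linarith
  rcases core (g := g) (B := B) (α := α) (β := β) hg0 (by omega) with h | h
  · left
    have := cross_af' (p := a) hdet h
    rwa [eA, eA', eC, eD] at this
  · right
    have := cross_af' (p := a) hdet h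
    rwa [eB, eB', eC, eD] at this

/-- central reflection -/
lemma cross_refl {m a b c d : ℤ × ℤ} (h : Cross (m.1 - a.1, m.2 - a.2) (m.1 - b.1, m.2 - b.2) (m.1 - c.1, m.2 - c.2)
    (m.1 - d.1, m.2 - d.2)) : Cross a b c d := by
  have e : ∀ a b c : ℤ × ℤ, D (m.1 - a.1, m.2 - a.2) (m.1 - b.1, m.2 - b.2) (m.1 - c.1, m.2 - c.2) = D a b c := by
    intro a b c; unfold D; ring
  unfold Cross at h ⊢
  rwa [e, e, e, e] at h

/-- the centered remainder -/
lemma exists_rem {P B : ℤ} (hB : 0 < B) : ∃ c : ℤ, -B ≤ P - 2 * B * c ∧ P - 2 * B * c < B := by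
  refine ⟨(P + B) / (2 * B), ?_, ?_⟩
  · have := Int.ediv_mul_le (P + B) (show 2 * B ≠ 0 by omega)
    linarith
  · have := Int.lt_ediv_add_one_mul_self (P + B) (show 0 < 2 * B by omega)
    linarith

/-- **Key lemma.**  Two primitive segments with the same midpoint which are different and are not the diagonals of a
unimodular parallelogram: there is a vector `k` such that every lattice segment with the midpoint shifted by `k / 2` or
by `- k / 2` crosses one of them. -/
theorem key {a a' b b' : ℤ × ℤ} (ha : ∃ w : ℤ × ℤ, (a'.1 - a.1) * w.2 - (a'.2 - a.2) * w.1 = 1)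
    (hb : ∃ w : ℤ × ℤ, (b'.1 - b.1) * w.2 - (b'.2 - b.2) * w.1 = 1)
    (h1 : a.1 + a'.1 = b.1 + b'.1) (h2 : a.2 + a'.2 = b.2 + b'.2)
    (hne : ({a, a'} : Finset (ℤ × ℤ)) ≠ {b, b'})
    (hdet : |(a'.1 - a.1) * (b'.2 - b.2) - (a'.2 - a.2) * (b'.1 - b.1)| ≠ 2) :
    ∃ k : ℤ × ℤ, k ≠ 0 ∧ ((a'.1 - a.1) * k.2 - (a'.2 - a.2) * k.1 = 1 ∨ (a'.1 - a.1) * k.2 - (a'.2 - a.2) * k.1 = -1) ∧
      (∃ δ B : ℤ, 0 < δ ∧ δ < B ∧ ∃ v u : ℤ × ℤ, (v = (a'.1 - a.1, a'.2 - a.2) ∨ v = (a.1 - a'.1, a.2 - a'.2)) ∧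
        (u = (b'.1 - b.1, b'.2 - b.2) ∨ u = (b.1 - b'.1, b.2 - b'.2)) ∧
        u.1 = δ * v.1 + 2 * B * k.1 ∧ u.2 = δ * v.2 + 2 * B * k.2) ∧
      ∀ c d : ℤ × ℤ, ((c.1 + d.1 = a.1 + a'.1 - k.1 ∧ c.2 + d.2 = a.2 + a'.2 - k.2) ∨
        (c.1 + d.1 = a.1 + a'.1 + k.1 ∧ c.2 + d.2 = a.2 + a'.2 + k.2)) → Cross a a' c d ∨ Cross b b' c d := by
  obtain ⟨w, hw⟩ := ha
  obtain ⟨w', hw'⟩ := hb
  -- the determinant of the directions is even
  set Q : ℤ := (a'.1 - a.1) * (b'.2 - b.2) - (a'.2 - a.2) * (b'.1 - b.1) with hQ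
  have hQ2 : Q = 2 * ((a'.1 - a.1) * (b'.2 - a.2) - (a'.2 - a.2) * (b'.1 - a.1)) := by
    rw [hQ]; linear_combination (a'.1 - a.1) * h2 - (a'.2 - a.2) * h1
  -- not zero
  have hQ0 : Q ≠ 0 := by
    intro h0
    set P : ℤ := (b'.1 - b.1) * w.2 - (b'.2 - b.2) * w.1 with hP
    have p1 : b'.1 - b.1 = P * (a'.1 - a.1) := by
      rw [hP]; rw [hQ] at h0; linear_combination (-(b'.1 - b.1)) * hw + w.1 * h0
    have p2 : b'.2 - b.2 = P * (a'.2 - a.2) := by
      rw [hP]; rw [hQ] at h0; linear_combination (-(b'.2 - b.2)) * hw + w.2 * h0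
    have hPu : P * ((a'.1 - a.1) * w'.2 - (a'.2 - a.2) * w'.1) = 1 := by
      rw [p1, p2] at hw'; linarith
    have hP1 : P = 1 ∨ P = -1 := Int.eq_one_or_neg_one_of_mul_eq_one hPu
    apply hne
    rcases hP1 with h | h
    · rw [h] at p1 p2
      have e1 : a = b := by ext <;> linarith
      have e2 : a' = b' := by ext <;> linarith
      rw [e1, e2]
    · rw [h] at p1 p2
      have e1 : a = b' := by ext <;> linarith
      have e2 : a' = b := by ext <;> linarith
      rw [e1, e2, pair_comm]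
  -- the main construction, for a positive determinant
  have main : ∀ b b' : ℤ × ℤ, (∃ w : ℤ × ℤ, (b'.1 - b.1) * w.2 - (b'.2 - b.2) * w.1 = 1) →
      a.1 + a'.1 = b.1 + b'.1 → a.2 + a'.2 = b.2 + b'.2 →
      ∀ B : ℤ, 2 ≤ B → (a'.1 - a.1) * (b'.2 - b.2) - (a'.2 - a.2) * (b'.1 - b.1) = 2 * B →
      ∃ k : ℤ × ℤ, k ≠ 0 ∧ ((a'.1 - a.1) * k.2 - (a'.2 - a.2) * k.1 = 1) ∧
      (∃ δ : ℤ, 0 < δ ∧ δ < B ∧ ∃ v : ℤ × ℤ, (v = (a'.1 - a.1, a'.2 - a.2) ∨ v = (a.1 - a'.1, a.2 - a'.2)) ∧
        b'.1 - b.1 = δ * v.1 + 2 * B * k.1 ∧ b'.2 - b.2 = δ * v.2 + 2 * B * k.2) ∧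
      ∀ c d : ℤ × ℤ, ((c.1 + d.1 = a.1 + a'.1 - k.1 ∧ c.2 + d.2 = a.2 + a'.2 - k.2) ∨
        (c.1 + d.1 = a.1 + a'.1 + k.1 ∧ c.2 + d.2 = a.2 + a'.2 + k.2)) → Cross a a' c d ∨ Cross b b' c d := by
    rintro b b' ⟨w', hw'⟩ h1 h2 B hB hdet
    set P : ℤ := (b'.1 - b.1) * w.2 - (b'.2 - b.2) * w.1 with hP
    have p1 : b'.1 - b.1 = P * (a'.1 - a.1) + 2 * B * w.1 := by
      rw [hP]; linear_combination (-(b'.1 - b.1)) * hw + w.1 * hdet
    have p2 : b'.2 - b.2 = P * (a'.2 - a.2) + 2 * B * w.2 := by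
      rw [hP]; linear_combination (-(b'.2 - b.2)) * hw + w.2 * hdet
    obtain ⟨e, he1, he2⟩ := exists_rem (P := P) (B := B) (by omega)
    set δ : ℤ := P - 2 * B * e with hδ
    set k : ℤ × ℤ := (w.1 + e * (a'.1 - a.1), w.2 + e * (a'.2 - a.2)) with hk
    have q1 : b'.1 - b.1 = δ * (a'.1 - a.1) + 2 * B * k.1 := by
      rw [hδ, hk]; simp only; linear_combination p1
    have q2 : b'.2 - b.2 = δ * (a'.2 - a.2) + 2 * B * k.2 := by
      rw [hδ, hk]; simp only; linear_combination p2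
    have hkd : (a'.1 - a.1) * k.2 - (a'.2 - a.2) * k.1 = 1 := by
      rw [hk]; simp only; linear_combination hw
    -- B does not divide δ
    have hdiv : ∀ x : ℤ, δ ≠ B * x := by
      intro x hx
      rw [hx] at q1 q2
      have : B * ((x * (a'.1 - a.1) + 2 * k.1) * w'.2 - (x * (a'.2 - a.2) + 2 * k.2) * w'.1) = 1 := by
        rw [q1, q2] at hw'; linarith
      have := Int.eq_one_or_neg_one_of_mul_eq_one this
      omega
    have hδ0 : δ ≠ 0 := by have := hdiv 0; simpa using this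
    have hδ1 : δ ≠ -B := by have := hdiv (-1); simpa using this
    have hk0 : k ≠ 0 := by
      intro h0
      rw [h0] at hkd
      simp at hkd
    refine ⟨k, hk0, hkd, ?_, ?_⟩
    · rcases lt_or_gt_of_ne hδ0 with h3 | h3
      · refine ⟨-δ, by omega, by omega, (a.1 - a'.1, a.2 - a'.2), Or.inr rfl, ?_, ?_⟩
        · simp only; linarith
        · simp only; linarith
      · exact ⟨δ, h3, by omega, (a'.1 - a.1, a'.2 - a.2), Or.inl rfl, q1, q2⟩
    · -- crossing
      have minus : ∀ c d : ℤ × ℤ, c.1 + d.1 = a.1 + a'.1 - k.1 → c.2 + d.2 = a.2 + a'.2 - k.2 →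
          Cross a a' c d ∨ Cross b b' c d := by
        intro c d h5 h6
        rcases lt_or_gt_of_ne hδ0 with h3 | h3
        · have := excl (a := a) (a' := a') (b := b') (b' := b) (k := k) (c := c) (d := d) (δ := -δ) (B := B) (by omega)
            (by omega) (Or.inr (by linarith)) (by linarith) (by linarith) (by linarith) (by linarith) h5 h6
          rcases this with h | h
          · exact Or.inl h
          · exact Or.inr h.swapl
        · have := excl (a := a') (a' := a) (b := b') (b' := b) (k := k) (c := c) (d := d) (δ := δ) (B := B) h3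
            (by omega) (Or.inl (by linarith)) (by linarith) (by linarith) (by linarith) (by linarith) (by linarith)
            (by linarith)
          rcases this with h | h
          · exact Or.inl h.swapl
          · exact Or.inr h.swapl
      rintro c d (⟨h5, h6⟩ | ⟨h5, h6⟩)
      · exact minus c d h5 h6
      · -- reflection
        set m : ℤ × ℤ := (a.1 + a'.1, a.2 + a'.2) with hm
        have r1 : ((m.1 - a.1, m.2 - a.2) : ℤ × ℤ) = a' := by
          refine Prod.ext ?_ ?_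
          · simp only [hm]; ring
          · simp only [hm]; ring
        have r2 : ((m.1 - a'.1, m.2 - a'.2) : ℤ × ℤ) = a := by
          refine Prod.ext ?_ ?_
          · simp only [hm]; ring
          · simp only [hm]; ring
        have r3 : ((m.1 - b.1, m.2 - b.2) : ℤ × ℤ) = b' := by
          refine Prod.ext ?_ ?_
          · simp only [hm]; linarith
          · simp only [hm]; linarith
        have r4 : ((m.1 - b'.1, m.2 - b'.2) : ℤ × ℤ) = b := by
          refine Prod.ext ?_ ?_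
          · simp only [hm]; linarith
          · simp only [hm]; linarith
        rcases minus (m.1 - c.1, m.2 - c.2) (m.1 - d.1, m.2 - d.2) (by simp only [hm]; linarith)
          (by simp only [hm]; linarith) with h | h
        · left
          refine cross_refl (m := m) ?_
          rw [r1, r2]
          exact h.swapl
        · right
          refine cross_refl (m := m) ?_
          rw [r3, r4]
          exact h.swapl
  rcases lt_or_gt_of_ne hQ0 with hneg | hpos
  · -- exchange b and b'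
    set B : ℤ := -((a'.1 - a.1) * (b'.2 - a.2) - (a'.2 - a.2) * (b'.1 - a.1)) with hB
    have hB2 : 2 ≤ B := by
      have h5 : |Q| = 2 * B := by rw [abs_of_neg hneg, hQ2, hB]; ring
      rw [h5] at hdet
      have : 0 < 2 * B := by rw [← h5]; exact abs_pos.2 hQ0
      omega
    obtain ⟨k, k0, k1, ⟨δ, d1, d2, v, hv, v1, v2⟩, k3⟩ := main b' b ⟨(-w'.1, -w'.2), by simp only; linarith⟩ (by linarith)
      (by linarith) B hB2 (by
        have : (a'.1 - a.1) * (b.2 - b'.2) - (a'.2 - a.2) * (b.1 - b'.1) = -Q := by rw [hQ]; ring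
        rw [this, hQ2, hB]; ring)
    refine ⟨k, k0, Or.inl k1, ⟨δ, B, d1, d2, v, (b.1 - b'.1, b.2 - b'.2), hv, Or.inr rfl, v1, v2⟩, ?_⟩
    intro c d hcd
    rcases k3 c d hcd with h | h
    · exact Or.inl h
    · exact Or.inr h.swapl
  · set B : ℤ := (a'.1 - a.1) * (b'.2 - a.2) - (a'.2 - a.2) * (b'.1 - a.1) with hB
    have hB2 : 2 ≤ B := by
      have h5 : |Q| = 2 * B := by rw [abs_of_pos hpos, hQ2]
      rw [h5] at hdet
      have : 0 < 2 * B := by rw [← h5]; exact abs_pos.2 hQ0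
      omega
    obtain ⟨k, k0, k1, ⟨δ, d1, d2, v, hv, v1, v2⟩, k3⟩ := main b b' ⟨w', hw'⟩ h1 h2 B hB2 (by rw [← hQ2])
    exact ⟨k, k0, Or.inl k1, ⟨δ, B, d1, d2, v, (b'.1 - b.1, b'.2 - b.2), hv, Or.inl rfl, v1, v2⟩, k3⟩

end Pool.Agent.LT
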