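import Pool.Agent.Helper21.LT.Mid2
import Pool.Agent.Helper21.LT.Key

/-!
# Flips: the two edges have the same midpoint and are the diagonals of a unimodular parallelogram
-/

set_option autoImplicit false

namespace Pool.Agent.LT

open Finset

/-- the sum of the endpoints: twice the midpoint -/
def sm (e : Finset (ℤ × ℤ)) : ℤ × ℤ := ∑ p ∈ e, p

lemma sm_pair {a b : ℤ × ℤ} (h : a ≠ b) : sm {a, b} = a + b := by
  unfold sm; rw [sum_pair h]

/-- the points `2 h`, `h` a point of the square which is a half lattice point and not a lattice point -/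
noncomputable def HH (n : ℕ) : Finset (ℤ × ℤ) :=
  (Icc ((0 : ℤ), (0 : ℤ)) (2 * (n : ℤ), 2 * (n : ℤ))).filter fun M => ¬ (M.1 % 2 = 0 ∧ M.2 % 2 = 0)

lemma mem_HH {n : ℕ} {M : ℤ × ℤ} :
    M ∈ HH n ↔ ((0 ≤ M.1 ∧ 0 ≤ M.2) ∧ (M.1 ≤ 2 * n ∧ M.2 ≤ 2 * n)) ∧ ¬ (M.1 % 2 = 0 ∧ M.2 % 2 = 0) := by
  unfold HH
  rw [mem_filter, mem_Icc, Prod.le_def, Prod.le_def]

lemma IsEdge.exists_pair {n : ℕ} {e : Finset (ℤ × ℤ)} (h : IsEdge n e) : ∃ a b : ℤ × ℤ, a ≠ b ∧ e = {a, b} := by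
  obtain ⟨a, b, hab, rfl⟩ := card_eq_two.1 h.card
  exact ⟨a, b, hab, rfl⟩

lemma IsEdge.sm_mem {n : ℕ} {e : Finset (ℤ × ℤ)} (h : IsEdge n e) : sm e ∈ HH n := by
  obtain ⟨a, b, hab, rfl⟩ := h.exists_pair
  rw [sm_pair hab, mem_HH]
  have ga := mem_grid.1 (h.sub (show a ∈ ({a, b} : Finset (ℤ × ℤ)) by simp))
  have gb := mem_grid.1 (h.sub (show b ∈ ({a, b} : Finset (ℤ × ℤ)) by simp))
  refine ⟨⟨⟨?_, ?_⟩, ?_, ?_⟩, ?_⟩
  · simp only [Prod.fst_add]; omega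
  · simp only [Prod.snd_add]; omega
  · simp only [Prod.fst_add]; omega
  · simp only [Prod.snd_add]; omega
  · obtain ⟨w, hw⟩ := exists_basis h
    rintro ⟨h1, h2⟩
    simp only [Prod.fst_add, Prod.snd_add] at h1 h2
    obtain ⟨x, hx⟩ : ∃ x : ℤ, b.1 - a.1 = 2 * x := ⟨(b.1 - a.1) / 2, by omega⟩
    obtain ⟨y, hy⟩ : ∃ y : ℤ, b.2 - a.2 = 2 * y := ⟨(b.2 - a.2) / 2, by omega⟩
    rw [hx, hy] at hw
    have : 2 * (x * w.2 - y * w.1) = 1 := by linarith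
    omega

section tri
variable {n : ℕ} {T T' : Finset (Finset (ℤ × ℤ))}

lemma IsTri.inj (hT : IsTri n T) {e f : Finset (ℤ × ℤ)} (he : e ∈ T) (hf : f ∈ T) (h : sm e = sm f) : e = f := by
  obtain ⟨a, b, hab, rfl⟩ := (hT.edge _ he).exists_pair
  obtain ⟨c, d, hcd, rfl⟩ := (hT.edge _ hf).exists_pair
  rw [sm_pair hab, sm_pair hcd] at h
  exact hT.mid_unique he hf (congrArg Prod.fst h) (congrArg Prod.snd h)

lemma IsTri.surj (hT : IsTri n T) {M : ℤ × ℤ} (hM : M ∈ HH n) : ∃ e ∈ T, sm e = M := by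
  rw [mem_HH] at hM
  obtain ⟨a, b, h1, h2, h3⟩ := hT.exists_mid hM.1.1 hM.1.2 hM.2
  refine ⟨_, h1, ?_⟩
  rw [sm_pair (hT.ne h1)]
  exact Prod.ext h2 h3

lemma IsTri.card (hT : IsTri n T) : T.card = (HH n).card := by
  refine card_bij (fun e _ => sm e) (fun e he => (hT.edge e he).sm_mem) (fun e he f hf h => hT.inj he hf h) ?_
  intro M hM
  obtain ⟨e, he, h⟩ := hT.surj hM
  exact ⟨e, he, h⟩

lemma bd {N B δ m k u v : ℤ} (hδ : 0 < δ) (hB : δ < B) (hm : 0 ≤ m ∧ m ≤ N) (hu : 0 ≤ m + u ∧ m + u ≤ N)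
    (hu' : 0 ≤ m - u ∧ m - u ≤ N) (hv : 0 ≤ m + v ∧ m + v ≤ N) (hv' : 0 ≤ m - v ∧ m - v ≤ N)
    (h : u = δ * v + 2 * B * k) : (0 ≤ m + k ∧ m + k ≤ N) ∧ (0 ≤ m - k ∧ m - k ≤ N) := by
  have hB0 : (0 : ℤ) < 2 * B := by omega
  have hc : 0 ≤ 2 * B - 1 - δ := by omega
  have e1 : 2 * B * (m + k) = (m + u) + δ * (m - v) + (2 * B - 1 - δ) * m := by rw [h]; ring
  have e2 : 2 * B * (m - k) = (m - u) + δ * (m + v) + (2 * B - 1 - δ) * m := by rw [h]; ring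
  have t1 : 0 ≤ δ * (m - v) := mul_nonneg hδ.le hv'.1
  have t2 : δ * (m - v) ≤ δ * N := mul_le_mul_of_nonneg_left hv'.2 hδ.le
  have t3 : 0 ≤ δ * (m + v) := mul_nonneg hδ.le hv.1
  have t4 : δ * (m + v) ≤ δ * N := mul_le_mul_of_nonneg_left hv.2 hδ.le
  have t5 : 0 ≤ (2 * B - 1 - δ) * m := mul_nonneg hc hm.1
  have t6 : (2 * B - 1 - δ) * m ≤ (2 * B - 1 - δ) * N := mul_le_mul_of_nonneg_left hm.2 hc
  have e3 : N + δ * N + (2 * B - 1 - δ) * N = 2 * B * N := by ring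
  refine ⟨⟨?_, ?_⟩, ?_, ?_⟩
  · refine nonneg_of_mul_nonneg_right (a := 2 * B) (by linarith [hu.1]) hB0
  · refine le_of_mul_le_mul_left (a := 2 * B) ?_ hB0
    linarith [hu.2]
  · refine nonneg_of_mul_nonneg_right (a := 2 * B) (by linarith [hu'.1]) hB0
  · refine le_of_mul_le_mul_left (a := 2 * B) ?_ hB0
    linarith [hu'.2]

/-- two triangulations with two different edges with the same midpoint which are not the diagonals of a unimodular
parallelogram have different edges at two opposite points -/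
theorem share (hT : IsTri n T) (hT' : IsTri n T') {a a' b b' : ℤ × ℤ} (h1 : {a, a'} ∈ T) (h2 : {b, b'} ∈ T')
    (h3 : a + a' = b + b') (hne : ({a, a'} : Finset (ℤ × ℤ)) ≠ {b, b'})
    (hdet : |(a'.1 - a.1) * (b'.2 - b.2) - (a'.2 - a.2) * (b'.1 - b.1)| ≠ 2) :
    ∃ k : ℤ × ℤ, k ≠ 0 ∧ a + a' + k ∈ HH n ∧ a + a' - k ∈ HH n ∧
      ∀ e ∈ T, e ∈ T' → sm e ≠ a + a' + k ∧ sm e ≠ a + a' - k := by
  have h31 : a.1 + a'.1 = b.1 + b'.1 := congrArg Prod.fst h3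
  have h32 : a.2 + a'.2 = b.2 + b'.2 := congrArg Prod.snd h3
  obtain ⟨k, hk0, hk, ⟨δ, B, hδ, hB, v, u, hv, hu, hu1, hu2⟩, hcr⟩ := key (exists_basis (hT.edge _ h1))
    (exists_basis (hT'.edge _ h2)) h31 h32 hne hdet
  have ga := mem_grid.1 ((hT.edge _ h1).sub (show a ∈ ({a, a'} : Finset (ℤ × ℤ)) by simp))
  have ga' := mem_grid.1 ((hT.edge _ h1).sub (show a' ∈ ({a, a'} : Finset (ℤ × ℤ)) by simp))
  have gb := mem_grid.1 ((hT'.edge _ h2).sub (show b ∈ ({b, b'} : Finset (ℤ × ℤ)) by simp))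
  have gb' := mem_grid.1 ((hT'.edge _ h2).sub (show b' ∈ ({b, b'} : Finset (ℤ × ℤ)) by simp))
  have c1 := bd (N := 2 * n) (m := a.1 + a'.1) (k := k.1) (u := u.1) (v := v.1) hδ hB (by omega)
    (by rcases hu with rfl | rfl <;> simp only <;> omega) (by rcases hu with rfl | rfl <;> simp only <;> omega)
    (by rcases hv with rfl | rfl <;> simp only <;> omega) (by rcases hv with rfl | rfl <;> simp only <;> omega) hu1
  have c2 := bd (N := 2 * n) (m := a.2 + a'.2) (k := k.2) (u := u.2) (v := v.2) hδ hB (by omega)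
    (by rcases hu with rfl | rfl <;> simp only <;> omega) (by rcases hu with rfl | rfl <;> simp only <;> omega)
    (by rcases hv with rfl | rfl <;> simp only <;> omega) (by rcases hv with rfl | rfl <;> simp only <;> omega) hu2
  have par : ∀ x y : ℤ, (a.1 + a'.1 + k.1 = 2 * x ∧ a.2 + a'.2 + k.2 = 2 * y) → False := by
    rintro x y ⟨hx, hy⟩
    have : (a'.1 - a.1) * k.2 - (a'.2 - a.2) * k.1 = 2 * ((a'.1 - a.1) * (y - a'.2) - (a'.2 - a.2) * (x - a'.1)) := by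
      linear_combination (a'.1 - a.1) * hy - (a'.2 - a.2) * hx
    omega
  refine ⟨k, hk0, ?_, ?_, ?_⟩
  · rw [mem_HH]
    refine ⟨⟨⟨c1.1.1, c2.1.1⟩, c1.1.2, c2.1.2⟩, ?_⟩
    rintro ⟨q1, q2⟩
    simp only [Prod.fst_add, Prod.snd_add] at q1 q2
    exact par ((a.1 + a'.1 + k.1) / 2) ((a.2 + a'.2 + k.2) / 2) (by omega)
  · rw [mem_HH]
    refine ⟨⟨⟨c1.2.1, c2.2.1⟩, c1.2.2, c2.2.2⟩, ?_⟩
    rintro ⟨q1, q2⟩
    simp only [Prod.fst_add, Prod.snd_add, Prod.fst_sub, Prod.snd_sub] at q1 q2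
    exact par ((a.1 + a'.1 + k.1) / 2) ((a.2 + a'.2 + k.2) / 2) (by omega)
  · intro e he he'
    obtain ⟨c, d, hcd, rfl⟩ := (hT.edge _ he).exists_pair
    rw [sm_pair hcd]
    constructor
    · intro h
      have e1 : c.1 + d.1 = a.1 + a'.1 + k.1 := congrArg Prod.fst h
      have e2 : c.2 + d.2 = a.2 + a'.2 + k.2 := congrArg Prod.snd h
      rcases hcr c d (Or.inr ⟨e1, e2⟩) with hc | hc
      · exact hT.fam.nc _ _ _ _ h1 he hc
      · exact hT'.fam.nc _ _ _ _ h2 he' hc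
    · intro h
      have e1 : c.1 + d.1 = a.1 + a'.1 - k.1 := congrArg Prod.fst h
      have e2 : c.2 + d.2 = a.2 + a'.2 - k.2 := congrArg Prod.snd h
      rcases hcr c d (Or.inl ⟨e1, e2⟩) with hc | hc
      · exact hT.fam.nc _ _ _ _ h1 he hc
      · exact hT'.fam.nc _ _ _ _ h2 he' hc

/-- a triangulation which differs from `T` in one edge -/
theorem flip_one (hT : IsTri n T) {e f : Finset (ℤ × ℤ)} (he : e ∈ T) (hef : e ≠ f)
    (hT' : IsTri n (insert f (T.erase e))) :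
    f ∉ T ∧ sm f = sm e ∧ ∀ a a' b b' : ℤ × ℤ, e = {a, a'} → f = {b, b'} →
      |(a'.1 - a.1) * (b'.2 - b.2) - (a'.2 - a.2) * (b'.1 - b.1)| = 2 := by
  have hf : f ∉ T := by
    intro hf
    have h1 : insert f (T.erase e) = T.erase e := insert_eq_of_mem (mem_erase.2 ⟨hef.symm, hf⟩)
    have h2 := hT'.card
    rw [h1, card_erase_of_mem he, hT.card] at h2
    have h3 : 0 < T.card := card_pos.2 ⟨e, he⟩
    rw [hT.card] at h3
    omega
  have hfT' : f ∈ insert f (T.erase e) := mem_insert_self _ _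
  have hsm : sm f = sm e := by
    obtain ⟨g, hg, hge⟩ := hT.surj (hT'.edge _ hfT').sm_mem
    by_cases h : g = e
    · rw [← hge, h]
    · have h1 : g ∈ insert f (T.erase e) := mem_insert_of_mem (mem_erase.2 ⟨h, hg⟩)
      have h2 := hT'.inj h1 hfT' hge
      rw [h2] at hg
      exact absurd hg hf
  refine ⟨hf, hsm, ?_⟩
  rintro a a' b b' rfl rfl
  by_contra hdet
  rw [sm_pair (hT.ne he), sm_pair (hT'.ne hfT')] at hsm
  obtain ⟨k, hk0, hk1, hk2, hk⟩ := share hT hT' he hfT' hsm.symm hef hdet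
  obtain ⟨g, hg, hgs⟩ := hT.surj hk1
  have hge : g ≠ {a, a'} := by
    rintro rfl
    rw [sm_pair (hT.ne he)] at hgs
    apply hk0
    have : a + a' + 0 = a + a' + k := by rw [add_zero]; exact hgs
    exact (add_left_cancel this).symm
  exact (hk g hg (mem_insert_of_mem (mem_erase.2 ⟨hge, hg⟩))).1 hgs

/-- there are no three vectors which are equal mod 2, not zero mod 2 and have the determinants `± 2` -/
lemma three {m a b c : ℤ × ℤ}
    (h12 : |(m.1 - 2 * a.1) * (m.2 - 2 * b.2) - (m.2 - 2 * a.2) * (m.1 - 2 * b.1)| = 2)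
    (h13 : |(m.1 - 2 * a.1) * (m.2 - 2 * c.2) - (m.2 - 2 * a.2) * (m.1 - 2 * c.1)| = 2)
    (h23 : |(m.1 - 2 * b.1) * (m.2 - 2 * c.2) - (m.2 - 2 * b.2) * (m.1 - 2 * c.1)| = 2) :
    m.1 % 2 = 0 ∧ m.2 % 2 = 0 := by
  set d12 := (m.1 - 2 * a.1) * (m.2 - 2 * b.2) - (m.2 - 2 * a.2) * (m.1 - 2 * b.1) with e12
  set d13 := (m.1 - 2 * a.1) * (m.2 - 2 * c.2) - (m.2 - 2 * a.2) * (m.1 - 2 * c.1) with e13
  set d23 := (m.1 - 2 * b.1) * (m.2 - 2 * c.2) - (m.2 - 2 * b.2) * (m.1 - 2 * c.1) with e23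
  have i1 : d12 * (m.1 - 2 * c.1) = - d23 * (m.1 - 2 * a.1) + d13 * (m.1 - 2 * b.1) := by
    rw [e12, e13, e23]; ring
  have i2 : d12 * (m.2 - 2 * c.2) = - d23 * (m.2 - 2 * a.2) + d13 * (m.2 - 2 * b.2) := by
    rw [e12, e13, e23]; ring
  clear_value d12 d13 d23
  rw [abs_eq (by norm_num)] at h12 h13 h23
  rcases h12 with rfl | rfl <;> rcases h13 with rfl | rfl <;> rcases h23 with rfl | rfl <;> omega

/-- three vectors, in terms of edges -/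
lemma three' {a a' b b' c c' : ℤ × ℤ} (h1 : a + a' = b + b') (h2 : a + a' = c + c')
    (h12 : |(a'.1 - a.1) * (b'.2 - b.2) - (a'.2 - a.2) * (b'.1 - b.1)| = 2)
    (h13 : |(a'.1 - a.1) * (c'.2 - c.2) - (a'.2 - a.2) * (c'.1 - c.1)| = 2)
    (h23 : |(b'.1 - b.1) * (c'.2 - c.2) - (b'.2 - b.2) * (c'.1 - c.1)| = 2) :
    (a + a').1 % 2 = 0 ∧ (a + a').2 % 2 = 0 := by
  have e1 : a.1 + a'.1 = b.1 + b'.1 := congrArg Prod.fst h1
  have e2 : a.2 + a'.2 = b.2 + b'.2 := congrArg Prod.snd h1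
  have e3 : a.1 + a'.1 = c.1 + c'.1 := congrArg Prod.fst h2
  have e4 : a.2 + a'.2 = c.2 + c'.2 := congrArg Prod.snd h2
  have f1 : a'.1 - a.1 = (a.1 + a'.1) - 2 * a.1 := by ring
  have f2 : a'.2 - a.2 = (a.2 + a'.2) - 2 * a.2 := by ring
  have f3 : b'.1 - b.1 = (a.1 + a'.1) - 2 * b.1 := by rw [e1]; ring
  have f4 : b'.2 - b.2 = (a.2 + a'.2) - 2 * b.2 := by rw [e2]; ring
  have f5 : c'.1 - c.1 = (a.1 + a'.1) - 2 * c.1 := by rw [e3]; ring
  have f6 : c'.2 - c.2 = (a.2 + a'.2) - 2 * c.2 := by rw [e4]; ring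
  rw [f1, f2, f3, f4] at h12
  rw [f1, f2, f5, f6] at h13
  rw [f3, f4, f5, f6] at h23
  exact three (m := a + a') h12 h13 h23

theorem flip_unique (hT : IsTri n T) {e f f' : Finset (ℤ × ℤ)} (he : e ∈ T) (hef : e ≠ f) (hef' : e ≠ f')
    (h1 : IsTri n (insert f (T.erase e))) (h2 : IsTri n (insert f' (T.erase e))) : f = f' := by
  by_contra hne
  obtain ⟨g1, g2, g3⟩ := flip_one hT he hef h1
  obtain ⟨g1', g2', g3'⟩ := flip_one hT he hef' h2
  have hfT1 : f ∈ insert f (T.erase e) := mem_insert_self _ _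
  have her : (insert f (T.erase e)).erase f = T.erase e := erase_insert (fun h => g1 (mem_of_mem_erase h))
  have h3 : IsTri n (insert f' ((insert f (T.erase e)).erase f)) := by rw [her]; exact h2
  obtain ⟨k1, k2, k3⟩ := flip_one h1 hfT1 hne h3
  obtain ⟨a, a', ha, rfl⟩ := (hT.edge _ he).exists_pair
  obtain ⟨b, b', hb, rfl⟩ := (h1.edge _ hfT1).exists_pair
  obtain ⟨c, c', hc, rfl⟩ := (h2.edge _ (mem_insert_self _ _)).exists_pair
  rw [sm_pair ha, sm_pair hb] at g2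
  rw [sm_pair ha, sm_pair hc] at g2'
  have h4 := three' g2.symm g2'.symm (g3 a a' b b' rfl rfl) (g3' a a' c c' rfl rfl) (k3 b b' c c' rfl rfl)
  have h5 := (hT.edge _ he).sm_mem
  rw [sm_pair ha, mem_HH] at h5
  exact h5.2 h4

lemma FlipAt.exists_insert (hT : IsTri n T) {e : Finset (ℤ × ℤ)} (h : FlipAt T e T') :
    ∃ f, e ∈ T ∧ e ≠ f ∧ T' = insert f (T.erase e) := by
  obtain ⟨p, q, r, s, rfl, ⟨h1, h2, h3, -⟩, ⟨-, h4, h5, -⟩, h6, rfl⟩ := h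
  refine ⟨_, h1, ?_, rfl⟩
  intro heq
  have : r ∈ ({p, q} : Finset (ℤ × ℤ)) := by rw [heq]; simp
  rw [mem_insert, mem_singleton] at this
  rcases this with rfl | rfl
  · exact hT.ne h2 rfl
  · exact hT.ne h3 rfl

theorem FlipAt.unique (hT : IsTri n T) {T'' : Finset (Finset (ℤ × ℤ))} (hT' : IsTri n T') (hT'' : IsTri n T'')
    {e : Finset (ℤ × ℤ)} (h : FlipAt T e T') (h' : FlipAt T e T'') : T' = T'' := by
  obtain ⟨f, he, hef, rfl⟩ := h.exists_insert hT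
  obtain ⟨f', -, hef', rfl⟩ := h'.exists_insert hT
  rw [flip_unique hT he hef hef' hT' hT'']

lemma NC.symm {e f : Finset (ℤ × ℤ)} (h : NC e f) : NC f e := by
  intro x hx hx'
  obtain ⟨p, hp, hp', h⟩ := h x hx' hx
  exact ⟨p, hp', hp, h⟩

/-- a flip can be undone -/
theorem FlipAt.symm (hT : IsTri n T) (hT' : IsTri n T') {e : Finset (ℤ × ℤ)} (h : FlipAt T e T') :
    ∃ f, FlipAt T' f T := by
  obtain ⟨f, he, hef, hT1⟩ := h.exists_insert hT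
  obtain ⟨p, q, r, s, rfl, ⟨h1, h2, h3, hD1⟩, ⟨-, h4, h5, hD2⟩, h6, h7⟩ := h
  have hpr := hT.ne h2
  have hqr := hT.ne h3
  have hps := hT.ne h4
  have hqs := hT.ne h5
  have hne : ({p, q} : Finset (ℤ × ℤ)) ≠ {r, s} := by
    intro heq
    have : r ∈ ({p, q} : Finset (ℤ × ℤ)) := by rw [heq]; simp
    rw [mem_insert, mem_singleton] at this
    rcases this with rfl | rfl
    · exact hpr rfl
    · exact hqr rfl
  obtain ⟨hf, hsm, -⟩ := flip_one hT h1 hne (h7 ▸ hT')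
  have hrs : {r, s} ∈ T' := by rw [h7]; exact mem_insert_self _ _
  rw [sm_pair (hT'.ne hrs), sm_pair (hT.ne h1)] at hsm
  have s1 : r.1 + s.1 = p.1 + q.1 := congrArg Prod.fst hsm
  have s2 : r.2 + s.2 = p.2 + q.2 := congrArg Prod.snd hsm
  have mem : ∀ x y : ℤ × ℤ, {x, y} ∈ T → (x ≠ p ∧ x ≠ q ∨ y ≠ p ∧ y ≠ q) → {x, y} ∈ T' := by
    intro x y hxy h8
    rw [h7]
    refine mem_insert_of_mem (mem_erase.2 ⟨?_, hxy⟩)
    intro heq
    have h9 : x ∈ ({p, q} : Finset (ℤ × ℤ)) := by rw [← heq]; simp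
    have h10 : y ∈ ({p, q} : Finset (ℤ × ℤ)) := by rw [← heq]; simp
    rw [mem_insert, mem_singleton] at h9 h10
    tauto
  refine ⟨{r, s}, r, s, p, q, rfl, ⟨hrs, ?_, ?_, ?_⟩, ⟨hrs, ?_, ?_, ?_⟩, fun h => h6 h.symm, ?_⟩
  · rw [pair_comm]; exact mem _ _ h2 (Or.inr ⟨hpr.symm, hqr.symm⟩)
  · rw [pair_comm]; exact mem _ _ h4 (Or.inr ⟨hps.symm, hqs.symm⟩)
  · rw [← hD1, ← abs_neg]
    congr 1
    linear_combination (-(p.2 - r.2)) * s1 + (p.1 - r.1) * s2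
  · rw [pair_comm]; exact mem _ _ h3 (Or.inr ⟨hpr.symm, hqr.symm⟩)
  · rw [pair_comm]; exact mem _ _ h5 (Or.inr ⟨hps.symm, hqs.symm⟩)
  · rw [← hD1]
    congr 1
    linear_combination (q.2 - r.2) * s1 - (q.1 - r.1) * s2
  · rw [h7, erase_insert (fun h => hf (mem_of_mem_erase h)), insert_erase h1]

end tri

end Pool.Agent.LT
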