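import Pool.Agent.Helper21.LT.Strip

/-!
# Every half lattice point of the square is the midpoint of exactly one edge of a lattice triangulation
-/

set_option autoImplicit false

namespace Pool.Agent.LT

open Finset

/-- the affine coordinate map -/
def af (p v w z : ℤ × ℤ) : ℤ × ℤ := (p.1 + z.1 * v.1 + z.2 * w.1, p.2 + z.1 * v.2 + z.2 * w.2)

section aff
variable {p v w : ℤ × ℤ} (h : v.1 * w.2 - v.2 * w.1 = 1)
include h

lemma D_af (a b c : ℤ × ℤ) : D (af p v w a) (af p v w b) (af p v w c) = D a b c := by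
  unfold D af
  linear_combination ((b.1 - a.1) * (c.2 - a.2) - (b.2 - a.2) * (c.1 - a.1)) * h

lemma cross_af {a b c d : ℤ × ℤ} : Cross (af p v w a) (af p v w b) (af p v w c) (af p v w d) ↔ Cross a b c d := by
  unfold Cross
  rw [D_af h, D_af h, D_af h, D_af h]

lemma af_surj (z : ℤ × ℤ) : ∃ y : ℤ × ℤ, af p v w y = z ∧
    y.1 = (z.1 - p.1) * w.2 - (z.2 - p.2) * w.1 ∧ y.2 = v.1 * (z.2 - p.2) - v.2 * (z.1 - p.1) := by
  refine ⟨((z.1 - p.1) * w.2 - (z.2 - p.2) * w.1, v.1 * (z.2 - p.2) - v.2 * (z.1 - p.1)), ?_, rfl, rfl⟩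
  unfold af
  refine Prod.ext ?_ ?_
  · simp only
    linear_combination (z.1 - p.1) * h
  · simp only
    linear_combination (z.2 - p.2) * h

lemma af_inj {a b : ℤ × ℤ} (hab : af p v w a = af p v w b) : a = b := by
  have h1 : p.1 + a.1 * v.1 + a.2 * w.1 = p.1 + b.1 * v.1 + b.2 * w.1 := congrArg Prod.fst hab
  have h2 : p.2 + a.1 * v.2 + a.2 * w.2 = p.2 + b.1 * v.2 + b.2 * w.2 := congrArg Prod.snd hab
  ext
  · linear_combination w.2 * h1 - w.1 * h2 - (a.1 - b.1) * h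
  · linear_combination v.1 * h2 - v.2 * h1 - (a.2 - b.2) * h

lemma Fam.af {L : Set (ℤ × ℤ)} {E : ℤ × ℤ → ℤ × ℤ → Prop} (hF : Fam L E) :
    Fam {z | af p v w z ∈ L} fun a b => E (af p v w a) (af p v w b) where
  symm := fun a b hab => hF.symm _ _ hab
  mem := fun a b hab => hF.mem _ _ hab
  nc := fun a b c d h1 h2 h3 => hF.nc _ _ _ _ h1 h2 ((cross_af h).2 h3)
  max := by
    rintro a b ha hb ⟨x, hx⟩ hc
    refine hF.max _ _ ha hb ⟨(x.1 * v.1 + x.2 * w.1, x.1 * v.2 + x.2 * w.2), ?_⟩ ?_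
    · unfold LT.af
      linear_combination ((b.1 - a.1) * x.2 - (b.2 - a.2) * x.1) * h + hx
    · intro c d hcd hcr
      obtain ⟨c', rfl, -⟩ := af_surj (p := p) h c
      obtain ⟨d', rfl, -⟩ := af_surj (p := p) h d
      exact hc c' d' hcd ((cross_af h).1 hcr)
  fin := by
    refine Set.Finite.preimage (f := fun x : (ℤ × ℤ) × (ℤ × ℤ) => (LT.af p v w x.1, LT.af p v w x.2)) ?_ hF.fin
    intro x _ y _ hxy
    have h1 := congrArg Prod.fst hxy
    have h2 := congrArg Prod.snd hxy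
    exact Prod.ext (af_inj h h1) (af_inj h h2)
  conv := by
    intro a b c r ha hb hc m α β γ hm hα hβ hγ hs h1 h2
    refine hF.conv _ _ _ _ ha hb hc m α β γ hm hα hβ hγ hs ?_ ?_
    · unfold LT.af
      linear_combination v.1 * h1 + w.1 * h2 - p.1 * hs
    · unfold LT.af
      linear_combination v.2 * h1 + w.2 * h2 - p.2 * hs

end aff

/-- the strip lemma for a general edge -/
theorem Fam.strip {L : Set (ℤ × ℤ)} {E : ℤ × ℤ → ℤ × ℤ → Prop} (hF : Fam L E) {p q : ℤ × ℤ} (he : E p q)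
    (hw : ∃ w : ℤ × ℤ, (q.1 - p.1) * w.2 - (q.2 - p.2) * w.1 = 1) {z : ℤ × ℤ} (hz : z ∈ L) (hz' : 0 < D p q z) :
    ∃ r : ℤ × ℤ, D p q r = 1 ∧ E p r ∧ E q r := by
  obtain ⟨w, hw⟩ := hw
  set v : ℤ × ℤ := (q.1 - p.1, q.2 - p.2) with hv
  have h : v.1 * w.2 - v.2 * w.1 = 1 := hw
  have e0 : LT.af p v w (0, 0) = p := by unfold LT.af; ext <;> simp
  have e1 : LT.af p v w (1, 0) = q := by unfold LT.af; ext <;> simp [hv]
  obtain ⟨z', hz1, -, hz2⟩ := af_surj (p := p) h z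
  obtain ⟨j, hj1, hj2⟩ := LT.strip (hF.af (p := p) h) (by simpa only [e0, e1] using he) z' (by
    show LT.af p v w z' ∈ L
    rw [hz1]; exact hz) (by rw [hz2]; exact hz')
  refine ⟨LT.af p v w (j, 1), ?_, ?_, ?_⟩
  · have := D_af (p := p) h (0, 0) (1, 0) (j, 1)
    rw [e0, e1] at this
    rw [this]
    unfold D
    ring
  · rw [e0] at hj1; exact hj1
  · rw [e1] at hj2; exact hj2

section tri
variable {n : ℕ} {T : Finset (Finset (ℤ × ℤ))} (hT : IsTri n T)

lemma isEdge_of_basis {a b : ℤ × ℤ} (ha : a ∈ grid n) (hb : b ∈ grid n)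
    (hw : ∃ w : ℤ × ℤ, (b.1 - a.1) * w.2 - (b.2 - a.2) * w.1 = 1) : IsEdge n {a, b} := by
  obtain ⟨w, hw⟩ := hw
  refine ⟨?_, ?_, ?_⟩
  · apply card_pair
    rintro rfl
    simp at hw
  · intro z hz
    rw [mem_insert, mem_singleton] at hz
    rcases hz with rfl | rfl <;> assumption
  · intro p hp hps
    obtain ⟨t, t0, t1, ht⟩ := mem_seg.1 hps
    have h1 : (p.1 : ℝ) = a.1 + t * (b.1 - a.1) := congrArg Prod.fst ht
    have h2 : (p.2 : ℝ) = a.2 + t * (b.2 - a.2) := congrArg Prod.snd ht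
    have hwR : ((b.1 : ℝ) - a.1) * w.2 - (b.2 - a.2) * w.1 = 1 := by exact_mod_cast hw
    set k : ℤ := (p.1 - a.1) * w.2 - (p.2 - a.2) * w.1 with hk
    have hkt : (k : ℝ) = t := by
      rw [hk]
      push_cast
      linear_combination w.2 * h1 - w.1 * h2 + t * hwR
    have k0 : 0 ≤ k := by
      have : (0 : ℝ) ≤ k := by rw [hkt]; exact t0
      exact_mod_cast this
    have k1 : k ≤ 1 := by
      have : (k : ℝ) ≤ 1 := by rw [hkt]; exact t1
      exact_mod_cast this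
    rw [mem_insert, mem_singleton]
    have hk01 : k = 0 ∨ k = 1 := by omega
    rcases hk01 with hk' | hk'
    · left
      rw [hk', Int.cast_zero] at hkt
      rw [← hkt, zero_mul, add_zero] at h1 h2
      ext
      · exact_mod_cast h1
      · exact_mod_cast h2
    · right
      rw [hk', Int.cast_one] at hkt
      rw [← hkt, one_mul] at h1 h2
      have h1' : (p.1 : ℝ) = b.1 := by linarith
      have h2' : (p.2 : ℝ) = b.2 := by linarith
      ext
      · exact_mod_cast h1'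
      · exact_mod_cast h2'

include hT

lemma IsTri.ne {a b : ℤ × ℤ} (h : {a, b} ∈ T) : a ≠ b := by
  rintro rfl
  have := (hT.edge _ h).card
  simp at this

theorem IsTri.fam : Fam {z | z ∈ grid n} fun a b => {a, b} ∈ T where
  symm := fun a b h => by rw [pair_comm]; exact h
  mem := fun a b h => (hT.edge _ h).sub (by simp)
  nc := by
    intro a b c d h1 h2 hc
    by_cases h3 : ({a, b} : Finset (ℤ × ℤ)) = {c, d}
    · have : c ∈ ({a, b} : Finset (ℤ × ℤ)) := by rw [h3]; simp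
      rw [mem_insert, mem_singleton] at this
      have h4 := D_eq_zero_of_mem this
      have h5 := hc.1
      rw [h4] at h5
      simp at h5
    · exact hc.not_NC (hT.nc _ h1 _ h2 h3)
  max := by
    intro a b ha hb hw hc
    have he : IsEdge n {a, b} := isEdge_of_basis ha hb hw
    refine hT.max _ he fun f hf hne => ?_
    by_contra hcon
    obtain ⟨c, d, -, rfl⟩ := card_eq_two.1 (hT.edge f hf).card
    exact hc c d hf (cross_of_not_NC he (hT.edge _ hf) hne hcon)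
  fin := by
    refine Set.Finite.subset ((grid n ×ˢ grid n).finite_toSet) ?_
    rintro ⟨a, b⟩ h
    rw [mem_coe, mem_product]
    exact ⟨(hT.edge _ h).sub (by simp), (hT.edge _ h).sub (by simp)⟩
  conv := by
    intro a b c r ha hb hc m α β γ hm hα hβ hγ hs h1 h2
    replace ha : a ∈ grid n := ha
    replace hb : b ∈ grid n := hb
    replace hc : c ∈ grid n := hc
    show r ∈ grid n
    rw [mem_grid] at ha hb hc ⊢
    obtain ⟨⟨a1, a2⟩, a3, a4⟩ := ha
    obtain ⟨⟨b1, b2⟩, b3, b4⟩ := hb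
    obtain ⟨⟨c1, c2⟩, c3, c4⟩ := hc
    have up : ∀ x y z r : ℤ, x ≤ n → y ≤ n → z ≤ n → m * r = α * x + β * y + γ * z → r ≤ n := by
      intro x y z r hx hy hz hr
      have e1 : α * x ≤ α * n := mul_le_mul_of_nonneg_left hx hα
      have e2 : β * y ≤ β * n := mul_le_mul_of_nonneg_left hy hβ
      have e3 : γ * z ≤ γ * n := mul_le_mul_of_nonneg_left hz hγ
      have e5 : m * (n : ℤ) = α * n + β * n + γ * n := by rw [← hs]; ring
      have e4 : m * r ≤ m * n := by linarith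
      exact le_of_mul_le_mul_left e4 hm
    have dn : ∀ x y z r : ℤ, 0 ≤ x → 0 ≤ y → 0 ≤ z → m * r = α * x + β * y + γ * z → 0 ≤ r := by
      intro x y z r hx hy hz hr
      have e1 : 0 ≤ α * x := mul_nonneg hα hx
      have e2 : 0 ≤ β * y := mul_nonneg hβ hy
      have e3 : 0 ≤ γ * z := mul_nonneg hγ hz
      have e4 : m * 0 ≤ m * r := by linarith
      exact le_of_mul_le_mul_left e4 hm
    exact ⟨⟨dn _ _ _ _ a1 b1 c1 h1, dn _ _ _ _ a2 b2 c2 h2⟩, up _ _ _ _ a3 b3 c3 h1, up _ _ _ _ a4 b4 c4 h2⟩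

/-- two edges with the same midpoint are equal -/
theorem IsTri.mid_unique {a b c d : ℤ × ℤ} (h1 : {a, b} ∈ T) (h2 : {c, d} ∈ T) (hx : a.1 + b.1 = c.1 + d.1)
    (hy : a.2 + b.2 = c.2 + d.2) : ({a, b} : Finset (ℤ × ℤ)) = {c, d} := by
  by_contra hne
  have m1 : par a b (1 / 2) ∈ seg {a, b} := mem_seg.2 ⟨1 / 2, by norm_num, by norm_num, rfl⟩
  have hxR : (a.1 : ℝ) + b.1 = c.1 + d.1 := by exact_mod_cast hx
  have hyR : (a.2 : ℝ) + b.2 = c.2 + d.2 := by exact_mod_cast hy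
  have m2 : par a b (1 / 2) ∈ seg {c, d} := mem_seg.2 ⟨1 / 2, by norm_num, by norm_num, by
    unfold par
    ext
    · show (a.1 : ℝ) + _ = c.1 + _
      linarith
    · show (a.2 : ℝ) + _ = c.2 + _
      linarith⟩
  obtain ⟨p, hp1, -, hp⟩ := hT.nc _ h1 _ h2 hne _ m1 m2
  have p1 : (a.1 : ℝ) + 1 / 2 * (b.1 - a.1) = p.1 := congrArg Prod.fst hp
  have p2 : (a.2 : ℝ) + 1 / 2 * (b.2 - a.2) = p.2 := congrArg Prod.snd hp
  have q1 : (a.1 : ℝ) + b.1 = 2 * p.1 := by linarith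
  have q2 : (a.2 : ℝ) + b.2 = 2 * p.2 := by linarith
  have r1 : a.1 + b.1 = 2 * p.1 := by exact_mod_cast q1
  have r2 : a.2 + b.2 = 2 * p.2 := by exact_mod_cast q2
  apply hT.ne h1
  rw [mem_insert, mem_singleton] at hp1
  rcases hp1 with rfl | rfl
  · ext <;> omega
  · ext <;> omega

end tri

end Pool.Agent.LT
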