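import Pool.Agent.Helper21.LT.Mid

/-!
# Existence of the edge with a given midpoint
-/

set_option autoImplicit false

namespace Pool.Agent.LT

open Finset

/-- `D` for a point of the plane -/
noncomputable def DR (a b : ℤ × ℤ) (x : ℝ × ℝ) : ℝ := (b.1 - a.1) * (x.2 - a.2) - (b.2 - a.2) * (x.1 - a.1)

/-- the point on the way from `x` to `y` -/
def mv (x y : ℝ × ℝ) (u : ℝ) : ℝ × ℝ := (x.1 + u * (y.1 - x.1), x.2 + u * (y.2 - x.2))

lemma DR_mv (a b : ℤ × ℤ) (x y : ℝ × ℝ) (u : ℝ) : DR a b (mv x y u) = (1 - u) * DR a b x + u * DR a b y := by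
  unfold DR mv; ring

lemma DR_sum {a b r : ℤ × ℤ} (h : D a b r = 1) (x : ℝ × ℝ) : DR b r x + DR r a x + DR a b x = 1 := by
  have h' : ((b.1 : ℝ) - a.1) * (r.2 - a.2) - (b.2 - a.2) * (r.1 - a.1) = 1 := by
    unfold D at h; exact_mod_cast h
  unfold DR
  linear_combination h'

lemma bary {a b r : ℤ × ℤ} (h : D a b r = 1) (x : ℝ × ℝ) :
    x.1 = DR b r x * a.1 + DR r a x * b.1 + DR a b x * r.1 ∧ x.2 = DR b r x * a.2 + DR r a x * b.2 + DR a b x * r.2 := by
  have h' : ((b.1 : ℝ) - a.1) * (r.2 - a.2) - (b.2 - a.2) * (r.1 - a.1) = 1 := by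
    unfold D at h; exact_mod_cast h
  unfold DR
  constructor
  · linear_combination (-x.1) * h'
  · linear_combination (-x.2) * h'

lemma exists_zero {p1 p2 q1 q2 : ℝ} (hp1 : 0 < p1) (hp2 : 0 < p2) (hq : q1 < 0 ∨ q2 < 0) :
    ∃ u : ℝ, 0 < u ∧ u < 1 ∧ (((1 - u) * p1 + u * q1 = 0 ∧ 0 ≤ (1 - u) * p2 + u * q2) ∨
      ((1 - u) * p2 + u * q2 = 0 ∧ 0 ≤ (1 - u) * p1 + u * q1)) := by
  have one : ∀ p q : ℝ, 0 < p → q < 0 → 0 < p / (p - q) ∧ p / (p - q) < 1 ∧ (1 - p / (p - q)) * p + p / (p - q) * q = 0 := by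
    intro p q hp hq
    have h : 0 < p - q := by linarith
    refine ⟨div_pos hp h, by rw [div_lt_one h]; linarith, ?_⟩
    field_simp
    ring
  have two : ∀ p1 p2 q1 q2 : ℝ, 0 < p1 → 0 < p2 → q1 < 0 →
      ∃ u : ℝ, 0 < u ∧ u < 1 ∧ (((1 - u) * p1 + u * q1 = 0 ∧ 0 ≤ (1 - u) * p2 + u * q2) ∨
      ((1 - u) * p2 + u * q2 = 0 ∧ 0 ≤ (1 - u) * p1 + u * q1)) := by
    intro p1 p2 q1 q2 hp1 hp2 hq1
    obtain ⟨a1, a2, a3⟩ := one p1 q1 hp1 hq1
    rcases le_or_gt 0 ((1 - p1 / (p1 - q1)) * p2 + p1 / (p1 - q1) * q2) with h | h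
    · exact ⟨_, a1, a2, Or.inl ⟨a3, h⟩⟩
    · have hq2 : q2 < 0 := by nlinarith
      obtain ⟨b1, b2, b3⟩ := one p2 q2 hp2 hq2
      refine ⟨_, b1, b2, Or.inr ⟨b3, ?_⟩⟩
      set u := p1 / (p1 - q1)
      set u' := p2 / (p2 - q2)
      have huu : u' < u := by
        by_contra hcon
        push Not at hcon
        nlinarith
      nlinarith
  rcases hq with hq | hq
  · exact two p1 p2 q1 q2 hp1 hp2 hq
  · obtain ⟨u, u0, u1, h | h⟩ := two p2 p1 q2 q1 hp2 hp1 hq
    · exact ⟨u, u0, u1, Or.inr h⟩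
    · exact ⟨u, u0, u1, Or.inl h⟩

section tri
variable {n : ℕ} {T : Finset (Finset (ℤ × ℤ))} (hT : IsTri n T)
include hT

lemma IsTri.bottom {i : ℤ} (h0 : 0 ≤ i) (h1 : i < n) : {(i, 0), (i + 1, 0)} ∈ T := by
  refine hT.fam.max _ _ ?_ ?_ ⟨(0, 1), by ring⟩ ?_
  · show ((i, 0) : ℤ × ℤ) ∈ grid n
    rw [mem_grid]; simp only; omega
  · show ((i + 1, 0) : ℤ × ℤ) ∈ grid n
    rw [mem_grid]; simp only; omega
  · intro c d hcd hcr
    have hc : c ∈ grid n := (hT.edge _ hcd).sub (by simp)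
    have hd : d ∈ grid n := (hT.edge _ hcd).sub (by simp)
    rw [mem_grid] at hc hd
    have h2 := hcr.1
    have e1 : D (i, 0) (i + 1, 0) c = c.2 := by unfold D; ring
    have e2 : D (i, 0) (i + 1, 0) d = d.2 := by unfold D; ring
    rw [e1, e2] at h2
    have := mul_nonneg hc.1.2 hd.1.2
    linarith

/-- from an inner point of an edge in the direction of the half lattice point `M / 2`: there is another point of the
edges on the way -/
lemma IsTri.next {a b : ℤ × ℤ} (hab : {a, b} ∈ T) {M : ℤ × ℤ} (h0 : 0 ≤ M.1 ∧ 0 ≤ M.2) (h1 : M.1 ≤ 2 * n ∧ M.2 ≤ 2 * n)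
    (hodd : ¬ (M.1 % 2 = 0 ∧ M.2 % 2 = 0)) {t : ℝ} (t0 : 0 < t) (t1 : t < 1)
    (hpos : 0 < DR a b ((M.1 : ℝ) / 2, (M.2 : ℝ) / 2)) :
    ∃ u : ℝ, 0 < u ∧ u ≤ 1 ∧ ∃ e ∈ T, mv (par a b t) ((M.1 : ℝ) / 2, (M.2 : ℝ) / 2) u ∈ seg e := by
  set h : ℝ × ℝ := ((M.1 : ℝ) / 2, (M.2 : ℝ) / 2) with hh
  -- a corner on the same side
  have hcorner : ∃ z : ℤ × ℤ, z ∈ grid n ∧ 0 < D a b z := by
    by_contra hcon
    push Not at hcon
    have hn : (0 : ℤ) ≤ n := Int.natCast_nonneg n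
    have g1 := hcon (0, 0) (by rw [mem_grid]; simp)
    have g2 := hcon (n, 0) (by rw [mem_grid]; simp)
    have g3 := hcon (0, n) (by rw [mem_grid]; simp)
    have g4 := hcon (n, n) (by rw [mem_grid]; simp)
    rcases Nat.eq_zero_or_pos n with hn0 | hn0
    · subst hn0
      simp only [Nat.cast_zero, mul_zero] at h1
      apply hodd
      have e1 : M.1 = 0 := le_antisymm h1.1 h0.1
      have e2 : M.2 = 0 := le_antisymm h1.2 h0.2
      rw [e1, e2]
      simp
    have hR : ∀ z : ℤ × ℤ, D a b z ≤ 0 → ((b.1 : ℝ) - a.1) * (z.2 - a.2) - (b.2 - a.2) * (z.1 - a.1) ≤ 0 := by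
      intro z hz
      unfold D at hz
      exact_mod_cast hz
    have g1' := hR _ g1
    have g2' := hR _ g2
    have g3' := hR _ g3
    have g4' := hR _ g4
    simp only [Int.cast_natCast, Int.cast_zero] at g1' g2' g3' g4'
    have m1 : (0 : ℝ) ≤ M.1 := by exact_mod_cast h0.1
    have m2 : (0 : ℝ) ≤ M.2 := by exact_mod_cast h0.2
    have m3 : (M.1 : ℝ) ≤ 2 * n := by exact_mod_cast h1.1
    have m4 : (M.2 : ℝ) ≤ 2 * n := by exact_mod_cast h1.2
    have hnR : (0 : ℝ) < n := by exact_mod_cast hn0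
    rw [hh] at hpos
    unfold DR at hpos
    simp only at hpos
    have k1 := mul_nonneg (sub_nonneg.2 m3) (sub_nonneg.2 m4)
    have k2 := mul_nonneg m1 (sub_nonneg.2 m4)
    have k3 := mul_nonneg (sub_nonneg.2 m3) m2
    have k4 := mul_nonneg m1 m2
    have j1 := mul_nonpos_of_nonneg_of_nonpos k1 g1'
    have j2 := mul_nonpos_of_nonneg_of_nonpos k2 g2'
    have j3 := mul_nonpos_of_nonneg_of_nonpos k3 g3'
    have j4 := mul_nonpos_of_nonneg_of_nonpos k4 g4'
    have hn2 : (0 : ℝ) < 4 * n * n := by positivity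
    have : 4 * (n : ℝ) * n * (((b.1 : ℝ) - a.1) * ((M.2 : ℝ) / 2 - a.2) - (b.2 - a.2) * ((M.1 : ℝ) / 2 - a.1)) =
        (2 * n - M.1) * (2 * n - M.2) * (((b.1 : ℝ) - a.1) * (0 - a.2) - (b.2 - a.2) * (0 - a.1)) +
        M.1 * (2 * n - M.2) * (((b.1 : ℝ) - a.1) * (0 - a.2) - (b.2 - a.2) * (n - a.1)) +
        (2 * n - M.1) * M.2 * (((b.1 : ℝ) - a.1) * (n - a.2) - (b.2 - a.2) * (0 - a.1)) +
        M.1 * M.2 * (((b.1 : ℝ) - a.1) * (n - a.2) - (b.2 - a.2) * (n - a.1)) := by ring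
    have := mul_pos hn2 hpos
    linarith
  obtain ⟨z, hz1, hz2⟩ := hcorner
  obtain ⟨r, hr1, hr2, hr3⟩ := hT.fam.strip hab (exists_basis (hT.edge _ hab)) hz1 hz2
  set x : ℝ × ℝ := par a b t with hx
  have hD : ((b.1 : ℝ) - a.1) * (r.2 - a.2) - (b.2 - a.2) * (r.1 - a.1) = 1 := by
    unfold D at hr1; exact_mod_cast hr1
  have p1 : DR b r x = 1 - t := by rw [hx]; unfold DR par; linear_combination (1 - t) * hD
  have p2 : DR r a x = t := by rw [hx]; unfold DR par; linear_combination t * hD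
  have p3 : DR a b x = 0 := by rw [hx]; unfold DR par; ring
  have hsum := DR_sum hr1 h
  by_cases hin : 0 ≤ DR b r h ∧ 0 ≤ DR r a h
  · -- inside the triangle
    obtain ⟨i1, i2⟩ := hin
    refine ⟨1, one_pos, le_rfl, ?_⟩
    have hm : mv x h 1 = h := by unfold mv; ext <;> simp
    rw [hm]
    set B1 : ℤ := (r.1 - b.1) * (M.2 - 2 * b.2) - (r.2 - b.2) * (M.1 - 2 * b.1) with hB1
    set B2 : ℤ := (a.1 - r.1) * (M.2 - 2 * r.2) - (a.2 - r.2) * (M.1 - 2 * r.1) with hB2
    set B3 : ℤ := (b.1 - a.1) * (M.2 - 2 * a.2) - (b.2 - a.2) * (M.1 - 2 * a.1) with hB3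
    have c1 : (B1 : ℝ) = 2 * DR b r h := by rw [hB1, hh]; unfold DR; push_cast; ring
    have c2 : (B2 : ℝ) = 2 * DR r a h := by rw [hB2, hh]; unfold DR; push_cast; ring
    have c3 : (B3 : ℝ) = 2 * DR a b h := by rw [hB3, hh]; unfold DR; push_cast; ring
    have b1 : 0 ≤ B1 := by
      have : (0 : ℝ) ≤ B1 := by rw [c1]; linarith
      exact_mod_cast this
    have b2 : 0 ≤ B2 := by
      have : (0 : ℝ) ≤ B2 := by rw [c2]; linarith
      exact_mod_cast this
    have b3 : 0 < B3 := by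
      have : (0 : ℝ) < B3 := by rw [c3]; linarith
      exact_mod_cast this
    have bs : B1 + B2 + B3 = 2 := by
      have : (B1 : ℝ) + B2 + B3 = 2 := by rw [c1, c2, c3]; linarith
      exact_mod_cast this
    have y1 := (bary hr1 h).1
    have y2 := (bary hr1 h).2
    have z1 : (M.1 : ℝ) = B1 * a.1 + B2 * b.1 + B3 * r.1 := by
      have : h.1 = (M.1 : ℝ) / 2 := rfl
      rw [c1, c2, c3]
      rw [this] at y1
      linarith
    have z2 : (M.2 : ℝ) = B1 * a.2 + B2 * b.2 + B3 * r.2 := by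
      have : h.2 = (M.2 : ℝ) / 2 := rfl
      rw [c1, c2, c3]
      rw [this] at y2
      linarith
    have z1' : M.1 = B1 * a.1 + B2 * b.1 + B3 * r.1 := by exact_mod_cast z1
    have z2' : M.2 = B1 * a.2 + B2 * b.2 + B3 * r.2 := by exact_mod_cast z2
    have hcase : (B1 = 0 ∧ B2 = 0 ∧ B3 = 2) ∨ (B1 = 1 ∧ B2 = 0 ∧ B3 = 1) ∨ (B1 = 0 ∧ B2 = 1 ∧ B3 = 1) := by omega
    rcases hcase with ⟨k1, k2, k3⟩ | ⟨k1, k2, k3⟩ | ⟨k1, k2, k3⟩
    · exfalso
      apply hodd
      rw [k1, k2, k3] at z1' z2'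
      omega
    · refine ⟨_, hr2, mem_seg.2 ⟨1 / 2, by norm_num, by norm_num, ?_⟩⟩
      rw [k1, k2, k3] at z1 z2
      push_cast at z1 z2
      rw [hh]
      unfold par
      ext
      · show (M.1 : ℝ) / 2 = a.1 + 1 / 2 * (r.1 - a.1)
        linarith
      · show (M.2 : ℝ) / 2 = a.2 + 1 / 2 * (r.2 - a.2)
        linarith
    · refine ⟨_, hr3, mem_seg.2 ⟨1 / 2, by norm_num, by norm_num, ?_⟩⟩
      rw [k1, k2, k3] at z1 z2
      push_cast at z1 z2
      rw [hh]
      unfold par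
      ext
      · show (M.1 : ℝ) / 2 = b.1 + 1 / 2 * (r.1 - b.1)
        linarith
      · show (M.2 : ℝ) / 2 = b.2 + 1 / 2 * (r.2 - b.2)
        linarith
  · -- outside
    have hq : DR b r h < 0 ∨ DR r a h < 0 := by
      by_contra hcon
      push Not at hcon
      exact hin hcon
    obtain ⟨u, u0, u1, hu⟩ := exists_zero (p1 := DR b r x) (p2 := DR r a x) (by rw [p1]; linarith) (by rw [p2]; linarith) hq
    refine ⟨u, u0, u1.le, ?_⟩
    rw [← DR_mv, ← DR_mv] at hu
    set y := mv x h u with hy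
    have s3 : DR a b y = u * DR a b h := by rw [hy, DR_mv, p3]; ring
    have s3' : 0 < DR a b y := by rw [s3]; exact mul_pos u0 hpos
    have hs := DR_sum hr1 y
    obtain ⟨y1, y2⟩ := bary hr1 y
    rcases hu with ⟨k1, k2⟩ | ⟨k1, k2⟩
    · refine ⟨_, hr3, mem_seg.2 ⟨DR a b y, s3'.le, by linarith, ?_⟩⟩
      have k3 : DR r a y = 1 - DR a b y := by linarith
      rw [k1, k3] at y1 y2
      unfold par
      ext
      · show y.1 = b.1 + DR a b y * (r.1 - b.1)
        linarith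
      · show y.2 = b.2 + DR a b y * (r.2 - b.2)
        linarith
    · refine ⟨_, hr2, mem_seg.2 ⟨DR a b y, s3'.le, by linarith, ?_⟩⟩
      have k3 : DR b r y = 1 - DR a b y := by linarith
      rw [k1, k3] at y1 y2
      unfold par
      ext
      · show y.1 = a.1 + DR a b y * (r.1 - a.1)
        linarith
      · show y.2 = a.2 + DR a b y * (r.2 - a.2)
        linarith

omit hT in
lemma seg_closed (e : Finset (ℤ × ℤ)) : IsClosed (seg e) :=
  (Set.Finite.isCompact_convexHull ℝ (e.finite_toSet.image pt)).isClosed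

/-- **every half lattice point of the square is the midpoint of an edge** -/
theorem IsTri.exists_mid {M : ℤ × ℤ} (h0 : 0 ≤ M.1 ∧ 0 ≤ M.2) (h1 : M.1 ≤ 2 * n ∧ M.2 ≤ 2 * n)
    (hodd : ¬ (M.1 % 2 = 0 ∧ M.2 % 2 = 0)) : ∃ a b : ℤ × ℤ, {a, b} ∈ T ∧ a.1 + b.1 = M.1 ∧ a.2 + b.2 = M.2 := by
  rcases h0.2.eq_or_lt with hM | hM
  · have h2 : M.1 % 2 = 1 := by
      by_contra h3
      apply hodd
      rw [← hM]
      omega
    refine ⟨(M.1 / 2, 0), (M.1 / 2 + 1, 0), hT.bottom (by omega) (by omega), ?_, ?_⟩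
    · simp only; omega
    · simp only; omega
  have hn : 0 < n := by
    rcases Nat.eq_zero_or_pos n with hn0 | hn0
    · subst hn0
      simp only [Nat.cast_zero, mul_zero] at h1
      omega
    · exact hn0
  set s : ℝ := Real.sqrt 2 - 1 with hs
  have hs0 : 0 < s := by
    have : (1 : ℝ) < Real.sqrt 2 := by
      rw [Real.lt_sqrt (by norm_num)]; norm_num
    linarith
  have hs1 : s < 1 := by
    have : Real.sqrt 2 < 2 := by
      rw [Real.sqrt_lt' (by norm_num)]; norm_num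
    linarith
  have hirr : Irrational s := by
    rw [hs]
    exact_mod_cast irrational_sqrt_two.sub_intCast 1
  have hns : ∀ p q : ℤ, q ≠ 0 → (q : ℝ) * s ≠ p := by
    intro p q hq h
    apply hirr
    have hq' : (q : ℝ) ≠ 0 := by exact_mod_cast hq
    refine ⟨(p : ℚ) / q, ?_⟩
    push_cast
    rw [← h]
    field_simp
  set h : ℝ × ℝ := ((M.1 : ℝ) / 2, (M.2 : ℝ) / 2) with hh
  set x : ℝ → ℝ × ℝ := fun τ => mv (s, 0) h τ with hx
  have hxc : Continuous x := by
    rw [hx]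
    unfold mv
    fun_prop
  set K : Set ℝ := Set.Icc 0 1 ∩ ⋃ e ∈ T, x ⁻¹' seg e with hK
  have hKc : IsCompact K := by
    refine isCompact_Icc.inter_right ?_
    exact T.finite_toSet.isClosed_biUnion fun e _ => (seg_closed e).preimage hxc
  have hK0 : (0 : ℝ) ∈ K := by
    refine ⟨⟨le_rfl, zero_le_one⟩, ?_⟩
    rw [Set.mem_iUnion₂]
    refine ⟨_, hT.bottom (i := 0) le_rfl (by exact_mod_cast hn), ?_⟩
    show x 0 ∈ seg _
    rw [mem_seg]
    refine ⟨s, hs0.le, hs1.le, ?_⟩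
    rw [hx]
    unfold mv par
    ext <;> simp
  obtain ⟨τ, hτK, hτm⟩ := hKc.exists_isGreatest ⟨0, hK0⟩
  obtain ⟨⟨τ0, τ1⟩, hτ⟩ := hτK
  rw [Set.mem_iUnion₂] at hτ
  obtain ⟨e, he, hxe⟩ := hτ
  replace hxe : x τ ∈ seg e := hxe
  obtain ⟨a, b, -, rfl⟩ := card_eq_two.1 (hT.edge e he).card
  obtain ⟨t, t0, t1, ht⟩ := mem_seg.1 hxe
  have ht1 : s + τ * ((M.1 : ℝ) / 2 - s) = a.1 + t * (b.1 - a.1) := congrArg Prod.fst ht
  have ht2 : (0 : ℝ) + τ * ((M.2 : ℝ) / 2 - 0) = a.2 + t * (b.2 - a.2) := congrArg Prod.snd ht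
  obtain ⟨w, hw⟩ := exists_basis (hT.edge _ he)
  have hwR : ((b.1 : ℝ) - a.1) * w.2 - (b.2 - a.2) * w.1 = 1 := by exact_mod_cast hw
  rcases τ1.eq_or_lt with hτ1 | hτ1
  · -- the half lattice point is on the edge
    subst hτ1
    set k : ℤ := (M.1 - 2 * a.1) * w.2 - (M.2 - 2 * a.2) * w.1 with hk
    have hkt : (k : ℝ) = 2 * t := by
      rw [hk]
      push_cast
      linear_combination (2 * w.2) * ht1 - (2 * w.1) * ht2 + 2 * t * hwR
    have k0 : 0 ≤ k := by
      have : (0 : ℝ) ≤ k := by rw [hkt]; linarith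
      exact_mod_cast this
    have k2 : k ≤ 2 := by
      have : (k : ℝ) ≤ 2 := by rw [hkt]; linarith
      exact_mod_cast this
    have hM1 : (M.1 : ℝ) = 2 * a.1 + k * (b.1 - a.1) := by rw [hkt]; linarith
    have hM2 : (M.2 : ℝ) = 2 * a.2 + k * (b.2 - a.2) := by rw [hkt]; linarith
    have hM1' : M.1 = 2 * a.1 + k * (b.1 - a.1) := by exact_mod_cast hM1
    have hM2' : M.2 = 2 * a.2 + k * (b.2 - a.2) := by exact_mod_cast hM2
    have hk3 : k = 0 ∨ k = 1 ∨ k = 2 := by omega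
    rcases hk3 with hk' | hk' | hk'
    · exfalso; apply hodd; rw [hk'] at hM1' hM2'; omega
    · refine ⟨a, b, he, ?_, ?_⟩
      · rw [hk'] at hM1'; omega
      · rw [hk'] at hM2'; omega
    · exfalso; apply hodd; rw [hk'] at hM1' hM2'; omega
  · exfalso
    have hM2 : (0 : ℝ) < M.2 := by exact_mod_cast hM
    -- the point is not a lattice point
    have nolat : ∀ p : ℤ × ℤ, x τ ≠ pt p := by
      intro p hp
      have e1 : s + τ * ((M.1 : ℝ) / 2 - s) = p.1 := congrArg Prod.fst hp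
      have e2 : (0 : ℝ) + τ * ((M.2 : ℝ) / 2 - 0) = p.2 := congrArg Prod.snd hp
      have e3 : τ * M.2 = 2 * p.2 := by linarith
      have e4 : ((M.2 - 2 * p.2 : ℤ) : ℝ) * s = (M.2 * p.1 - p.2 * M.1 : ℤ) := by
        push_cast
        linear_combination (M.2 : ℝ) * e1 - ((M.1 : ℝ) / 2 - s) * e3
      have e5 : M.2 - 2 * p.2 = 0 := by
        by_contra hne
        exact hns _ _ hne e4
      have e6 : (M.2 : ℝ) = 2 * p.2 := by
        have : M.2 = 2 * p.2 := by omega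
        exact_mod_cast this
      rw [← e6] at e3
      have : (τ - 1) * M.2 = 0 := by linarith
      rcases mul_eq_zero.1 this with h3 | h3
      · linarith
      · linarith
    have ht0' : t ≠ 0 := by
      rintro rfl
      exact nolat a (by rw [ht, par_zero])
    have ht1' : t ≠ 1 := by
      rintro rfl
      exact nolat b (by rw [ht, par_one])
    have t0' : 0 < t := lt_of_le_of_ne t0 (Ne.symm ht0')
    have t1' : t < 1 := lt_of_le_of_ne t1 ht1'
    -- the next point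
    have fin : ∀ u : ℝ, 0 < u → u ≤ 1 → (∃ e ∈ T, mv (x τ) h u ∈ seg e) → False := by
      rintro u u0 u1 ⟨e, he, hu⟩
      have e1 : mv (x τ) h u = x (τ + u * (1 - τ)) := by
        rw [hx]
        unfold mv
        ext
        · simp only; ring
        · simp only; ring
      rw [e1] at hu
      have hmem : τ + u * (1 - τ) ∈ K := by
        refine ⟨⟨?_, ?_⟩, ?_⟩
        · have := mul_nonneg u0.le (sub_nonneg.2 τ1)
          linarith
        · nlinarith
        · rw [Set.mem_iUnion₂]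
          exact ⟨e, he, hu⟩
      have := hτm hmem
      have h3 := mul_pos u0 (sub_pos.2 hτ1)
      linarith
    have hne : DR a b h ≠ 0 := by
      intro h3
      have h4 : DR a b (x τ) = 0 := by rw [ht]; unfold DR par; ring
      have h5 : DR a b (x τ) = (1 - τ) * DR a b (s, 0) + τ * DR a b h := DR_mv _ _ _ _ _
      rw [h4, h3, mul_zero, add_zero] at h5
      have h6 : DR a b (s, 0) = 0 := by
        rcases mul_eq_zero.1 h5.symm with h7 | h7
        · linarith
        · exact h7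
      unfold DR at h6
      simp only at h6
      have h7 : ((b.2 - a.2 : ℤ) : ℝ) * s = (-(b.1 - a.1) * a.2 + (b.2 - a.2) * a.1 : ℤ) := by
        push_cast
        linear_combination -h6
      have h8 : b.2 - a.2 = 0 := by
        by_contra hne
        exact hns _ _ hne h7
      rw [h8] at h7 hw
      have h9 : (b.1 - a.1) * a.2 = 0 := by
        have h10 : ((0 : ℤ) : ℝ) * s = 0 := by simp
        rw [h10] at h7
        have : (0 : ℤ) = -(b.1 - a.1) * a.2 + 0 * a.1 := by exact_mod_cast h7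
        linarith
      have h10 : b.1 - a.1 ≠ 0 := by
        intro h11
        rw [h11] at hw
        simp at hw
      have h11 : a.2 = 0 := (mul_eq_zero.1 h9).resolve_left h10
      have h12 : (b.2 : ℝ) - a.2 = 0 := by exact_mod_cast h8
      rw [h12, h11] at ht2
      have : τ * ((M.2 : ℝ) / 2) = 0 := by simpa using ht2
      have hτ0 : τ = 0 := by
        rcases mul_eq_zero.1 this with h13 | h13
        · exact h13
        · linarith
      -- then `DR a b h` is not zero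
      unfold DR at h3
      rw [h12, h11] at h3
      have h14 : ((b.1 : ℝ) - a.1) * ((M.2 : ℝ) / 2) = 0 := by
        have : h.2 = (M.2 : ℝ) / 2 := rfl
        rw [← this]
        simpa using h3
      rcases mul_eq_zero.1 h14 with h15 | h15
      · apply h10
        exact_mod_cast h15
      · linarith
    rcases lt_or_gt_of_ne hne with h3 | h3
    · have h4 : 0 < DR b a h := by
        have : DR b a h = - DR a b h := by unfold DR; ring
        rw [this]; linarith
      have h5 : x τ = par b a (1 - t) := by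
        rw [ht]; unfold par
        ext
        · simp only; ring
        · simp only; ring
      obtain ⟨u, u0, u1, hu⟩ := hT.next (a := b) (b := a) (by rw [pair_comm]; exact he) h0 h1 hodd
        (t := 1 - t) (by linarith) (by linarith) h4
      rw [← h5] at hu
      exact fin u u0 u1 hu
    · obtain ⟨u, u0, u1, hu⟩ := hT.next he h0 h1 hodd t0' t1' h3
      rw [← ht] at hu
      exact fin u u0 u1 hu

end tri

end Pool.Agent.LT
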