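import Pool.Agent.Helper21.LT.Cross

/-!
# The strip lemma

Next to every edge of a maximal family of non crossing primitive segments in a convex set of lattice points
there is a unimodular triangle with sides in the family.
-/

set_option autoImplicit false

namespace Pool.Agent.LT

open Finset

/-- maximal families `E` of non crossing primitive segments in a convex set `L` of lattice points -/
structure Fam (L : Set (ℤ × ℤ)) (E : ℤ × ℤ → ℤ × ℤ → Prop) : Prop where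
  symm : ∀ a b, E a b → E b a
  mem : ∀ a b, E a b → a ∈ L
  nc : ∀ a b c d, E a b → E c d → ¬ Cross a b c d
  max : ∀ a b, a ∈ L → b ∈ L → (∃ w : ℤ × ℤ, (b.1 - a.1) * w.2 - (b.2 - a.2) * w.1 = 1) →
    (∀ c d, E c d → ¬ Cross a b c d) → E a b
  fin : {x : (ℤ × ℤ) × (ℤ × ℤ) | E x.1 x.2}.Finite
  conv : ∀ a b c r : ℤ × ℤ, a ∈ L → b ∈ L → c ∈ L → ∀ m α β γ : ℤ, 0 < m → 0 ≤ α → 0 ≤ β → 0 ≤ γ →
    α + β + γ = m → m * r.1 = α * a.1 + β * b.1 + γ * c.1 → m * r.2 = α * a.2 + β * b.2 + γ * c.2 → r ∈ L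

/-- the abscissa of the line `a b` at the height `y` -/
def xg (a b : ℤ × ℤ) (y : ℚ) : ℚ := a.1 + (b.1 - a.1) * (y - a.2) / (b.2 - a.2)

lemma D_eq_xg {a b : ℤ × ℤ} (h : a.2 < b.2) (c : ℤ × ℤ) :
    (D a b c : ℚ) = (b.2 - a.2) * (xg a b c.2 - c.1) := by
  have h' : ((b.2 : ℚ) - a.2) ≠ 0 := by
    have : (a.2 : ℚ) < b.2 := by exact_mod_cast h
    linarith
  unfold D xg
  push_cast
  field_simp
  ring

lemma xg_left {a b : ℤ × ℤ} : xg a b a.2 = a.1 := by unfold xg; simp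

lemma xg_right {a b : ℤ × ℤ} (h : a.2 < b.2) : xg a b b.2 = b.1 := by
  have h' : ((b.2 : ℚ) - a.2) ≠ 0 := by
    have : (a.2 : ℚ) < b.2 := by exact_mod_cast h
    linarith
  unfold xg
  field_simp
  ring

lemma xg_affine (a b : ℤ × ℤ) (y0 y1 y : ℚ) (h : y0 ≠ y1) :
    xg a b y = xg a b y0 + (y - y0) * ((xg a b y1 - xg a b y0) / (y1 - y0)) := by
  have h1 : y1 - y0 ≠ 0 := sub_ne_zero.2 (Ne.symm h)
  unfold xg
  by_cases h' : ((b.2 : ℚ) - a.2) = 0
  · rw [h']; simp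
  · field_simp
    ring

/-- two segments which both span the heights from `y0` to `y1` and change their order cross -/
lemma span_cross {a b c d : ℤ × ℤ} {y0 y1 : ℚ} (h01 : y0 < y1) (ha : (a.2 : ℚ) ≤ y0) (hc : (c.2 : ℚ) ≤ y0)
    (hb : y1 ≤ b.2) (hd : y1 ≤ d.2) (h0 : xg a b y0 < xg c d y0) (h1 : xg c d y1 < xg a b y1) : Cross a b c d := by
  have hab : a.2 < b.2 := by
    have : (a.2 : ℚ) < b.2 := by linarith
    exact_mod_cast this
  have hcd : c.2 < d.2 := by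
    have : (c.2 : ℚ) < d.2 := by linarith
    exact_mod_cast this
  have hab' : (0 : ℚ) < b.2 - a.2 := by
    have : (a.2 : ℚ) < b.2 := by exact_mod_cast hab
    linarith
  have hcd' : (0 : ℚ) < d.2 - c.2 := by
    have : (c.2 : ℚ) < d.2 := by exact_mod_cast hcd
    linarith
  set s : ℚ := (xg a b y1 - xg a b y0) / (y1 - y0) - (xg c d y1 - xg c d y0) / (y1 - y0) with hs
  have hspos : 0 < s := by
    rw [hs, ← sub_div]
    apply div_pos <;> linarith
  have hf : ∀ y, xg a b y - xg c d y = (xg a b y0 - xg c d y0) + (y - y0) * s := by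
    intro y
    rw [xg_affine a b y0 y1 y h01.ne, xg_affine c d y0 y1 y h01.ne, hs]
    ring
  have hf1 : (xg a b y0 - xg c d y0) + (y1 - y0) * s = xg a b y1 - xg c d y1 := (hf y1).symm
  have low : ∀ y ≤ y0, xg a b y - xg c d y < 0 := by
    intro y hy
    rw [hf]
    nlinarith
  have high : ∀ y, y1 ≤ y → 0 < xg a b y - xg c d y := by
    intro y hy
    rw [hf]
    nlinarith
  have e1 : D a b c < 0 := by
    have h := D_eq_xg hab c
    have h2 := low _ hc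
    rw [xg_left] at h2
    have : (D a b c : ℚ) < 0 := by rw [h]; exact mul_neg_of_pos_of_neg hab' h2
    exact_mod_cast this
  have e2 : 0 < D a b d := by
    have h := D_eq_xg hab d
    have h2 := high _ hd
    rw [xg_right hcd] at h2
    have : (0 : ℚ) < D a b d := by rw [h]; exact mul_pos hab' h2
    exact_mod_cast this
  have e3 : 0 < D c d a := by
    have h := D_eq_xg hcd a
    have h2 := low _ ha
    rw [xg_left] at h2
    have : (0 : ℚ) < D c d a := by rw [h]; exact mul_pos hcd' (by linarith)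
    exact_mod_cast this
  have e4 : D c d b < 0 := by
    have h := D_eq_xg hcd b
    have h2 := high _ hb
    rw [xg_right hab] at h2
    have : (D c d b : ℚ) < 0 := by rw [h]; exact mul_neg_of_pos_of_neg hcd' (by linarith)
    exact_mod_cast this
  exact ⟨mul_neg_of_neg_of_pos e1 e2, mul_neg_of_pos_of_neg e3 e4⟩

/-- a segment which crosses a segment from height `0` to height `1` spans the strip -/
lemma span_of_cross {i j : ℤ} {c d : ℤ × ℤ} (h : Cross (i, 0) (j, 1) c d) :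
    (c.2 ≤ 0 ∧ 1 ≤ d.2) ∨ (d.2 ≤ 0 ∧ 1 ≤ c.2) := by
  obtain ⟨h1, h2⟩ := h
  set A : ℤ := D (i, 0) (j, 1) c with hA
  set B : ℤ := D (i, 0) (j, 1) d with hB
  have e1 : D c d (i, 0) = -A * d.2 + B * c.2 := by rw [hA, hB]; unfold D; ring
  have e2 : D c d (j, 1) = A * (1 - d.2) - B * (1 - c.2) := by rw [hA, hB]; unfold D; ring
  rw [e1, e2] at h2
  by_contra hcon
  push Not at hcon
  obtain ⟨h3, h4⟩ := hcon
  have hcase : (c.2 ≤ 0 ∧ d.2 ≤ 0) ∨ (1 ≤ c.2 ∧ 1 ≤ d.2) := by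
    rcases le_or_gt c.2 0 with h5 | h5
    · left; exact ⟨h5, by have := h3 h5; omega⟩
    · right
      refine ⟨by omega, ?_⟩
      by_contra h6
      have := h4 (by omega)
      omega
  rcases lt_or_gt_of_ne (show A ≠ 0 by intro h0; rw [h0] at h1; simp at h1) with hA' | hA'
  · have hB' : 0 < B := by nlinarith
    rcases hcase with ⟨h5, h6⟩ | ⟨h5, h6⟩
    · have k1 : -A * d.2 + B * c.2 ≤ 0 := by nlinarith
      have k2 : A * (1 - d.2) - B * (1 - c.2) ≤ 0 := by nlinarith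
      nlinarith
    · have k1 : 0 ≤ -A * d.2 + B * c.2 := by nlinarith
      have k2 : 0 ≤ A * (1 - d.2) - B * (1 - c.2) := by nlinarith
      nlinarith
  · have hB' : B < 0 := by nlinarith
    rcases hcase with ⟨h5, h6⟩ | ⟨h5, h6⟩
    · have k1 : 0 ≤ -A * d.2 + B * c.2 := by nlinarith
      have k2 : 0 ≤ A * (1 - d.2) - B * (1 - c.2) := by nlinarith
      nlinarith
    · have k1 : -A * d.2 + B * c.2 ≤ 0 := by nlinarith
      have k2 : A * (1 - d.2) - B * (1 - c.2) ≤ 0 := by nlinarith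
      nlinarith

variable {L : Set (ℤ × ℤ)} {E : ℤ × ℤ → ℤ × ℤ → Prop}

/-- the least integer `j` with `z.1 / z.2 ≤ j` -/
lemma exists_ceil (z : ℤ × ℤ) (hz : 0 < z.2) : ∃ j : ℤ, z.1 ≤ j * z.2 ∧ j * z.2 ≤ z.1 + z.2 - 1 := by
  refine ⟨(z.1 + z.2 - 1) / z.2, ?_, ?_⟩
  · have := Int.lt_ediv_add_one_mul_self (z.1 + z.2 - 1) hz
    nlinarith
  · have := Int.ediv_mul_le (z.1 + z.2 - 1) hz.ne'
    linarith

/-- the strip lemma, in coordinates -/
theorem strip (hF : Fam L E) (he : E (0, 0) (1, 0)) (z0 : ℤ × ℤ) (hz0 : z0 ∈ L) (hz0' : 0 < z0.2) :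
    ∃ j : ℤ, E (0, 0) (j, 1) ∧ E (1, 0) (j, 1) := by
  classical
  have hp : ((0, 0) : ℤ × ℤ) ∈ L := hF.mem _ _ he
  have hq : ((1, 0) : ℤ × ℤ) ∈ L := hF.mem _ _ (hF.symm _ _ he)
  -- the spanning edges
  set S : Finset ((ℤ × ℤ) × (ℤ × ℤ)) := hF.fin.toFinset.filter fun x => x.1.2 ≤ 0 ∧ 1 ≤ x.2.2 with hS
  have memS : ∀ x : (ℤ × ℤ) × (ℤ × ℤ), x ∈ S ↔ E x.1 x.2 ∧ x.1.2 ≤ 0 ∧ 1 ≤ x.2.2 := by
    intro x
    rw [hS, mem_filter, Set.Finite.mem_toFinset, Set.mem_ofPred_eq]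
  have hk : ∀ x ∈ S, (0 : ℚ) < (x.2.2 : ℚ) - x.1.2 := by
    intro x hx
    obtain ⟨-, h1, h2⟩ := (memS x).1 hx
    have h1' : (x.1.2 : ℚ) ≤ 0 := by exact_mod_cast h1
    have h2' : (1 : ℚ) ≤ x.2.2 := by exact_mod_cast h2
    linarith
  have hlt : ∀ x ∈ S, x.1.2 < x.2.2 := by
    intro x hx
    obtain ⟨-, h1, h2⟩ := (memS x).1 hx
    omega
  have lr : ∀ x ∈ S, xg x.1 x.2 0 ≤ 0 ∨ 1 ≤ xg x.1 x.2 0 := by
    intro x hx
    obtain ⟨h0, h1, h2⟩ := (memS x).1 hx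
    by_contra hcon
    push Not at hcon
    obtain ⟨h3, h4⟩ := hcon
    rcases h1.lt_or_eq with h5 | h5
    · apply hF.nc _ _ _ _ he h0
      have k := hk x hx
      have e1 := D_eq_xg (hlt x hx) (0, 0)
      have e2 := D_eq_xg (hlt x hx) (1, 0)
      simp only [Int.cast_zero, Int.cast_one] at e1 e2
      refine ⟨?_, ?_⟩
      · have d1 : D (0, 0) (1, 0) x.1 = x.1.2 := by unfold D; ring
        have d2 : D (0, 0) (1, 0) x.2 = x.2.2 := by unfold D; ring
        rw [d1, d2]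
        exact mul_neg_of_neg_of_pos h5 (by omega)
      · have d1 : (0 : ℚ) < D x.1 x.2 (0, 0) := by rw [e1]; exact mul_pos k (by linarith)
        have d2 : (D x.1 x.2 (1, 0) : ℚ) < 0 := by rw [e2]; exact mul_neg_of_pos_of_neg k (by linarith)
        have d1' : 0 < D x.1 x.2 (0, 0) := by exact_mod_cast d1
        have d2' : D x.1 x.2 (1, 0) < 0 := by exact_mod_cast d2
        exact mul_neg_of_pos_of_neg d1' d2'
    · have e : xg x.1 x.2 0 = x.1.1 := by
        have := @xg_left x.1 x.2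
        rw [h5] at this
        simpa using this
      rw [e] at h3 h4
      have h3' : 0 < x.1.1 := by exact_mod_cast h3
      have h4' : x.1.1 < 1 := by exact_mod_cast h4
      omega
  set Lf : Finset ((ℤ × ℤ) × (ℤ × ℤ)) := S.filter fun x => xg x.1 x.2 0 ≤ 0 with hLf
  set Rt : Finset ((ℤ × ℤ) × (ℤ × ℤ)) := S.filter fun x => 1 ≤ xg x.1 x.2 0 with hRt
  have memL : ∀ x, x ∈ Lf ↔ x ∈ S ∧ xg x.1 x.2 0 ≤ 0 := fun x => by rw [hLf, mem_filter]
  have memR : ∀ x, x ∈ Rt ↔ x ∈ S ∧ 1 ≤ xg x.1 x.2 0 := fun x => by rw [hRt, mem_filter]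
  -- left edges are to the left of right edges
  have order : ∀ x ∈ Lf, ∀ x' ∈ Rt, ∀ y : ℚ, 0 < y → y ≤ x.2.2 → y ≤ x'.2.2 → xg x.1 x.2 y ≤ xg x'.1 x'.2 y := by
    intro x hx x' hx' y y0 y1 y2
    obtain ⟨hxS, hx0⟩ := (memL x).1 hx
    obtain ⟨hx'S, hx'0⟩ := (memR x').1 hx'
    obtain ⟨g1, g2, g3⟩ := (memS x).1 hxS
    obtain ⟨g1', g2', g3'⟩ := (memS x').1 hx'S
    by_contra hcon
    push Not at hcon
    apply hF.nc _ _ _ _ g1 g1'
    exact span_cross (y0 := 0) (y1 := y) y0 (by exact_mod_cast g2) (by exact_mod_cast g2') y1 y2 (by linarith) hcon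
  -- the main property
  have main : ∃ j : ℤ, (j, 1) ∈ L ∧ (∀ x ∈ Lf, xg x.1 x.2 1 ≤ j) ∧ (∀ x ∈ Rt, (j : ℚ) ≤ xg x.1 x.2 1) := by
    -- the point `(j, 1)` of the triangle with the top `z`
    have top : ∀ z ∈ L, 0 < z.2 → ∃ j : ℤ, (j, 1) ∈ L ∧ (z.1 : ℚ) / z.2 ≤ j ∧ (j : ℚ) ≤ (1 - 1 / z.2) + z.1 / z.2 := by
      intro z hz hz2
      obtain ⟨j, j1, j2⟩ := exists_ceil z hz2
      have hz2' : (0 : ℚ) < z.2 := by exact_mod_cast hz2
      refine ⟨j, ?_, ?_, ?_⟩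
      · refine hF.conv (0, 0) (1, 0) z (j, 1) hp hq hz z.2 (z.2 - 1 - (j * z.2 - z.1)) (j * z.2 - z.1) 1 hz2 (by linarith)
          (by linarith) (by norm_num) (by ring) ?_ ?_
        · simp only; ring
        · simp only; ring
      · rw [div_le_iff₀ hz2']
        exact_mod_cast j1
      · rw [← sub_nonneg]
        have j2' : (j : ℚ) * z.2 ≤ z.1 + z.2 - 1 := by exact_mod_cast j2
        have : (1 - 1 / (z.2 : ℚ)) + z.1 / z.2 - j = (z.1 + z.2 - 1 - j * z.2) / z.2 := by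
          field_simp
          ring
        rw [this]
        exact div_nonneg (by linarith) hz2'.le
    -- interpolation
    have interp : ∀ (a b : ℤ × ℤ) (h : ℚ), 0 < h → xg a b 1 = (1 - 1 / h) * xg a b 0 + (1 / h) * xg a b h := by
      intro a b h hh
      have hh' : h ≠ 0 := hh.ne'
      rw [xg_affine a b 0 h 1 hh.ne]
      field_simp
      ring
    have invle : ∀ h : ℚ, 1 ≤ h → 0 ≤ 1 - 1 / h := by
      intro h hh
      have : 1 / h ≤ 1 := by rw [div_le_one (by linarith)]; exact hh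
      linarith
    have uL : ∀ x ∈ Lf, x.2 ∈ L ∧ 1 ≤ x.2.2 ∧ xg x.1 x.2 x.2.2 = x.2.1 := by
      intro x hx
      obtain ⟨hxS, -⟩ := (memL x).1 hx
      obtain ⟨g1, g2, g3⟩ := (memS x).1 hxS
      exact ⟨hF.mem _ _ (hF.symm _ _ g1), g3, xg_right (hlt x hxS)⟩
    have uR : ∀ x ∈ Rt, x.2 ∈ L ∧ 1 ≤ x.2.2 ∧ xg x.1 x.2 x.2.2 = x.2.1 := by
      intro x hx
      obtain ⟨hxS, -⟩ := (memR x).1 hx
      obtain ⟨g1, g2, g3⟩ := (memS x).1 hxS
      exact ⟨hF.mem _ _ (hF.symm _ _ g1), g3, xg_right (hlt x hxS)⟩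
    -- the top of a left edge which is extremal and not higher than the extremal right edge
    have caseL : ∀ x ∈ Lf, (∀ x' ∈ Lf, xg x'.1 x'.2 1 ≤ xg x.1 x.2 1) → (∀ x' ∈ Rt, ∃ x'' ∈ Rt,
        xg x''.1 x''.2 1 ≤ xg x'.1 x'.2 1 ∧ x.2.2 ≤ x''.2.2) →
        ∃ j : ℤ, (j, 1) ∈ L ∧ (∀ x ∈ Lf, xg x.1 x.2 1 ≤ j) ∧ (∀ x ∈ Rt, (j : ℚ) ≤ xg x.1 x.2 1) := by
      intro x hx hmax hR
      obtain ⟨g1, g2, g3⟩ := uL x hx
      obtain ⟨j, j0, j1, j2⟩ := top x.2 g1 (by omega)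
      have hh : (1 : ℚ) ≤ x.2.2 := by exact_mod_cast g2
      refine ⟨j, j0, fun x' hx' => ?_, fun x' hx' => ?_⟩
      · refine (hmax x' hx').trans (le_trans ?_ j1)
        rw [interp x.1 x.2 x.2.2 (by linarith), g3]
        have h1 := ((memL x).1 hx).2
        have h2 := invle _ hh
        have h3 : (1 - 1 / (x.2.2 : ℚ)) * xg x.1 x.2 0 ≤ 0 := mul_nonpos_of_nonneg_of_nonpos h2 h1
        have h4 : (1 / (x.2.2 : ℚ)) * x.2.1 = x.2.1 / x.2.2 := by ring
        linarith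
      · obtain ⟨x'', hx'', h1, h2⟩ := hR x' hx'
        refine le_trans ?_ h1
        refine j2.trans ?_
        rw [interp x''.1 x''.2 x.2.2 (by linarith)]
        have h3 := order x hx x'' hx'' x.2.2 (by linarith) le_rfl (by exact_mod_cast h2)
        rw [g3] at h3
        have h4 := ((memR x'').1 hx'').2
        have h5 := invle _ hh
        have h6 : (0 : ℚ) < 1 / x.2.2 := by positivity
        have h7 : (1 / (x.2.2 : ℚ)) * x.2.1 ≤ (1 / x.2.2) * xg x''.1 x''.2 x.2.2 := mul_le_mul_of_nonneg_left h3 h6.le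
        have h8 : (1 / (x.2.2 : ℚ)) * x.2.1 = x.2.1 / x.2.2 := by ring
        nlinarith
    have caseR : ∀ x ∈ Rt, (∀ x' ∈ Rt, xg x.1 x.2 1 ≤ xg x'.1 x'.2 1) → (∀ x' ∈ Lf, ∃ x'' ∈ Lf,
        xg x'.1 x'.2 1 ≤ xg x''.1 x''.2 1 ∧ x.2.2 ≤ x''.2.2) →
        ∃ j : ℤ, (j, 1) ∈ L ∧ (∀ x ∈ Lf, xg x.1 x.2 1 ≤ j) ∧ (∀ x ∈ Rt, (j : ℚ) ≤ xg x.1 x.2 1) := by
      intro x hx hmin hL
      obtain ⟨g1, g2, g3⟩ := uR x hx
      obtain ⟨j, j0, j1, j2⟩ := top x.2 g1 (by omega)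
      have hh : (1 : ℚ) ≤ x.2.2 := by exact_mod_cast g2
      have h6 : (0 : ℚ) < 1 / x.2.2 := by positivity
      have h5 := invle _ hh
      have h8 : (1 / (x.2.2 : ℚ)) * x.2.1 = x.2.1 / x.2.2 := by ring
      refine ⟨j, j0, fun x' hx' => ?_, fun x' hx' => ?_⟩
      · obtain ⟨x'', hx'', h1, h2⟩ := hL x' hx'
        refine h1.trans (le_trans ?_ j1)
        rw [interp x''.1 x''.2 x.2.2 (by linarith)]
        have h3 := order x'' hx'' x hx x.2.2 (by linarith) (by exact_mod_cast h2) le_rfl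
        rw [g3] at h3
        have h4 := ((memL x'').1 hx'').2
        have h7 : (1 / (x.2.2 : ℚ)) * xg x''.1 x''.2 x.2.2 ≤ (1 / x.2.2) * x.2.1 := mul_le_mul_of_nonneg_left h3 h6.le
        have h9 : (1 - 1 / (x.2.2 : ℚ)) * xg x''.1 x''.2 0 ≤ 0 := mul_nonpos_of_nonneg_of_nonpos h5 h4
        linarith
      · refine le_trans ?_ (hmin x' hx')
        refine j2.trans ?_
        rw [interp x.1 x.2 x.2.2 (by linarith), g3]
        have h4 := ((memR x).1 hx).2
        nlinarith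
    rcases Lf.eq_empty_or_nonempty with hL0 | hLne
    · rcases Rt.eq_empty_or_nonempty with hR0 | hRne
      · obtain ⟨j, j0, j1, j2⟩ := top z0 hz0 hz0'
        refine ⟨j, j0, fun x hx => ?_, fun x hx => ?_⟩
        · rw [hL0] at hx; simp at hx
        · rw [hR0] at hx; simp at hx
      · obtain ⟨x, hx, hmin⟩ := Rt.exists_min_image (fun x => xg x.1 x.2 1) hRne
        exact caseR x hx hmin fun x' hx' => by rw [hL0] at hx'; simp at hx'
    · obtain ⟨u, hu, hmax⟩ := Lf.exists_max_image (fun x => xg x.1 x.2 1) hLne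
      rcases Rt.eq_empty_or_nonempty with hR0 | hRne
      · exact caseL u hu hmax fun x' hx' => by rw [hR0] at hx'; simp at hx'
      · obtain ⟨v, hv, hmin⟩ := Rt.exists_min_image (fun x => xg x.1 x.2 1) hRne
        rcases le_total u.2.2 v.2.2 with huv | huv
        · exact caseL u hu hmax fun x' hx' => ⟨v, hv, hmin x' hx', huv⟩
        · exact caseR v hv hmin fun x' hx' => ⟨u, hu, hmax x' hx', huv⟩
  obtain ⟨j, j0, j1, j2⟩ := main
  -- no edge crosses
  have nocross : ∀ i : ℤ, (i = 0 ∨ i = 1) → ∀ c d, E c d → ¬ Cross (i, 0) (j, 1) c d := by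
    have key : ∀ i : ℤ, (i = 0 ∨ i = 1) → ∀ c d, E c d → c.2 ≤ 0 → 1 ≤ d.2 → ¬ Cross (i, 0) (j, 1) c d := by
      intro i hi c d hcd hc hd hcr
      have hxS : (c, d) ∈ S := (memS _).2 ⟨hcd, hc, hd⟩
      have k := hk _ hxS
      simp only at k
      have e1 := D_eq_xg (hlt _ hxS) (i, 0)
      have e2 := D_eq_xg (hlt _ hxS) (j, 1)
      simp only [Int.cast_zero, Int.cast_one] at e1 e2
      have hprod : (D c d (i, 0) : ℚ) * D c d (j, 1) < 0 := by exact_mod_cast hcr.2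
      rw [e1, e2] at hprod
      have hi0 : (0 : ℚ) ≤ i := by rcases hi with rfl | rfl <;> norm_num
      have hi1 : (i : ℚ) ≤ 1 := by rcases hi with rfl | rfl <;> norm_num
      rcases lr _ hxS with h | h
      · have h1 := j1 _ ((memL _).2 ⟨hxS, h⟩)
        simp only at h h1
        have a1 : xg c d 0 - i ≤ 0 := by linarith
        have a2 : xg c d 1 - j ≤ 0 := by linarith
        have := mul_nonneg_of_nonpos_of_nonpos (mul_nonpos_of_nonneg_of_nonpos k.le a1) (mul_nonpos_of_nonneg_of_nonpos k.le a2)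
        linarith
      · have h1 := j2 _ ((memR _).2 ⟨hxS, h⟩)
        simp only at h h1
        have a1 : 0 ≤ xg c d 0 - i := by linarith
        have a2 : 0 ≤ xg c d 1 - j := by linarith
        have := mul_nonneg (mul_nonneg k.le a1) (mul_nonneg k.le a2)
        linarith
    intro i hi c d hcd hcr
    rcases span_of_cross hcr with ⟨h1, h2⟩ | ⟨h1, h2⟩
    · exact key i hi c d hcd h1 h2 hcr
    · exact key i hi d c (hF.symm _ _ hcd) h1 h2 hcr.swapr
  refine ⟨j, hF.max _ _ hp j0 ⟨(-1, 0), by simp⟩ (nocross 0 (Or.inl rfl)),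
    hF.max _ _ hq j0 ⟨(-1, 0), by simp⟩ (nocross 1 (Or.inr rfl))⟩

end Pool.Agent.LT
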