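import Pool.Agent.Helper21.LT.Chain

/-!
# The extreme triangulation and the reflection
-/

set_option autoImplicit false

namespace Pool.Agent.LT

open Finset

variable {n : ℕ}

lemma not_NC_of_sm {e f : Finset (ℤ × ℤ)} (he : IsEdge n e) (hf : IsEdge n f) (h : sm e = sm f) : ¬ NC e f := by
  obtain ⟨a, b, hab, rfl⟩ := he.exists_pair
  obtain ⟨c, d, hcd, rfl⟩ := hf.exists_pair
  rw [sm_pair hab, sm_pair hcd] at h
  have hx : a.1 + b.1 = c.1 + d.1 := congrArg Prod.fst h
  have hy : a.2 + b.2 = c.2 + d.2 := congrArg Prod.snd h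
  have m1 : par a b (1 / 2) ∈ seg {a, b} := mem_seg.2 ⟨1 / 2, by norm_num, by norm_num, rfl⟩
  have hxR : (a.1 : ℝ) + b.1 = c.1 + d.1 := by exact_mod_cast hx
  have hyR : (a.2 : ℝ) + b.2 = c.2 + d.2 := by exact_mod_cast hy
  have m2 : par a b (1 / 2) ∈ seg {c, d} := mem_seg.2 ⟨1 / 2, by norm_num, by norm_num, by
    unfold par
    ext
    · show (a.1 : ℝ) + _ = c.1 + _
      linarith
    · show (a.2 : ℝ) + _ = c.2 + _
      linarith⟩
  intro hn
  obtain ⟨p, hp1, -, hp⟩ := hn _ m1 m2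
  have p1 : (a.1 : ℝ) + 1 / 2 * (b.1 - a.1) = p.1 := congrArg Prod.fst hp
  have p2 : (a.2 : ℝ) + 1 / 2 * (b.2 - a.2) = p.2 := congrArg Prod.snd hp
  have q1 : (a.1 : ℝ) + b.1 = 2 * p.1 := by linarith
  have q2 : (a.2 : ℝ) + b.2 = 2 * p.2 := by linarith
  have r1 : a.1 + b.1 = 2 * p.1 := by exact_mod_cast q1
  have r2 : a.2 + b.2 = 2 * p.2 := by exact_mod_cast q2
  apply hab
  rw [mem_insert, mem_singleton] at hp1
  rcases hp1 with rfl | rfl
  · ext <;> omega
  · ext <;> omega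

/-- the lower (left) end of the edge of the extreme triangulation with the sum `M` -/
def lo (n : ℕ) (M : ℤ × ℤ) : ℤ × ℤ :=
  if M.2 % 2 = 0 then ((M.1 - 1) / 2, M.2 / 2) else (max 0 (M.1 - n), (M.2 - 1) / 2)

/-- the upper (right) end of the edge of the extreme triangulation with the sum `M` -/
def hi (n : ℕ) (M : ℤ × ℤ) : ℤ × ℤ :=
  if M.2 % 2 = 0 then ((M.1 + 1) / 2, M.2 / 2) else (min n M.1, (M.2 + 1) / 2)

lemma lohi {M : ℤ × ℤ} (hM : M ∈ HH n) :
    (M.2 % 2 = 0 ∧ ∃ x y : ℤ, 0 ≤ x ∧ x < n ∧ 0 ≤ y ∧ y ≤ n ∧ M = (2 * x + 1, 2 * y) ∧ lo n M = (x, y) ∧ hi n M = (x + 1, y)) ∨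
    (M.2 % 2 = 1 ∧ ∃ y : ℤ, 0 ≤ y ∧ y < n ∧ 0 ≤ M.1 ∧ M.1 ≤ 2 * n ∧ M.2 = 2 * y + 1 ∧ lo n M = (max 0 (M.1 - n), y) ∧
      hi n M = (min (n : ℤ) M.1, y + 1)) := by
  rw [mem_HH] at hM
  rcases Int.emod_two_eq_zero_or_one M.2 with h | h
  · left
    refine ⟨h, (M.1 - 1) / 2, M.2 / 2, by omega, by omega, by omega, by omega, ?_, ?_, ?_⟩
    · refine Prod.ext ?_ ?_
      · simp only; omega
      · simp only; omega
    · unfold lo; rw [if_pos h]
    · unfold hi; rw [if_pos h]
      refine Prod.ext ?_ rfl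
      simp only; omega
  · right
    have h0 : ¬ M.2 % 2 = 0 := by omega
    refine ⟨h, (M.2 - 1) / 2, by omega, by omega, by omega, by omega, by omega, ?_, ?_⟩
    · unfold lo; rw [if_neg h0]
    · unfold hi; rw [if_neg h0]
      refine Prod.ext rfl ?_
      simp only; omega

lemma lo_add_hi {M : ℤ × ℤ} (hM : M ∈ HH n) : lo n M + hi n M = M := by
  rcases lohi hM with ⟨h, x, y, h1, h2, h3, h4, h5, h6, h7⟩ | ⟨h, y, h1, h2, h3, h4, h5, h6, h7⟩
  · rw [h6, h7, h5]
    refine Prod.ext ?_ ?_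
    · simp only [Prod.fst_add]; ring
    · simp only [Prod.snd_add]; ring
  · rw [h6, h7]
    refine Prod.ext ?_ ?_
    · simp only [Prod.fst_add]; omega
    · simp only [Prod.snd_add]; omega

lemma isEdge_lohi {M : ℤ × ℤ} (hM : M ∈ HH n) : IsEdge n {lo n M, hi n M} := by
  rcases lohi hM with ⟨h, x, y, h1, h2, h3, h4, h5, h6, h7⟩ | ⟨h, y, h1, h2, h3, h4, h5, h6, h7⟩
  · rw [h6, h7]
    refine isEdge_of_basis ?_ ?_ ⟨(0, 1), by simp⟩
    · rw [mem_grid]; simp only; omega
    · rw [mem_grid]; simp only; omega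
  · rw [h6, h7]
    refine isEdge_of_basis ?_ ?_ ⟨(-1, 0), by simp⟩
    · rw [mem_grid]; simp only; omega
    · rw [mem_grid]; simp only; omega

lemma lo_ne_hi {M : ℤ × ℤ} (hM : M ∈ HH n) : lo n M ≠ hi n M := by
  intro h
  have := (isEdge_lohi hM).card
  rw [h] at this
  simp at this

lemma sm_lohi {M : ℤ × ℤ} (hM : M ∈ HH n) : sm {lo n M, hi n M} = M := by
  rw [sm_pair (lo_ne_hi hM), lo_add_hi hM]

lemma strips_aux {p q δ k : ℤ} (h1 : p * (p + δ) < 0) (h2 : q * (q - δ) < 0) (h3 : p + q = δ * k) (hk : 1 ≤ k) : False := by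
  rcases lt_trichotomy δ 0 with hδ | hδ | hδ
  · have a1 : 0 < p := by
      by_contra h
      push Not at h
      have := mul_nonneg_of_nonpos_of_nonpos h (show p + δ ≤ 0 by linarith)
      linarith
    have a2 : δ < q := by
      by_contra h
      push Not at h
      have := mul_nonneg_of_nonpos_of_nonpos (show q ≤ 0 by linarith) (show q - δ ≤ 0 by linarith)
      linarith
    nlinarith
  · subst hδ
    rw [add_zero] at h1
    nlinarith
  · have a1 : p < 0 := by
      by_contra h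
      push Not at h
      have := mul_nonneg h (show 0 ≤ p + δ by linarith)
      linarith
    have a2 : q < δ := by
      by_contra h
      push Not at h
      have := mul_nonneg (show 0 ≤ q by linarith) (show 0 ≤ q - δ by linarith)
      linarith
    nlinarith

lemma strips {x0 x1 y x0' x1' y' : ℤ} (h : y + 1 ≤ y') : ¬ Cross (x0, y) (x1, y + 1) (x0', y') (x1', y' + 1) := by
  rintro ⟨h1, h2⟩
  unfold D at h1 h2
  simp only at h1 h2
  refine strips_aux (p := (x1 - x0) * (y' - y) - (x0' - x0)) (q := (x1' - x0') * (y - y') - (x0 - x0'))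
    (δ := (x1 - x0) - (x1' - x0')) (k := y' - y) ?_ ?_ (by ring) (by linarith)
  · calc _ = _ := by ring
      _ < 0 := h1
  · calc _ = _ := by ring
      _ < 0 := h2

lemma nc_lohi {M M' : ℤ × ℤ} (hM : M ∈ HH n) (hM' : M' ∈ HH n) : ¬ Cross (lo n M) (hi n M) (lo n M') (hi n M') := by
  have flat : ∀ x y : ℤ, ∀ c d : ℤ × ℤ, (d.2 = c.2 ∨ d.2 = c.2 + 1) → ¬ Cross (x, y) (x + 1, y) c d := by
    rintro x y c d h ⟨h1, -⟩
    unfold D at h1
    simp only at h1
    have e1 : (x + 1 - x) * (c.2 - y) - (y - y) * (c.1 - x) = c.2 - y := by ring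
    have e2 : (x + 1 - x) * (d.2 - y) - (y - y) * (d.1 - x) = d.2 - y := by ring
    rw [e1, e2] at h1
    rcases h with h | h
    · rw [h] at h1
      have := mul_self_nonneg (c.2 - y)
      linarith
    · rw [h] at h1
      rcases le_or_gt y c.2 with h2 | h2
      · have := mul_nonneg (show 0 ≤ c.2 - y by linarith) (show 0 ≤ c.2 + 1 - y by linarith)
        linarith
      · have := mul_nonneg_of_nonpos_of_nonpos (show c.2 - y ≤ 0 by linarith) (show c.2 + 1 - y ≤ 0 by linarith)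
        linarith
  have lev : ∀ N ∈ HH n, (hi n N).2 = (lo n N).2 ∨ (hi n N).2 = (lo n N).2 + 1 := by
    intro N hN
    rcases lohi hN with ⟨h, x, y, h1, h2, h3, h4, h5, h6, h7⟩ | ⟨h, y, h1, h2, h3, h4, h5, h6, h7⟩
    · rw [h6, h7]; left; rfl
    · rw [h6, h7]; right; rfl
  rcases lohi hM with ⟨h, x, y, h1, h2, h3, h4, h5, h6, h7⟩ | ⟨h, y, h1, h2, h3, h4, h5, h6, h7⟩
  · rw [h6, h7]
    exact flat x y _ _ (lev _ hM')
  · rcases lohi hM' with ⟨g, x', y', g1, g2, g3, g4, g5, g6, g7⟩ | ⟨g, y', g1, g2, g3, g4, g5, g6, g7⟩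
    · intro hc
      have hc' := hc.symm
      rw [g6, g7] at hc'
      exact flat x' y' _ _ (lev _ hM) hc'
    · rw [h6, h7, g6, g7]
      rcases lt_trichotomy y y' with hy | hy | hy
      · exact strips (by omega)
      · subst hy
        rintro ⟨h8, -⟩
        unfold D at h8
        simp only at h8
        set A := max 0 (M.1 - (n : ℤ)) with hA
        set A' := max 0 (M'.1 - (n : ℤ)) with hA'
        set B := min (n : ℤ) M.1 with hB
        set B' := min (n : ℤ) M'.1 with hB'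
        have e1 : (B - A) * (y - y) - (y + 1 - y) * (A' - A) = A - A' := by ring
        have e2 : (B - A) * (y + 1 - y) - (y + 1 - y) * (B' - A) = B - B' := by ring
        rw [e1, e2] at h8
        rcases le_total M.1 M'.1 with hle | hle
        · have := mul_nonneg_of_nonpos_of_nonpos (show A - A' ≤ 0 by omega) (show B - B' ≤ 0 by omega)
          linarith
        · have := mul_nonneg (show 0 ≤ A - A' by omega) (show 0 ≤ B - B' by omega)
          linarith
      · intro hc
        exact strips (by omega) hc.symm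

/-- the extreme triangulation: double fans in all horizontal strips -/
noncomputable def T0 (n : ℕ) : Finset (Finset (ℤ × ℤ)) := (HH n).image fun M => {lo n M, hi n M}

theorem isTri_T0 (n : ℕ) : IsTri n (T0 n) where
  edge := by
    intro e he
    obtain ⟨M, hM, rfl⟩ := mem_image.1 he
    exact isEdge_lohi hM
  nc := by
    intro e he f hf hne
    obtain ⟨M, hM, rfl⟩ := mem_image.1 he
    obtain ⟨M', hM', rfl⟩ := mem_image.1 hf
    by_contra h
    exact nc_lohi hM hM' (cross_of_not_NC (isEdge_lohi hM) (isEdge_lohi hM') hne h)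
  max := by
    intro e he hnc
    by_contra hcon
    have hM := he.sm_mem
    have hmem : ({lo n (sm e), hi n (sm e)} : Finset (ℤ × ℤ)) ∈ T0 n := mem_image.2 ⟨_, hM, rfl⟩
    have hne : e ≠ {lo n (sm e), hi n (sm e)} := by
      intro h
      apply hcon
      rw [h]
      exact hmem
    exact not_NC_of_sm he (isEdge_lohi hM) (sm_lohi hM).symm (hnc _ hmem hne)

/-- the extreme triangulation as a state -/
noncomputable def tz (n : ℕ) : Tri n := ⟨T0 n, isTri_T0 n⟩

lemma sum_strip (n : ℕ) : ∑ i ∈ range (2 * n + 1), ((min (n : ℤ) i - max 0 ((i : ℤ) - n) : ℤ) : ℝ) = (n : ℝ) ^ 2 := by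
  have h1 : 2 * n + 1 = (n + 1) + n := by ring
  rw [h1, sum_range_add]
  have h2 : ∑ i ∈ range (n + 1), ((min (n : ℤ) i - max 0 ((i : ℤ) - n) : ℤ) : ℝ) = ∑ i ∈ range (n + 1), (i : ℝ) := by
    refine sum_congr rfl fun i hi => ?_
    rw [mem_range] at hi
    have : (min (n : ℤ) i - max 0 ((i : ℤ) - n) : ℤ) = i := by omega
    rw [this]; norm_cast
  have h3 : ∑ i ∈ range n, ((min (n : ℤ) ((n + 1 + i : ℕ) : ℤ) - max 0 (((n + 1 + i : ℕ) : ℤ) - n) : ℤ) : ℝ) =
      ∑ i ∈ range n, ((n : ℝ) - (i + 1)) := by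
    refine sum_congr rfl fun i hi => ?_
    rw [mem_range] at hi
    have : (min (n : ℤ) ((n + 1 + i : ℕ) : ℤ) - max 0 (((n + 1 + i : ℕ) : ℤ) - n) : ℤ) = (n : ℤ) - (i + 1) := by omega
    rw [this]; push_cast; ring
  rw [h2, h3, sum_range_succ', Nat.cast_zero, add_zero, ← sum_add_distrib]
  have h4 : ∀ i ∈ range n, (((i + 1 : ℕ) : ℝ) + ((n : ℝ) - (i + 1))) = n := by
    intro i _
    push_cast; ring
  rw [sum_congr rfl h4, sum_const, card_range, nsmul_eq_mul, pow_two]

theorem Phi_tz (n : ℕ) : Phi (tz n) = (n : ℝ) ^ 3 := by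
  unfold Phi tz T0
  simp only
  rw [sum_image]
  swap
  · intro M hM M' hM' h
    have := congrArg sm h
    simp only at this
    rwa [sm_lohi (mem_coe.1 hM), sm_lohi (mem_coe.1 hM')] at this
  set J : Finset (ℤ × ℤ) := (range (2 * n + 1) ×ˢ range n).image fun p => ((p.1 : ℤ), 2 * (p.2 : ℤ) + 1) with hJ
  have hJs : J ⊆ HH n := by
    intro M hM
    obtain ⟨⟨i, j⟩, hp, rfl⟩ := mem_image.1 hM
    rw [mem_product, mem_range, mem_range] at hp
    rw [mem_HH]
    simp only at hp ⊢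
    omega
  rw [← sum_subset hJs]
  · rw [hJ, sum_image]
    · have h1 : ∀ p ∈ range (2 * n + 1) ×ˢ range n, sl {lo n ((p.1 : ℤ), 2 * (p.2 : ℤ) + 1), hi n ((p.1 : ℤ), 2 * (p.2 : ℤ) + 1)} =
          ((min (n : ℤ) p.1 - max 0 ((p.1 : ℤ) - n) : ℤ) : ℝ) := by
        intro p hp
        have hM : (((p.1 : ℤ), 2 * (p.2 : ℤ) + 1) : ℤ × ℤ) ∈ HH n := hJs (mem_image.2 ⟨p, hp, rfl⟩)
        have hodd : ¬ (2 * (p.2 : ℤ) + 1) % 2 = 0 := by omega
        have e0 := lo_ne_hi hM
        have e1 : lo n ((p.1 : ℤ), 2 * (p.2 : ℤ) + 1) = (max 0 ((p.1 : ℤ) - n), (p.2 : ℤ)) := by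
          unfold lo
          simp only
          rw [if_neg hodd]
          refine Prod.ext rfl ?_
          simp only; omega
        have e2 : hi n ((p.1 : ℤ), 2 * (p.2 : ℤ) + 1) = (min (n : ℤ) (p.1 : ℤ), (p.2 : ℤ) + 1) := by
          unfold hi
          simp only
          rw [if_neg hodd]
          refine Prod.ext rfl ?_
          simp only; omega
        rw [e1, e2] at e0 ⊢
        rw [sl_pair e0 (by simp only; omega)]
        simp only
        push_cast
        rw [add_sub_cancel_left, div_one]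
      rw [sum_congr rfl h1, sum_product]
      simp only
      have h2 : ∀ i ∈ range (2 * n + 1), ∑ j ∈ range n, ((min (n : ℤ) i - max 0 ((i : ℤ) - n) : ℤ) : ℝ) =
          n * ((min (n : ℤ) i - max 0 ((i : ℤ) - n) : ℤ) : ℝ) := by
        intro i _
        rw [sum_const, card_range, nsmul_eq_mul]
      rw [sum_congr rfl h2, ← mul_sum, sum_strip]
      ring
    · intro p _ q _ h
      have e1 := congrArg Prod.fst h
      have e2 := congrArg Prod.snd h
      simp only at e1 e2
      exact Prod.ext (by exact_mod_cast e1) (by omega)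
  · intro M hM hMJ
    rcases lohi hM with ⟨h, x, y, h1, h2, h3, h4, h5, h6, h7⟩ | ⟨h, y, h1, h2, h3, h4, h5, h6, h7⟩
    · have e0 := lo_ne_hi hM
      rw [h6, h7] at e0 ⊢
      exact sl_even e0 (by simp only; omega)
    · exfalso
      apply hMJ
      rw [hJ, mem_image]
      refine ⟨(M.1.toNat, y.toNat), ?_, ?_⟩
      · rw [mem_product, mem_range, mem_range]
        simp only; omega
      · refine Prod.ext ?_ ?_
        · simp only; omega
        · simp only; omega

/-! ### The reflection -/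

/-- the reflection `(x, y) ↦ (n - x, y)` -/
def rf (n : ℕ) (p : ℤ × ℤ) : ℤ × ℤ := ((n : ℤ) - p.1, p.2)

lemma rf_rf (p : ℤ × ℤ) : rf n (rf n p) = p := by
  unfold rf; ext <;> simp

lemma rf_injective : Function.Injective (rf n) := Function.Involutive.injective rf_rf

/-- the reflection of a set of points -/
def rfE (n : ℕ) (e : Finset (ℤ × ℤ)) : Finset (ℤ × ℤ) := e.image (rf n)

lemma rfE_rfE (e : Finset (ℤ × ℤ)) : rfE n (rfE n e) = e := by
  unfold rfE
  rw [image_image]
  have : rf n ∘ rf n = id := funext rf_rf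
  rw [this, image_id]

lemma rfE_injective : Function.Injective (rfE n) := Function.Involutive.injective rfE_rfE

lemma rfE_pair (a b : ℤ × ℤ) : rfE n {a, b} = {rf n a, rf n b} := by
  unfold rfE; rw [image_insert, image_singleton]

/-- the reflection of the plane -/
def rfR (n : ℕ) (x : ℝ × ℝ) : ℝ × ℝ := ((n : ℝ) - x.1, x.2)

lemma rfR_pt (p : ℤ × ℤ) : rfR n (pt p) = pt (rf n p) := by
  unfold rfR pt rf; ext <;> simp

lemma rfR_rfR (x : ℝ × ℝ) : rfR n (rfR n x) = x := by
  unfold rfR; ext <;> simp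

lemma rfR_par (a b : ℤ × ℤ) (t : ℝ) : rfR n (par (rf n a) (rf n b) t) = par a b t := by
  unfold rfR par rf
  ext
  · simp only; push_cast; ring
  · simp only

lemma mem_seg_rf {a b : ℤ × ℤ} {x : ℝ × ℝ} (h : x ∈ seg {rf n a, rf n b}) : rfR n x ∈ seg {a, b} := by
  obtain ⟨t, t0, t1, rfl⟩ := mem_seg.1 h
  exact mem_seg.2 ⟨t, t0, t1, rfR_par a b t⟩

lemma mem_seg_rfE {e : Finset (ℤ × ℤ)} (he : IsEdge n e) {x : ℝ × ℝ} (h : x ∈ seg (rfE n e)) : rfR n x ∈ seg e := by
  obtain ⟨a, b, -, rfl⟩ := he.exists_pair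
  rw [rfE_pair] at h
  exact mem_seg_rf h

lemma IsEdge.rfE {e : Finset (ℤ × ℤ)} (he : IsEdge n e) : IsEdge n (rfE n e) where
  card := by
    unfold LT.rfE
    rw [card_image_of_injective _ rf_injective, he.card]
  sub := by
    intro p hp
    obtain ⟨q, hq, rfl⟩ := mem_image.1 hp
    have := mem_grid.1 (he.sub hq)
    rw [mem_grid]
    unfold rf
    simp only
    omega
  prim := by
    intro p hp hps
    have h1 : rf n p ∈ grid n := by
      have := mem_grid.1 hp
      rw [mem_grid]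
      unfold rf
      simp only
      omega
    have h2 := mem_seg_rfE he hps
    rw [rfR_pt] at h2
    exact mem_image.2 ⟨rf n p, he.prim _ h1 h2, rf_rf p⟩

lemma NC.rfE {e f : Finset (ℤ × ℤ)} (he : IsEdge n e) (hf : IsEdge n f) (h : NC e f) : NC (rfE n e) (rfE n f) := by
  intro x hx hx'
  obtain ⟨p, hp, hp', h1⟩ := h _ (mem_seg_rfE he hx) (mem_seg_rfE hf hx')
  refine ⟨rf n p, mem_image.2 ⟨p, hp, rfl⟩, mem_image.2 ⟨p, hp', rfl⟩, ?_⟩
  rw [← rfR_pt, ← h1, rfR_rfR]

theorem IsTri.rfT {T : Finset (Finset (ℤ × ℤ))} (hT : IsTri n T) : IsTri n (T.image (rfE n)) where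
  edge := by
    intro e he
    obtain ⟨f, hf, rfl⟩ := mem_image.1 he
    exact (hT.edge f hf).rfE
  nc := by
    intro e' he' f' hf' hne
    obtain ⟨e, he, rfl⟩ := mem_image.1 he'
    obtain ⟨f, hf, rfl⟩ := mem_image.1 hf'
    exact (hT.nc e he f hf (fun h => hne (by rw [h]))).rfE (hT.edge e he) (hT.edge f hf)
  max := by
    intro e he hnc
    refine mem_image.2 ⟨rfE n e, hT.max _ he.rfE ?_, rfE_rfE e⟩
    intro f hf hne
    have h1 : e ≠ rfE n f := by
      rintro rfl
      exact hne (rfE_rfE f)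
    have h2 := (hnc _ (mem_image.2 ⟨f, hf, rfl⟩) h1).rfE he (hT.edge f hf).rfE
    rwa [rfE_rfE] at h2

/-- the reflection of a triangulation -/
noncomputable def rfT (T : Tri n) : Tri n := ⟨T.1.image (rfE n), T.2.rfT⟩

lemma rfT_injective : Function.Injective (rfT (n := n)) := by
  intro T T' h
  have h1 : T.1.image (rfE n) = T'.1.image (rfE n) := congrArg Subtype.val h
  exact Subtype.ext (image_injective rfE_injective h1)

lemma sl_rfE {e : Finset (ℤ × ℤ)} (he : IsEdge n e) : sl (rfE n e) = - sl e := by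
  obtain ⟨a, b, hab, rfl⟩ := he.exists_pair
  have hab' : rf n a ≠ rf n b := fun h => hab (rf_injective h)
  rw [rfE_pair]
  by_cases h : (a.2 + b.2) % 2 = 0
  · rw [sl_even hab h, sl_even hab' h, neg_zero]
  · rw [sl_pair hab h, sl_pair hab' h]
    unfold rf
    simp only
    push_cast
    rw [← neg_div]
    congr 1
    ring

lemma Phi_rfT (T : Tri n) : Phi (rfT T) = - Phi T := by
  unfold Phi rfT
  simp only
  rw [sum_image (fun _ _ _ _ h => rfE_injective h), ← sum_neg_distrib]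
  exact sum_congr rfl fun e he => sl_rfE (T.2.edge e he)

/-- at least half of the triangulations have `Φ ≤ 0` -/
theorem half (n : ℕ) : Fintype.card (Tri n) ≤ 2 * ((univ : Finset (Tri n)).filter fun T => Phi T ≤ 0).card := by
  classical
  have h1 := card_filter_add_card_filter_not (s := (univ : Finset (Tri n))) (fun T => Phi T ≤ 0)
  have h2 : ((univ : Finset (Tri n)).filter fun T => ¬ Phi T ≤ 0).card ≤
      ((univ : Finset (Tri n)).filter fun T => Phi T ≤ 0).card := by
    refine card_le_card_of_injOn rfT ?_ rfT_injective.injOn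
    intro T hT
    rw [mem_coe, mem_filter] at hT ⊢
    refine ⟨mem_univ _, ?_⟩
    rw [Phi_rfT]
    have := hT.2
    linarith
  rw [card_univ] at h1
  omega

end Pool.Agent.LT
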